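import Pool.Agent.Helper10.Sub.AppDefs

/-!
# A non-reduced divisor in a plane violates the Jacobian condition
-/

set_option autoImplicit false

namespace Pool.Agent.Helper11.Sub

open Pool.Agent.Helper10.Sub MvPolynomial

section dif
variable {κ : Type*} [Fintype κ] {k : Type*} [CommRing k] {L : Type*} [CommRing L] [Algebra k L]

lemma dif_add (f g : MvPolynomial κ k) (A v : κ → L) :
    dif (f + g) A v = dif f A v + dif g A v := by
  simp only [dif, map_add, add_mul, Finset.sum_add_distrib]

lemma dif_mul (f g : MvPolynomial κ k) (A v : κ → L) :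
    dif (f * g) A v = aeval A f * dif g A v + aeval A g * dif f A v := by
  simp only [dif, Derivation.leibniz, map_add, smul_eq_mul, map_mul, add_mul,
    Finset.sum_add_distrib, Finset.mul_sum]
  congr 1
  · exact Finset.sum_congr rfl fun i _ => by ring
  · exact Finset.sum_congr rfl fun i _ => by ring

lemma dif_C (c : k) (A v : κ → L) : dif (C c : MvPolynomial κ k) A v = 0 := by
  simp [dif]

lemma dif_add_right (f : MvPolynomial κ k) (A v w : κ → L) :
    dif f A (v + w) = dif f A v + dif f A w := by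
  simp only [dif, Pi.add_apply, mul_add, Finset.sum_add_distrib]

lemma dif_smul_right (f : MvPolynomial κ k) (A v : κ → L) (c : L) :
    dif f A (c • v) = c * dif f A v := by
  simp only [dif, Pi.smul_apply, smul_eq_mul, Finset.mul_sum]
  exact Finset.sum_congr rfl fun i _ => by ring

/-- The differential as a linear form. -/
noncomputable def difLin (f : MvPolynomial κ k) (A : κ → L) : (κ → L) →ₗ[L] L where
  toFun v := dif f A v
  map_add' := dif_add_right f A
  map_smul' c v := by rw [dif_smul_right]; rfl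

lemma dif_lin [DecidableEq κ] (c : κ → k) (A v : κ → L) :
    dif (∑ i, C (c i) * X i : MvPolynomial κ k) A v = ∑ i, algebraMap k L (c i) * v i := by
  simp only [dif, map_sum, Derivation.leibniz, pderiv_X, pderiv_C, add_zero,
    smul_eq_mul, mul_zero]
  refine Finset.sum_congr rfl fun j _ => ?_
  congr 1
  rw [Finset.sum_eq_single j]
  · simp
  · intro b _ hb
    simp [hb]
  · simp

lemma dif_pow (f : MvPolynomial κ k) (A v : κ → L) (d : ℕ) (hd : 2 ≤ d)
    (hf : aeval A f = 0) : dif (f ^ d) A v = 0 := by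
  obtain ⟨d, rfl⟩ := Nat.exists_eq_add_of_le hd
  rw [show 2 + d = (1 + d) + 1 by ring, pow_succ, dif_mul, map_pow, hf, zero_pow (by omega),
    zero_mul, zero_mul, add_zero]

end dif

/-- A linear form on coordinates. -/
noncomputable def linF {n : ℕ} {Ω : Type*} [Field Ω] (c : Fin n → Ω) : (Fin n → Ω) →ₗ[Ω] Ω where
  toFun A := ∑ i, c i * A i
  map_add' := fun a b => by simp [mul_add, Finset.sum_add_distrib]
  map_smul' := fun a b => by
    simp only [Pi.smul_apply, smul_eq_mul, RingHom.id_apply, Finset.mul_sum]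
    exact Finset.sum_congr rfl fun i _ => by ring

/-- `r + 1` linear conditions on a space of dimension `r + 3` have two independent solutions. -/
lemma two_solutions {n r : ℕ} {Ω : Type*} [Field Ω] (h : r + 3 = n)
    (φ : Fin r → (Fin n → Ω) →ₗ[Ω] Ω) (ψ : (Fin n → Ω) →ₗ[Ω] Ω) :
    ∃ e f : Fin n → Ω, (∀ j, φ j e = 0) ∧ (∀ j, φ j f = 0) ∧ ψ e = 0 ∧ ψ f = 0 ∧
      LinearIndependent Ω ![e, f] := by
  let L : (Fin n → Ω) →ₗ[Ω] (Fin r → Ω) × Ω := (LinearMap.pi φ).prod ψ
  have h1 := LinearMap.finrank_range_add_finrank_ker L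
  have h2 : Module.finrank Ω (LinearMap.range L) ≤ r + 1 := by
    refine le_trans (Submodule.finrank_le _) ?_
    simp
  rw [Module.finrank_fin_fun] at h1
  have h3 : 2 ≤ Module.finrank Ω (LinearMap.ker L) := by omega
  have h4 : Nontrivial (LinearMap.ker L) :=
    (Module.finrank_pos_iff (R := Ω) (M := LinearMap.ker L)).mp (by omega)
  obtain ⟨x, hx⟩ := exists_ne (0 : LinearMap.ker L)
  obtain ⟨y, hy⟩ := exists_linearIndependent_pair_of_one_lt_finrank (R := Ω) (by omega) hx
  have hk : ∀ z : LinearMap.ker L, (∀ j, φ j z.1 = 0) ∧ ψ z.1 = 0 := by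
    intro z
    have hz := z.2
    rw [LinearMap.mem_ker] at hz
    have h5 := congrArg Prod.fst hz
    have h6 := congrArg Prod.snd hz
    exact ⟨fun j => congrFun h5 j, h6⟩
  refine ⟨x.1, y.1, (hk x).1, (hk y).1, (hk x).2, (hk y).2, ?_⟩
  have h7 := hy.map' (LinearMap.ker L).subtype (Submodule.ker_subtype _)
  have h8 : (⇑(LinearMap.ker L).subtype ∘ ![x, y]) = ![x.1, y.1] := by
    funext i
    fin_cases i <;> rfl
  rw [h8] at h7
  exact h7

lemma aeval_smul_of_homog {κ : Type*} [Fintype κ] {k : Type*} [CommRing k] {L : Type*}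
    [CommRing L] [Algebra k L] {F : MvPolynomial κ k} {d : ℕ} (hF : F.IsHomogeneous d)
    (c : L) (A : κ → L) : aeval (c • A) F = c ^ d * aeval A F := by
  rw [aeval_def, aeval_def, eval₂_eq', eval₂_eq', Finset.mul_sum]
  refine Finset.sum_congr rfl fun m hm => ?_
  have h1 : ∑ i, m i = d := by
    have h2 := hF (mem_support_iff.mp hm)
    have h3 : m.degree = d := by
      rw [Finsupp.degree_eq_weight_one]
      exact h2
    rw [Finsupp.degree_eq_sum] at h3
    exact h3
  simp only [Pi.smul_apply, smul_eq_mul, mul_pow, Finset.prod_mul_distrib,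
    Finset.prod_pow_eq_pow_sum, h1]
  ring

lemma aeval_lin_of_homog {κ : Type*} [Fintype κ] {k : Type*} [CommRing k]
    {F : MvPolynomial κ k} (hF : F.IsHomogeneous 1) :
    ∃ c : κ → k, F = ∑ i, C (c i) * X i := by
  have h1 : F ∈ homogeneousSubmodule κ k 1 := hF
  rw [homogeneousSubmodule_one_eq_span_X, Submodule.mem_span_range_iff_exists_fun] at h1
  obtain ⟨c, hc⟩ := h1
  refine ⟨c, ?_⟩
  rw [← hc]
  exact Finset.sum_congr rfl fun i _ => by rw [C_mul']

/-- PLANE -/
theorem plane {k : Type} [Field k] {Ω : Type} [Field Ω] [IsAlgClosed Ω] [Algebra k Ω]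
    {N : ℕ} (P : Ideal (MvPolynomial (Fin (N + 1)) k))
    (Λ : Submodule k (Fin (N + 1) → k)) (hΛ3 : Module.finrank k Λ + 3 = N + 1)
    (hP : P = Ideal.span {f | ∃ c ∈ Λ, f = ∑ i, C (c i) * X i})
    (F₁ F₂ ℓ : MvPolynomial (Fin (N + 1)) k) (d₁ d₂ : ℕ) (hd₁ : 2 ≤ d₁) (hd₂ : 1 ≤ d₂)
    (hF₂ : F₂.IsHomogeneous d₂) (hℓ : ℓ.IsHomogeneous 1) (c : k)
    (hF₁ : F₁ - C c * ℓ ^ d₁ ∈ P) :
    ∃ A : Fin (N + 1) → Ω, A ≠ 0 ∧ OnV ((P : Set _) ∪ {F₁, F₂}) A ∧
      ¬ Jac ((P : Set (MvPolynomial (Fin (N + 1)) k)) ∪ {F₁, F₂}) A := by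
  classical
  obtain ⟨cℓ, hcℓ⟩ := aeval_lin_of_homog hℓ
  let b := Module.finBasis k Λ
  let φ : Fin (Module.finrank k Λ) → (Fin (N + 1) → Ω) →ₗ[Ω] Ω :=
    fun j => linF fun i => algebraMap k Ω ((b j).1 i)
  -- vectors killed by `φ` are killed by all of `Λ`
  have hΛ : ∀ A : Fin (N + 1) → Ω, (∀ j, φ j A = 0) → ∀ c ∈ Λ,
      ∑ i, algebraMap k Ω (c i) * A i = 0 := by
    intro A hA c hc
    have h1 := b.sum_repr ⟨c, hc⟩
    have h2 : ∀ i, c i = ∑ j, b.repr ⟨c, hc⟩ j * (b j).1 i := by
      intro i
      have h3 : (∑ j, b.repr ⟨c, hc⟩ j • b j : Λ).1 i = c i :=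
        congrFun (congrArg Subtype.val h1) i
      rw [← h3]
      simp only [AddSubmonoidClass.coe_finsetSum, Submodule.coe_smul, Finset.sum_apply,
        Pi.smul_apply, smul_eq_mul]
    calc ∑ i, algebraMap k Ω (c i) * A i
        = ∑ i, ∑ j, algebraMap k Ω (b.repr ⟨c, hc⟩ j) *
            (algebraMap k Ω ((b j).1 i) * A i) := by
          refine Finset.sum_congr rfl fun i _ => ?_
          rw [h2 i, map_sum, Finset.sum_mul]
          refine Finset.sum_congr rfl fun j _ => ?_
          rw [map_mul]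
          ring
      _ = ∑ j, algebraMap k Ω (b.repr ⟨c, hc⟩ j) * φ j A := by
          rw [Finset.sum_comm]
          refine Finset.sum_congr rfl fun j _ => ?_
          rw [← Finset.mul_sum]
          rfl
      _ = 0 := by simp [hA]
  have haevP : ∀ A : Fin (N + 1) → Ω, (∀ j, φ j A = 0) → ∀ f ∈ P, aeval A f = 0 := by
    intro A hA f hf
    have h1 : P ≤ RingHom.ker (aeval A : MvPolynomial (Fin (N + 1)) k →ₐ[k] Ω) := by
      rw [hP, Ideal.span_le]
      rintro g ⟨c, hc, rfl⟩
      rw [SetLike.mem_coe, RingHom.mem_ker, map_sum]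
      rw [← hΛ A hA c hc]
      exact Finset.sum_congr rfl fun i _ => by simp
    exact h1 hf
  have hdifP : ∀ A v : Fin (N + 1) → Ω, (∀ j, φ j A = 0) → (∀ j, φ j v = 0) →
      ∀ f ∈ P, dif f A v = 0 := by
    intro A v hA hv f hf
    rw [hP] at hf
    induction hf using Submodule.span_induction with
    | mem g hg =>
      obtain ⟨c, hc, rfl⟩ := hg
      rw [dif_lin]
      exact hΛ v hv c hc
    | zero => simp [dif]
    | add f g _ _ h1 h2 => rw [dif_add, h1, h2, add_zero]
    | smul g f hf' h1 =>
      rw [smul_eq_mul, dif_mul, h1, haevP A hA f (by rw [hP]; exact hf'), mul_zero, zero_mul,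
        add_zero]
  -- a point on the line where `F₂` vanishes
  obtain ⟨e, f, he, hf, hψe, hψf, hef⟩ := two_solutions hΛ3 φ
    (linF fun i => algebraMap k Ω (cℓ i))
  obtain ⟨s, t, hst, hzero⟩ : ∃ s t : Ω, (s ≠ 0 ∨ t ≠ 0) ∧ aeval (s • e + t • f) F₂ = 0 := by
    by_cases hff : aeval f F₂ = 0
    · exact ⟨0, 1, Or.inr one_ne_zero, by simpa using hff⟩
    · by_contra hno
      push Not at hno
      -- the polynomial `F₂ (e + T f)` has no root, so is constant
      let g : Polynomial Ω := aeval (fun i => Polynomial.C (e i) + Polynomial.X *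
        Polynomial.C (f i)) F₂
      let h : Polynomial Ω := aeval (fun i => Polynomial.X * Polynomial.C (e i) +
        Polynomial.C (f i)) F₂
      have hg : ∀ t : Ω, g.eval t = aeval (e + t • f) F₂ := by
        intro t
        have h1 : g.eval t = ((Polynomial.aeval t).restrictScalars k) g := by
          simp [Polynomial.aeval_def, Polynomial.eval₂_eq_eval_map]
        rw [h1, ← AlgHom.comp_apply]
        congr 1
        apply algHom_ext
        intro i
        simp only [AlgHom.comp_apply, aeval_X, AlgHom.restrictScalars_apply, map_add, map_mul,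
          Polynomial.aeval_C, Polynomial.aeval_X, Pi.add_apply, Pi.smul_apply, smul_eq_mul,
          Algebra.algebraMap_self, RingHom.id_apply]
      have hh : ∀ t : Ω, h.eval t = aeval (t • e + f) F₂ := by
        intro t
        have h1 : h.eval t = ((Polynomial.aeval t).restrictScalars k) h := by
          simp [Polynomial.aeval_def, Polynomial.eval₂_eq_eval_map]
        rw [h1, ← AlgHom.comp_apply]
        congr 1
        apply algHom_ext
        intro i
        simp only [AlgHom.comp_apply, aeval_X, AlgHom.restrictScalars_apply, map_add, map_mul,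
          Polynomial.aeval_C, Polynomial.aeval_X, Pi.add_apply, Pi.smul_apply, smul_eq_mul,
          Algebra.algebraMap_self, RingHom.id_apply]
      have hconst : ∀ t : Ω, g.eval t = g.coeff 0 := by
        have hdeg : g.degree ≤ 0 := by
          by_contra hd
          push Not at hd
          obtain ⟨t, ht⟩ := IsAlgClosed.exists_root g hd.ne'
          have h2 := hno 1 t (Or.inl one_ne_zero)
          rw [one_smul] at h2
          exact h2 (by rw [← hg t]; exact ht)
        intro t
        rw [Polynomial.eq_C_of_degree_le_zero hdeg]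
        simp
      have hpoly : h = Polynomial.C (g.coeff 0) * Polynomial.X ^ d₂ := by
        apply Polynomial.eq_of_infinite_eval_eq
        refine Set.Infinite.mono (s := {0}ᶜ) ?_ ?_
        · intro t ht
          have ht0 : t ≠ 0 := ht
          rw [Set.mem_ofPred_eq, hh t]
          have h3 : t • e + f = t • (e + t⁻¹ • f) := by
            rw [smul_add, smul_smul, mul_inv_cancel₀ ht0, one_smul]
          rw [h3, aeval_smul_of_homog hF₂, ← hg, hconst, Polynomial.eval_mul, Polynomial.eval_C,
            Polynomial.eval_pow, Polynomial.eval_X]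
          ring
        · have : Infinite Ω := IsAlgClosed.instInfinite
          exact (Set.finite_singleton (0 : Ω)).infinite_compl
      apply hff
      have h4 := hh 0
      rw [hpoly] at h4
      simp only [Polynomial.eval_mul, Polynomial.eval_C, Polynomial.eval_pow, Polynomial.eval_X,
        zero_smul, zero_add] at h4
      rw [← h4, zero_pow (by omega), mul_zero]
  have hA0 : s • e + t • f ≠ 0 := by
    intro h0
    have h1 := LinearIndependent.pair_iff.mp hef s t h0
    rcases hst with h2 | h2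
    · exact h2 h1.1
    · exact h2 h1.2
  have hAφ : ∀ j, φ j (s • e + t • f) = 0 := by
    intro j
    rw [map_add, map_smul, map_smul, he, hf, smul_zero, smul_zero, add_zero]
  have hAℓ : aeval (s • e + t • f) ℓ = 0 := by
    have h1 : ∀ A : Fin (N + 1) → Ω, aeval A ℓ = linF (fun i => algebraMap k Ω (cℓ i)) A := by
      intro A
      rw [hcℓ, map_sum]
      exact Finset.sum_congr rfl fun i _ => by simp
    rw [h1, map_add, map_smul, map_smul, hψe, hψf, smul_zero, smul_zero, add_zero]
  set A := s • e + t • f with hA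
  have hF₁eq : F₁ = (F₁ - C c * ℓ ^ d₁) + C c * ℓ ^ d₁ := by ring
  refine ⟨A, hA0, ?_, ?_⟩
  · rintro g (hg | hg | hg)
    · exact haevP A hAφ g hg
    · rw [hg, hF₁eq, map_add, haevP A hAφ _ hF₁, map_mul, map_pow, hAℓ, zero_pow (by omega),
        mul_zero, add_zero]
    · rw [Set.mem_singleton_iff.mp hg]
      exact hzero
  · intro hJac
    obtain ⟨v, w, hv, hw, hψv, hψw, hvw⟩ := two_solutions hΛ3 φ (difLin F₂ A)
    have hmul : ∀ u : Fin (N + 1) → Ω, (∀ j, φ j u = 0) → difLin F₂ A u = 0 →
        ∃ r : Ω, u = r • A := by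
      intro u hu hu2
      apply hJac u
      rintro g (hg | hg | hg)
      · exact hdifP A u hAφ hu g hg
      · rw [hg, hF₁eq, dif_add, hdifP A u hAφ hu _ hF₁, dif_mul, dif_pow ℓ A u d₁ hd₁ hAℓ,
          dif_C, mul_zero, mul_zero, add_zero, add_zero]
      · rw [Set.mem_singleton_iff.mp hg]
        exact hu2
    obtain ⟨r1, hr1⟩ := hmul v hv hψv
    obtain ⟨r2, hr2⟩ := hmul w hw hψw
    have h5 := LinearIndependent.pair_iff.mp hvw r2 (-r1) (by
      rw [hr1, hr2, smul_smul, smul_smul, ← add_smul]
      have : r2 * r1 + -r1 * r2 = 0 := by ring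
      rw [this, zero_smul])
    have h6 : r1 = 0 := by simpa using h5.2
    have h7 : v = 0 := by rw [hr1, h6, zero_smul]
    exact (hvw.ne_zero 0) (by simpa using h7)

end Pool.Agent.Helper11.Sub
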