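import Pool.Agent.Helper11.Prod

/-!
# The numerators of the even multiples of the generator are not squares
-/

namespace Pool.Agent.Helper11

open WeierstrassCurve

/-- The sequence of Jacobi symbols of the numerators of the even multiples. -/
def Fs (τ : ℤ) : ℕ → ℤ
  | 0 => 1
  | i + 1 => if 3 ∣ 2 * i + 1 then - Fs τ i else -τ * Fs τ i

lemma Fs_succ (τ : ℤ) (i : ℕ) : Fs τ (i + 1) = if 3 ∣ 2 * i + 1 then - Fs τ i else -τ * Fs τ i := rfl

lemma Fs_three {τ : ℤ} (h : τ = 1 ∨ τ = -1) (i : ℕ) : Fs τ (i + 3) = - Fs τ i := by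
  have h3 : i % 3 = 0 ∨ i % 3 = 1 ∨ i % 3 = 2 := by omega
  rw [show i + 3 = (i + 2) + 1 by ring, Fs_succ, show i + 2 = (i + 1) + 1 by ring, Fs_succ, Fs_succ]
  rcases h3 with h3 | h3 | h3
  · rw [if_neg (by omega), if_pos (by omega), if_neg (by omega)]
    rcases h with rfl | rfl <;> ring
  · rw [if_neg (by omega), if_neg (by omega), if_pos (by omega)]
    rcases h with rfl | rfl <;> ring
  · rw [if_pos (by omega), if_neg (by omega), if_neg (by omega)]
    rcases h with rfl | rfl <;> ring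

lemma Fs_three_mul {τ : ℤ} (h : τ = 1 ∨ τ = -1) (m : ℕ) : Fs τ (3 * m) = (-1) ^ m := by
  induction m with
  | zero => rfl
  | succ m ih =>
    rw [show 3 * (m + 1) = 3 * m + 3 by ring, Fs_three h, ih, pow_succ]; ring

lemma Fs_val {τ : ℤ} (h : τ = 1 ∨ τ = -1) (i : ℕ) : Fs τ i = 1 ∨ Fs τ i = -1 := by
  induction i with
  | zero => left; rfl
  | succ i ih =>
    rw [Fs_succ]
    split_ifs <;> rcases h with rfl | rfl <;> rcases ih with h | h <;> rw [h] <;> simp

section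
variable {a p : ℤ}

/-- A point with both `S` and `N` odd and the right symbols. -/
structure Node (a p : ℤ) (J : (E a p).Point) (s N T : ℤ) (sn : ℕ) : Prop where
  par : Par a p
  rep : RepAt a p 1 J s N T
  Nodd : N % 2 = 1
  sn_eq : s = sn
  symb : Symb p sn

variable {J : (E a p).Point} {s N T : ℤ} {sn : ℕ}

lemma Node.exists_half (h : Node a p J s N T sn) : ∃ R : (E a p).Point, R + R = J := by
  have h1 := h.rep.at'
  have hS : (0 : ℚ) < s := by exact_mod_cast h.rep.hS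
  have hN : (0 : ℚ) < N := by exact_mod_cast h.rep.hN
  rw [Int.cast_one, one_mul] at h1
  exact half h.par.good h.par.hp0 h.par.hq (by positivity) h1

lemma Node.zsmul_ne (h : Node a p J s N T sn) {i : ℤ} (hi : i ≠ 0) : i • J ≠ 0 :=
  fun h0 => hi (h.rep.infinite_order h.par h0)

/-- Multiples of `J` are represented. -/
lemma Node.exists_rep (h : Node a p J s N T sn) {i : ℤ} (hi : i ≠ 0) :
    ∃ S N T, RepAt a p 1 (i • J) S N T := by
  obtain ⟨R, hR⟩ := h.exists_half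
  have h1 : i • J = i • R + i • R := by rw [← hR, zsmul_add]
  rw [h1]
  apply rep_of_dbl h.par
  rw [← h1]
  exact h.zsmul_ne hi

lemma Node.redT (h : Node a p J s N T sn) {l : ℕ} [hl : Fact l.Prime] (hls : (l : ℤ) ∣ s) :
    RedT l J := (h.rep.redT_iff (Or.inl rfl) l).mpr hls

lemma Node.not_dvd_p (h : Node a p J s N T sn) {l : ℕ} [hl : Fact l.Prime] (hls : (l : ℤ) ∣ s) :
    ¬ (l : ℤ) ∣ p := by
  intro h1
  have hl' : Prime (l : ℤ) := Nat.prime_iff_prime_int.mp hl.out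
  have h9 : Associated (l : ℤ) p := (hl'.dvd_prime_iff_associated h.par.primep).mp h1
  exact h.rep.not_dvd_S h.par (Or.inl rfl) (h9.symm.dvd.trans hls)

/-- The denominators of odd multiples are prime to the numerator of `J`. -/
lemma Node.coprime_odd (h : Node a p J s N T sn) {i : ℤ} (hi : Odd i) {S' N' T' : ℤ}
    (h' : RepAt a p 1 (i • J) S' N' T') : IsCoprime N' s := by
  apply isCoprime_of_prime_dvd
  · rintro ⟨-, h0⟩
    have := h.rep.hS
    omega
  intro r hr h1 h2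
  have hl : r.natAbs.Prime := Int.prime_iff_natAbs_prime.mp hr
  have : Fact (r.natAbs).Prime := ⟨hl⟩
  have h3 : ((r.natAbs : ℕ) : ℤ) ∣ s := Int.natAbs_dvd.mpr h2
  have h4 : ((r.natAbs : ℕ) : ℤ) ∣ N' := Int.natAbs_dvd.mpr h1
  have h5 : RedT r.natAbs J := h.redT h3
  have h6 : RedT r.natAbs (i • J) := h5.odd_smul h.par.good (h.not_dvd_p h3) hi
  have h7 : ((r.natAbs : ℕ) : ℤ) ∣ S' := (h'.redT_iff (Or.inl rfl) r.natAbs).mp h6
  have h8 := h'.cop.isUnit_of_dvd' h7 h4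
  rw [Int.isUnit_iff] at h8
  have := hl.two_le
  omega

lemma Node.two_rep (h : Node a p J s N T sn) :
    ∃ S' N' T', 2 * S' = s ^ 4 + p * N ^ 4 ∧ RepAt a p 1 (J + J) S' N' T' ∧ N' % 2 = 1 := by
  have hs := h.rep.S_odd h.par
  obtain ⟨S', T', h1, h2⟩ := h.rep.dbl_odd h.par (Or.inl rfl) hs h.Nodd
  refine ⟨S', _, T', h1, h2, ?_⟩
  have hT := h.rep.Todd h.par (Or.inl rfl)
  have hT' : |T| % 2 = 1 := by rcases abs_choice T with h | h <;> omega
  simp [Int.mul_emod, hs, hT', h.Nodd]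

/-- `i J` lies in the kernel of reduction at `2` iff `3 ∣ i`. -/
lemma Node.inH_two (h : Node a p J s N T sn) (i : ℤ) : InH 2 (i • J) ↔ (3 : ℤ) ∣ i := by
  have h1 : ¬ InH 2 J := by
    rw [h.rep.inH_iff (Or.inl rfl)]
    have := h.Nodd
    omega
  obtain ⟨S₂, N₂, T₂, -, h2, hN₂⟩ := h.two_rep
  have h2' : ¬ InH 2 (J + J) := by
    rw [h2.inH_iff (Or.inl rfl)]
    omega
  have h3 : InH 2 (J + J + J) := by
    have e1 : J + J + J = (3 : ℤ) • J := by abel
    have e2 : J + J - J = (1 : ℤ) • J := by abel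
    obtain ⟨S₃, N₃, T₃, h3⟩ := h.exists_rep (i := 3) (by norm_num)
    rw [← e1] at h3
    have h4 : RepAt a p 1 (J + J - J) s N T := by rw [e2, one_zsmul]; exact h.rep
    obtain ⟨κ, k1, -, k2⟩ := prod_rep h.par h2 h.rep h3 h4
    rw [h3.inH_iff (Or.inl rfl)]
    rw [if_pos ⟨hN₂, h.Nodd⟩] at k1
    rw [k1] at k2
    have o1 := odd_sq_mod8 (h2.S_odd h.par)
    have o2 := odd_sq_mod8 (h.rep.S_odd h.par)
    have o3 := odd_sq_mod8 hN₂
    have o4 := odd_sq_mod8 h.Nodd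
    have h5 : (S₂ ^ 2 * N ^ 2) % 8 = 1 := by simp [Int.mul_emod, o1, o4]
    have h6 : (s ^ 2 * N₂ ^ 2) % 8 = 1 := by simp [Int.mul_emod, o2, o3]
    have h7 : (2 * (N₃ * N)) % 8 = 0 := by
      rw [← k2]
      rcases abs_choice (S₂ ^ 2 * N ^ 2 - s ^ 2 * N₂ ^ 2) with h | h <;> omega
    have h8 := h.Nodd
    have h9 : (N₃ * N) % 4 = 0 := by omega
    have h10 : (N₃ * N) % 2 = 0 := by omega
    by_contra hcon
    have h11 : N₃ % 2 = 1 := by omega
    rw [Int.mul_emod, h11, h8] at h10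
    omega
  have hmul : ∀ q : ℤ, InH 2 ((3 * q) • J) := by
    intro q
    have : (3 * q) • J = q • (J + J + J) := by
      have e1 : J + J + J = (3 : ℤ) • J := by abel
      rw [e1, mul_comm, mul_zsmul]
    rw [this]
    exact h3.zsmul q
  constructor
  · intro hi
    by_contra hcon
    obtain ⟨q, r, hr, rfl⟩ : ∃ q r : ℤ, (r = 1 ∨ r = 2) ∧ i = 3 * q + r := by
      refine ⟨i / 3, i % 3, by omega, by omega⟩
    have h4 : InH 2 (r • J) := by
      have : r • J = (3 * q + r) • J - (3 * q) • J := by rw [add_zsmul]; abel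
      rw [this]
      exact hi.sub (hmul q)
    rcases hr with rfl | rfl
    · rw [one_zsmul] at h4; exact h1 h4
    · rw [two_zsmul] at h4; exact h2' h4
  · rintro ⟨q, rfl⟩
    exact hmul q

/-- The value `τ`. -/
def tau (p : ℤ) : ℤ := if p % 16 = 5 then -1 else 1

lemma tau_val (p : ℤ) : tau p = 1 ∨ tau p = -1 := by
  unfold tau; split_ifs <;> simp

/-- The chain of Jacobi symbols. -/
lemma Node.chain (h : Node a p J s N T sn) (i : ℕ) : ∀ {S' N' T' : ℤ},
    RepAt a p 1 ((2 * (i + 1 : ℕ) : ℤ) • J) S' N' T' → jacobiSym S' sn = Fs (tau p) (i + 1) := by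
  induction i with
  | zero =>
    intro S' N' T' h'
    obtain ⟨S₂, N₂, T₂, e, h2, -⟩ := h.two_rep
    have e1 : ((2 * (0 + 1 : ℕ) : ℤ)) • J = J + J := by
      simp [two_zsmul]
    rw [e1] at h'
    obtain ⟨rfl, -, -⟩ := h'.unique (Or.inl rfl) h2
    have h3 : Fs (tau p) (0 + 1) = - tau p := by
      rw [Fs_succ, if_neg (by norm_num)]
      simp [Fs]
    rw [h3]
    have h4 : jacobiSym 2 sn * jacobiSym S' sn = -1 := by
      rw [← jacobiSym.mul_left, e, h.sn_eq]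
      have h5 : ((sn : ℤ) ^ 4 + p * N ^ 4) % sn = (p * (N ^ 2) ^ 2) % sn := by
        have : (sn : ℤ) ^ 4 + p * N ^ 4 = p * (N ^ 2) ^ 2 + sn * (sn ^ 3) := by ring
        rw [this, Int.add_mul_emod_self_left]
      rw [jacobiSym.mod_left' h5, jacobiSym.mul_left, h.symb.atp, jacobiSym.sq_one']
      · norm_num
      · have h6 := h.rep.cop
        rw [h.sn_eq] at h6
        exact Int.isCoprime_iff_gcd_eq_one.mp (h6.symm.pow_left)
    have h5 : jacobiSym 2 sn = tau p := h.symb.two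
    rw [h5] at h4
    rcases tau_val p with h6 | h6 <;> rw [h6] at h4 ⊢ <;> linarith
  | succ i ih =>
    intro S' N' T' h'
    obtain ⟨Sm, Nm, Tm, hm⟩ := h.exists_rep (i := (2 * (i + 1 : ℕ) : ℤ)) (by positivity)
    have hSm := ih hm
    obtain ⟨S₁, N₁, T₁, h1⟩ := h.exists_rep (i := (2 * (i + 1 : ℕ) + 1 : ℤ)) (by positivity)
    have ep : ((2 * (i + 1 : ℕ) + 1 : ℤ)) • J + J = (2 * (i + 1 + 1 : ℕ) : ℤ) • J := by
      have : (2 * (i + 1 + 1 : ℕ) : ℤ) = (2 * (i + 1 : ℕ) + 1 : ℤ) + 1 := by push_cast; ring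
      rw [this, add_zsmul J (_ + 1) 1, one_zsmul]
    have em : ((2 * (i + 1 : ℕ) + 1 : ℤ)) • J - J = (2 * (i + 1 : ℕ) : ℤ) • J := by
      rw [add_zsmul, one_zsmul]; abel
    have hp' : RepAt a p 1 (((2 * (i + 1 : ℕ) + 1 : ℤ)) • J + J) S' N' T' := by rw [ep]; exact h'
    have hm' : RepAt a p 1 (((2 * (i + 1 : ℕ) + 1 : ℤ)) • J - J) Sm Nm Tm := by rw [em]; exact hm
    obtain ⟨κ, k1, k2, -⟩ := prod_rep h.par h1 h.rep hp' hm'
    have hκ : jacobiSym κ sn = if 3 ∣ 2 * (i + 1) + 1 then 1 else tau p := by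
      have h3 : InH 2 ((2 * (i + 1 : ℕ) + 1 : ℤ) • J) ↔ (3 : ℤ) ∣ (2 * (i + 1 : ℕ) + 1 : ℤ) :=
        h.inH_two _
      rw [h1.inH_iff (Or.inl rfl)] at h3
      by_cases h4 : 3 ∣ 2 * (i + 1) + 1
      · rw [if_pos h4]
        have h5 : (3 : ℤ) ∣ (2 * (i + 1 : ℕ) + 1 : ℤ) := by exact_mod_cast h4
        have h6 := h3.mpr h5
        have h7 : ¬ (N₁ % 2 = 1 ∧ N % 2 = 1) := by
          push_cast at h6
          omega
        rw [k1, if_neg h7]
        exact jacobiSym.one_left _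
      · rw [if_neg h4]
        have h5 : ¬ (3 : ℤ) ∣ (2 * (i + 1 : ℕ) + 1 : ℤ) := by exact_mod_cast h4
        have h6 := fun h => h5 (h3.mp h)
        have h7 : (N₁ % 2 = 1 ∧ N % 2 = 1) := by
          push_cast at h6
          have := h.Nodd
          omega
        rw [k1, if_pos h7]
        exact h.symb.two
    have hU : jacobiSym (κ * (S' * Sm)) sn = -1 := by
      rw [← k2, h.sn_eq]
      have h5 : (S₁ ^ 2 * (sn : ℤ) ^ 2 + p * N₁ ^ 2 * N ^ 2) % sn = (p * (N₁ * N) ^ 2) % sn := by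
        have : S₁ ^ 2 * (sn : ℤ) ^ 2 + p * N₁ ^ 2 * N ^ 2 = p * (N₁ * N) ^ 2 + sn * (sn * S₁ ^ 2) := by
          ring
        rw [this, Int.add_mul_emod_self_left]
      rw [jacobiSym.mod_left' h5, jacobiSym.mul_left, h.symb.atp, jacobiSym.sq_one']
      · norm_num
      · have h6 := h.rep.cop
        have h7 := h.coprime_odd (i := (2 * (i + 1 : ℕ) + 1 : ℤ)) ⟨_, rfl⟩ h1
        rw [h.sn_eq] at h6 h7
        exact Int.isCoprime_iff_gcd_eq_one.mp (h7.mul_left h6.symm)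
    rw [jacobiSym.mul_left, jacobiSym.mul_left, hSm, hκ] at hU
    rw [Fs_succ]
    split_ifs at hU ⊢ with h8
    · rcases Fs_val (tau_val p) (i + 1) with h9 | h9 <;> rw [h9] at hU ⊢ <;> linarith
    · rcases Fs_val (tau_val p) (i + 1) with h9 | h9 <;> rcases tau_val p with h10 | h10 <;>
        rw [h9] at hU ⊢ <;> rw [h10] at hU ⊢ <;> linarith

/-- The numerators of the points `2 o J`, `o` odd, are not squares. -/
theorem Node.not_square (h : Node a p J s N T sn) {o : ℤ} (ho : Odd o) {S' N' T' : ℤ}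
    (h' : RepAt a p 1 ((2 * o) • J) S' N' T') (r : ℤ) : S' ≠ r ^ 2 := by
  rintro rfl
  -- reduce to positive `o`
  wlog hpos : 0 < o generalizing o T'
  · have ho0 : o ≠ 0 := by rintro rfl; exact (by decide : ¬ Odd (0 : ℤ)) ho
    refine this (o := -o) (T' := -T') ho.neg ?_ (by omega)
    have : (2 * -o) • J = -((2 * o) • J) := by rw [mul_neg, neg_zsmul]
    rw [this]
    exact h'.neg
  by_cases h3 : (3 : ℤ) ∣ o
  · obtain ⟨m, hm⟩ := h3
    lift m to ℕ using (by omega)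
    have hmodd : Odd m := by
      rw [hm] at ho
      have := (Int.odd_mul.mp ho).2
      exact_mod_cast this
    have hm0 : 0 < m := hmodd.pos
    have e1 : (2 * o) = (2 * ((3 * m - 1) + 1 : ℕ) : ℤ) := by rw [hm]; push_cast; omega
    rw [e1] at h'
    have h4 := h.chain _ h'
    have e2 : 3 * m - 1 + 1 = 3 * m := by omega
    rw [e2, Fs_three_mul (tau_val p), hmodd.neg_one_pow, jacobiSym.pow_left] at h4
    nlinarith [sq_nonneg (jacobiSym r sn)]
  · -- direct computation modulo `4`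
    have ho0 : o ≠ 0 := by omega
    obtain ⟨S₁, N₁, T₁, h1⟩ := h.exists_rep ho0
    have h4 : ¬ InH 2 (o • J) := fun h4 => h3 ((h.inH_two o).mp h4)
    rw [h1.inH_iff (Or.inl rfl)] at h4
    have hN₁ : N₁ % 2 = 1 := by push_cast at h4; omega
    obtain ⟨S₂, T₂, e, h2⟩ := h1.dbl_odd h.par (Or.inl rfl) (h1.S_odd h.par) hN₁
    have e1 : o • J + o • J = (2 * o) • J := by rw [two_mul, add_zsmul]
    rw [e1] at h2
    obtain ⟨e2, -, -⟩ := h'.unique (Or.inl rfl) h2
    have h5 : (S₁ ^ 4 + p * N₁ ^ 4) % 16 = (1 + p) % 16 := RepAt.F_mod16 (h1.S_odd h.par) hN₁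
    have hp8 := h.par.hp8
    have hr : r ^ 2 % 4 = 3 := by omega
    have : r % 4 = 0 ∨ r % 4 = 1 ∨ r % 4 = 2 ∨ r % 4 = 3 := by omega
    rcases this with h | h | h | h <;> simp [pow_two, Int.mul_emod, h] at hr

end

end Pool.Agent.Helper11
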