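import Pool.Agent.Helper11.Main

/-!
# A prime `3 (mod 4)` at which finitely many points of the quartic lie over `0` or `∞`
-/

namespace Pool.Agent.Helper11

open WeierstrassCurve

section
variable {a p : ℤ}

lemma mod_four_of_jacobi {l : ℕ} (hodd : Odd l) (h : jacobiSym (-1) l = -1) : l % 4 = 3 := by
  rw [jacobiSym.at_neg_one hodd] at h
  have h1 : l % 2 = 1 := Nat.odd_iff.mp hodd
  have h2 : l % 4 = 1 ∨ l % 4 = 3 := by omega
  rcases h2 with h2 | h2
  · rw [ZMod.χ₄_nat_one_mod_four h2] at h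
    norm_num at h
  · exact h2

theorem coherent {g : (E a p).Point} (hg : Gen a p g) {ι : Type*} [Fintype ι] [Nonempty ι]
    (m : ι → ℤ) (hm : ∀ i, m i ≠ 0) :
    ∃ l : ℕ, ∃ _ : Fact l.Prime, l % 4 = 3 ∧
      (∀ i, InH l (m i • (g + g)) ∨ RedT l (m i • (g + g))) ∧ ∃ i, RedT l (m i • (g + g)) := by
  choose k m' hodd hk using fun i => int_two_pow (hm i)
  obtain ⟨i₀, -, hmin⟩ := Finset.exists_min_image Finset.univ k Finset.univ_nonempty
  obtain ⟨s, N, T, sn, hnode⟩ := hg.node (k i₀)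
  obtain ⟨l, hl, hls, hl1⟩ :=
    jacobiSym.eq_neg_one_at_prime_divisor_of_eq_neg_one hnode.symb.neg_one
  have hfact : Fact l.Prime := ⟨hl⟩
  have hlodd : Odd l := Odd.of_dvd_nat hnode.symb.odd hls
  have hls' : (l : ℤ) ∣ s := by rw [hnode.sn_eq]; exact_mod_cast hls
  have hJr := hnode.redT hls'
  have hlp := hnode.not_dvd_p hls'
  have hgood := hnode.par.good
  refine ⟨l, hfact, mod_four_of_jacobi hlodd hl1, fun i => ?_, i₀, ?_⟩
  · rcases (hmin i (Finset.mem_univ i)).eq_or_lt with h | h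
    · right
      rw [hk i, ← h, mul_comm, mul_zsmul]
      exact hJr.odd_smul hgood hlp (hodd i)
    · left
      obtain ⟨d, hd⟩ : ∃ d, k i = k i₀ + (d + 1) := ⟨k i - k i₀ - 1, by omega⟩
      have h1 : InH l ((2 ^ (d + 1) * m' i : ℤ) • ((2 ^ k i₀ : ℤ) • (g + g))) :=
        hJr.even_smul hgood hlp ⟨2 ^ d * m' i, by rw [pow_succ]; ring⟩
      have h2 : (2 ^ (d + 1) * m' i : ℤ) • ((2 ^ k i₀ : ℤ) • (g + g)) = m i • (g + g) := by
        rw [← mul_zsmul, hk i, hd]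
        congr 1
        rw [pow_add 2 (k i₀)]; ring
      rwa [h2] at h1
  · rw [hk i₀, mul_comm, mul_zsmul]
    exact hJr.odd_smul hgood hlp (hodd i₀)

/-- For finitely many rational points of `t² = s⁴ + a s² - p` there is a prime `l ≡ 3 (mod 4)`
dividing the numerator or the denominator of each `s`, and the numerator of at least one. -/
theorem coherent_rat (hpar : Par a p) {u v w : ℤ} (hu : u % 2 = 1) (hv : v % 2 = 1)
    (hw : w ^ 2 = u ^ 4 + a * u ^ 2 * v ^ 2 - p * v ^ 4) {ι : Type*} [Fintype ι] [Nonempty ι]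
    (s t : ι → ℚ) (h : ∀ i, t i ^ 2 = s i ^ 4 + a * s i ^ 2 - p) :
    ∃ l : ℕ, ∃ _ : Fact l.Prime, l % 4 = 3 ∧
      (∀ i, padicNorm l (s i) < 1 ∨ 1 < padicNorm l (s i)) ∧ ∃ i, padicNorm l (s i) < 1 := by
  obtain ⟨g, hg⟩ := exists_gen hpar hu hv hw
  choose m hm0 hm using fun i => exists_mult hg (h i)
  obtain ⟨l, hl, hl3, hall, i₀, hi₀⟩ := coherent hg m hm0
  have key : ∀ i, RedT l (m i • (g + g)) → padicNorm l (s i) < 1 := by
    rintro i ⟨x, y, hxy, hx⟩
    obtain ⟨rfl, -⟩ := hxy.unique (hm i)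
    rw [pow_two, padicNorm.mul] at hx
    have h2 : 0 ≤ padicNorm l (s i) := padicNorm.nonneg _
    nlinarith
  refine ⟨l, hl, hl3, fun i => ?_, i₀, key i₀ hi₀⟩
  rcases hall i with h1 | h1
  · right
    have h2 := h1 _ _ (hm i)
    rw [pow_two, padicNorm.mul] at h2
    have h3 : 0 ≤ padicNorm l (s i) := padicNorm.nonneg _
    nlinarith
  · left; exact key i h1

end

section
variable {l : ℕ} [hl : Fact l.Prime]

lemma one_le_norm_sq_add_one (h3 : l % 4 = 3) (z : ℚ) : 1 ≤ padicNorm l (z ^ 2 + 1) := by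
  by_contra hcon
  push Not at hcon
  have hodd : Odd l := by rw [Nat.odd_iff]; omega
  have hJ : jacobiSym (-1) l = -1 := by
    rw [jacobiSym.at_neg_one hodd, ZMod.χ₄_nat_three_mod_four h3]
  have hd0 : (z.den : ℚ) ≠ 0 := by exact_mod_cast z.den_pos.ne'
  have hden : padicNorm l (z.den : ℚ) ≤ 1 := padicNorm.of_nat _
  have hden0 : 0 ≤ padicNorm l (z.den : ℚ) := padicNorm.nonneg _
  have h1 : padicNorm l (((z.num ^ 2 - (-1) * (z.den : ℤ) ^ 2 : ℤ)) : ℚ) < 1 := by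
    have e : (((z.num ^ 2 - (-1) * (z.den : ℤ) ^ 2 : ℤ)) : ℚ) = (z ^ 2 + 1) * (z.den : ℚ) ^ 2 := by
      have hn : (z.num : ℚ) = z * z.den := by
        rw [eq_comm]; exact Rat.mul_den_eq_num z
      push_cast
      rw [hn]
      ring
    rw [e, padicNorm.mul, pow_two (z.den : ℚ), padicNorm.mul]
    have h4 : padicNorm l (z.den : ℚ) * padicNorm l (z.den : ℚ) ≤ 1 := by nlinarith
    have h5 : 0 ≤ padicNorm l (z ^ 2 + 1) := padicNorm.nonneg _
    nlinarith
  have h2 : (l : ℤ) ∣ z.num ^ 2 - (-1) * (z.den : ℤ) ^ 2 := (padicNorm.int_lt_one_iff _).mp h1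
  obtain ⟨h6, h7⟩ := jacobiSym.prime_dvd_of_eq_neg_one hJ h2
  have hcop : IsCoprime z.num (z.den : ℤ) :=
    Int.isCoprime_iff_gcd_eq_one.mpr (by simpa [Int.gcd] using z.reduced)
  exact (Nat.prime_iff_prime_int.mp hl.out).not_isUnit (hcop.isUnit_of_dvd' h6 h7)

lemma norm_inv_le (h3 : l % 4 = 3) (z : ℚ) : padicNorm l ((1 + z ^ 2)⁻¹) ≤ 1 := by
  have h1 := one_le_norm_sq_add_one h3 z
  rw [add_comm] at h1
  have h2 : padicNorm l ((1 + z ^ 2)⁻¹) = (padicNorm l (1 + z ^ 2))⁻¹ := by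
    rw [← one_div, padicNorm.div, padicNorm.one, one_div]
  rw [h2]
  exact inv_le_one_of_one_le₀ h1

lemma norm_one_add_sq_of_lt {s : ℚ} (h : padicNorm l s < 1) : padicNorm l (1 + s ^ 2) = 1 := by
  have h0 : 0 ≤ padicNorm l s := padicNorm.nonneg _
  have h1 : padicNorm l (s ^ 2) < 1 := by rw [pow_two, padicNorm.mul]; nlinarith
  have h2 : padicNorm l (1 : ℚ) ≠ padicNorm l (s ^ 2) := by
    rw [padicNorm.one]; exact h1.ne'
  rw [padicNorm.add_eq_max_of_ne h2, padicNorm.one]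
  exact max_eq_left h1.le

lemma norm_one_add_sq_of_gt {s : ℚ} (h : 1 < padicNorm l s) :
    padicNorm l (1 + s ^ 2) = padicNorm l s ^ 2 := by
  have h1 : 1 < padicNorm l (s ^ 2) := by rw [pow_two, padicNorm.mul]; nlinarith
  have h2 : padicNorm l (1 : ℚ) ≠ padicNorm l (s ^ 2) := by
    rw [padicNorm.one]; exact h1.ne
  rw [padicNorm.add_eq_max_of_ne h2, padicNorm.one, max_eq_right h1.le, pow_two, padicNorm.mul,
    pow_two]

lemma norm_sigma {s : ℚ} (h : padicNorm l s < 1 ∨ 1 < padicNorm l s) :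
    padicNorm l (s / (1 + s ^ 2)) < 1 := by
  rw [padicNorm.div]
  rcases h with h | h
  · rw [norm_one_add_sq_of_lt h, div_one]; exact h
  · rw [norm_one_add_sq_of_gt h, div_lt_one (by positivity)]
    nlinarith

lemma norm_rho_le {s : ℚ} (h : padicNorm l s < 1 ∨ 1 < padicNorm l s) :
    padicNorm l (s ^ 2 / (1 + s ^ 2)) ≤ 1 := by
  rw [padicNorm.div]
  rcases h with h | h
  · rw [norm_one_add_sq_of_lt h, div_one, pow_two, padicNorm.mul]
    have h0 : 0 ≤ padicNorm l s := padicNorm.nonneg _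
    nlinarith
  · rw [norm_one_add_sq_of_gt h, pow_two, padicNorm.mul, ← pow_two, div_self (by positivity)]

lemma norm_rho_lt {s : ℚ} (h : padicNorm l s < 1) : padicNorm l (s ^ 2 / (1 + s ^ 2)) < 1 := by
  rw [padicNorm.div, norm_one_add_sq_of_lt h, div_one, pow_two, padicNorm.mul]
  have h0 : 0 ≤ padicNorm l s := padicNorm.nonneg _
  nlinarith

lemma norm_prod {ι : Type*} (S : Finset ι) (x : ι → ℚ) :
    padicNorm l (∏ i ∈ S, x i) = ∏ i ∈ S, padicNorm l (x i) := by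
  classical
  induction S using Finset.induction_on with
  | empty => simp
  | insert i S hi ih => rw [Finset.prod_insert hi, Finset.prod_insert hi, padicNorm.mul, ih]

lemma norm_sum_lt {ι : Type*} (S : Finset ι) (x : ι → ℚ) (h : ∀ i ∈ S, padicNorm l (x i) < 1) :
    padicNorm l (∑ i ∈ S, x i) < 1 := by
  classical
  induction S using Finset.induction_on with
  | empty => simp
  | insert i S hi ih =>
    rw [Finset.sum_insert hi]
    refine lt_of_le_of_lt padicNorm.nonarchimedean (max_lt ?_ ?_)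
    · exact h i (Finset.mem_insert_self i S)
    · exact ih fun j hj => h j (Finset.mem_insert_of_mem hj)

end

/-- The arithmetic form of the theorem on covers of powers. -/
theorem arith_powers {a p : ℤ} (hpar : Par a p) {u v w : ℤ} (hu : u % 2 = 1) (hv : v % 2 = 1)
    (hw : w ^ 2 = u ^ 4 + a * u ^ 2 * v ^ 2 - p * v ^ 4) {ι : Type*} [Fintype ι] [Nonempty ι]
    (s t : ι → ℚ) (h : ∀ i, t i ^ 2 = s i ^ 4 + a * s i ^ 2 - p) (κ : ι → ℚ) (κ₀ z : ℚ)
    (hκ : ∀ l : ℕ, ∀ _ : Fact l.Prime, l % 4 = 3 → (∀ i, padicNorm l (κ i) ≤ 1) ∧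
      padicNorm l κ₀ ≤ 1)
    (hz : z ^ 2 + 1 = ∑ i, κ i * (s i / (1 + s i ^ 2)) + κ₀ * ∏ i, (s i ^ 2 / (1 + s i ^ 2))) :
    False := by
  classical
  obtain ⟨l, hl, hl3, hall, i₀, hi₀⟩ := coherent_rat hpar hu hv hw s t h
  obtain ⟨hκ1, hκ2⟩ := hκ l hl hl3
  have h1 := one_le_norm_sq_add_one hl3 z
  rw [hz] at h1
  have h2 : padicNorm l (∑ i, κ i * (s i / (1 + s i ^ 2))) < 1 := by
    apply norm_sum_lt
    intro i _
    rw [padicNorm.mul]
    have h3 := norm_sigma (hall i)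
    have h4 : 0 ≤ padicNorm l (κ i) := padicNorm.nonneg _
    have h5 : 0 ≤ padicNorm l (s i / (1 + s i ^ 2)) := padicNorm.nonneg _
    have h6 := hκ1 i
    nlinarith
  have h3 : padicNorm l (κ₀ * ∏ i, (s i ^ 2 / (1 + s i ^ 2))) < 1 := by
    rw [padicNorm.mul, norm_prod]
    have h4 : ∏ i, padicNorm l (s i ^ 2 / (1 + s i ^ 2)) < 1 := by
      rw [← Finset.mul_prod_erase Finset.univ _ (Finset.mem_univ i₀)]
      have h5 : ∏ i ∈ Finset.univ.erase i₀, padicNorm l (s i ^ 2 / (1 + s i ^ 2)) ≤ 1 :=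
        Finset.prod_le_one (fun i _ => padicNorm.nonneg _) (fun i _ => norm_rho_le (hall i))
      have h6 := norm_rho_lt hi₀
      have h7 : 0 ≤ ∏ i ∈ Finset.univ.erase i₀, padicNorm l (s i ^ 2 / (1 + s i ^ 2)) :=
        Finset.prod_nonneg fun i _ => padicNorm.nonneg _
      have h8 : 0 ≤ padicNorm l (s i₀ ^ 2 / (1 + s i₀ ^ 2)) := padicNorm.nonneg _
      nlinarith
    have h5 : 0 ≤ padicNorm l κ₀ := padicNorm.nonneg _
    have h6 : 0 ≤ ∏ i, padicNorm l (s i ^ 2 / (1 + s i ^ 2)) :=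
      Finset.prod_nonneg fun i _ => padicNorm.nonneg _
    nlinarith
  have h4 := padicNorm.nonarchimedean (p := l) (q := ∑ i, κ i * (s i / (1 + s i ^ 2)))
    (r := κ₀ * ∏ i, (s i ^ 2 / (1 + s i ^ 2)))
  have h5 := max_lt h2 h3
  linarith

end Pool.Agent.Helper11
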