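import Mathlib

/-!
# The curve `y² = x³ + a x² - p x` over `ℚ`: coordinates and addition formulas
-/

namespace Pool.Agent.Helper11

open WeierstrassCurve

/-- The Weierstrass curve `y² = x³ + a x² - p x` over `ℚ`. -/
def E (a p : ℤ) : WeierstrassCurve.Affine ℚ := ⟨0, a, 0, -p, 0⟩

/-- `P` is the affine point with coordinates `x, y`. -/
def At {a p : ℤ} (P : (E a p).Point) (x y : ℚ) : Prop :=
  ∃ h : (E a p).Nonsingular x y, P = .some x y h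

/-- The condition `Δ ≠ 0`. -/
def Good (a p : ℤ) : Prop := p ≠ 0 ∧ a ^ 2 + 4 * p ≠ 0

section
variable {a p : ℤ}

lemma disc_ne (hg : Good a p) : (E a p).Δ ≠ 0 := by
  obtain ⟨h1, h2⟩ := hg
  have e : (E a p).Δ = 16 * (p : ℚ) ^ 2 * ((a : ℚ) ^ 2 + 4 * p) := by
    simp only [E, WeierstrassCurve.Δ, WeierstrassCurve.b₂, WeierstrassCurve.b₄,
      WeierstrassCurve.b₆, WeierstrassCurve.b₈]
    ring
  rw [e]
  have h1' : (p : ℚ) ≠ 0 := by exact_mod_cast h1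
  have h2' : ((a : ℚ) ^ 2 + 4 * p) ≠ 0 := by exact_mod_cast h2
  positivity

lemma eqn_iff (x y : ℚ) : (E a p).Equation x y ↔ y ^ 2 = x ^ 3 + a * x ^ 2 - p * x := by
  rw [WeierstrassCurve.Affine.equation_iff]
  simp only [E]
  constructor <;> intro h <;> linarith

lemma At.eqn {P : (E a p).Point} {x y : ℚ} (h : At P x y) :
    y ^ 2 = x ^ 3 + a * x ^ 2 - p * x := by
  obtain ⟨h, -⟩ := h
  exact (eqn_iff x y).mp h.1

lemma exists_at (hg : Good a p) {x y : ℚ} (h : y ^ 2 = x ^ 3 + a * x ^ 2 - p * x) :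
    ∃ P : (E a p).Point, At P x y :=
  ⟨.some x y (((E a p).equation_iff_nonsingular_of_Δ_ne_zero (disc_ne hg)).mp
    ((eqn_iff x y).mpr h)), _, rfl⟩

lemma zero_or (P : (E a p).Point) : P = 0 ∨ ∃ x y, At P x y := by
  rcases P with _ | ⟨x, y, h⟩
  · left; rfl
  · right; exact ⟨x, y, h, rfl⟩

lemma At.ne_zero {P : (E a p).Point} {x y : ℚ} (h : At P x y) : P ≠ 0 := by
  obtain ⟨h, rfl⟩ := h
  exact Affine.Point.some_ne_zero h

lemma At.unique {P : (E a p).Point} {x y x' y' : ℚ} (h : At P x y) (h' : At P x' y') :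
    x = x' ∧ y = y' := by
  obtain ⟨h, rfl⟩ := h
  obtain ⟨h', e⟩ := h'
  injection e with e1 e2
  exact ⟨e1, e2⟩

lemma At.eq {P Q : (E a p).Point} {x y : ℚ} (h : At P x y) (h' : At Q x y) : P = Q := by
  obtain ⟨h, rfl⟩ := h
  obtain ⟨h', rfl⟩ := h'
  rfl

lemma At.neg {P : (E a p).Point} {x y : ℚ} (h : At P x y) : At (-P) x (-y) := by
  obtain ⟨h, rfl⟩ := h
  rw [Affine.Point.neg_some]
  have e : (E a p).negY x y = -y := by
    simp [Affine.negY, E]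
  generalize hn : (E a p).nonsingular_neg x y = hn'
  clear hn
  revert hn'
  rw [e]
  intro hn'
  exact ⟨hn'.mpr h, rfl⟩

lemma At.same_x {P Q : (E a p).Point} {x y y' : ℚ} (h : At P x y) (h' : At Q x y') :
    P = Q ∨ P = -Q := by
  have e1 := h.eqn
  have e2 := h'.eqn
  have : (y - y') * (y + y') = 0 := by linear_combination e1 - e2
  rcases mul_eq_zero.mp this with h3 | h3
  · left
    have : y = y' := by linarith
    subst this
    exact h.eq h'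
  · right
    have : y' = -y := by linarith
    subst this
    have := h'.neg
    rw [neg_neg] at this
    exact h.eq this

lemma At.add {P Q : (E a p).Point} {x₁ y₁ x₂ y₂ : ℚ} (h₁ : At P x₁ y₁) (h₂ : At Q x₂ y₂)
    (hx : x₁ ≠ x₂) :
    At (P + Q) (((y₁ - y₂) / (x₁ - x₂)) ^ 2 - a - x₁ - x₂)
      (-((y₁ - y₂) / (x₁ - x₂) * (((y₁ - y₂) / (x₁ - x₂)) ^ 2 - a - x₁ - x₂ - x₁) + y₁)) := by
  obtain ⟨h₁, rfl⟩ := h₁
  obtain ⟨h₂, rfl⟩ := h₂
  rw [Affine.Point.add_of_X_ne hx]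
  have hs : (E a p).slope x₁ x₂ y₁ y₂ = (y₁ - y₂) / (x₁ - x₂) := Affine.slope_of_X_ne hx
  have e1 : (E a p).addX x₁ x₂ ((E a p).slope x₁ x₂ y₁ y₂) =
      ((y₁ - y₂) / (x₁ - x₂)) ^ 2 - a - x₁ - x₂ := by
    rw [hs, Affine.addX]; simp [E]
  have e2 : (E a p).addY x₁ x₂ y₁ ((E a p).slope x₁ x₂ y₁ y₂) =
      (-((y₁ - y₂) / (x₁ - x₂) * (((y₁ - y₂) / (x₁ - x₂)) ^ 2 - a - x₁ - x₂ - x₁) + y₁)) := by
    rw [hs, Affine.addY, Affine.negAddY, Affine.addX, Affine.negY]; simp [E]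
  generalize hn : (Affine.nonsingular_add h₁ h₂ fun hxy => hx hxy.left) = hn'
  clear hn
  revert hn'
  rw [e1, e2]
  intro hn'
  exact ⟨hn', rfl⟩

lemma At.dbl {P : (E a p).Point} {x y : ℚ} (h : At P x y) (hy : y ≠ 0) :
    At (P + P) (((x ^ 2 + p) / (2 * y)) ^ 2)
      (-((3 * x ^ 2 + 2 * a * x - p) / (2 * y) * (((x ^ 2 + p) / (2 * y)) ^ 2 - x) + y)) := by
  have heq := h.eqn
  obtain ⟨h, rfl⟩ := h
  have hy' : y ≠ (E a p).negY x y := by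
    simp only [Affine.negY, E]
    intro h0
    apply hy
    linarith
  rw [Affine.Point.add_self_of_Y_ne hy']
  have hs : (E a p).slope x x y y = (3 * x ^ 2 + 2 * a * x - p) / (2 * y) := by
    rw [Affine.slope_of_Y_ne rfl hy']
    simp only [Affine.negY, E]
    congr 1
    · ring
    · ring
  have hxx : ((3 * x ^ 2 + 2 * a * x - p) / (2 * y)) ^ 2 - a - x - x =
      ((x ^ 2 + p) / (2 * y)) ^ 2 := by
    field_simp
    linear_combination (-4 * (a + 2 * x)) * heq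
  have e1 : (E a p).addX x x ((E a p).slope x x y y) = ((x ^ 2 + p) / (2 * y)) ^ 2 := by
    rw [hs, ← hxx, Affine.addX]; simp [E]
  have e2 : (E a p).addY x x y ((E a p).slope x x y y) =
      (-((3 * x ^ 2 + 2 * a * x - p) / (2 * y) * (((x ^ 2 + p) / (2 * y)) ^ 2 - x) + y)) := by
    rw [Affine.addY, Affine.negAddY, e1, hs, Affine.negY]; simp [E]
  generalize hn : (Affine.nonsingular_add h h fun hxy => hy' hxy.right) = hn'
  clear hn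
  revert hn'
  rw [e1, e2]
  intro hn'
  exact ⟨hn', rfl⟩

lemma At.dbl_zero {P : (E a p).Point} {x : ℚ} (h : At P x 0) : P + P = 0 := by
  obtain ⟨h, rfl⟩ := h
  apply Affine.Point.add_self_of_Y_eq
  simp [Affine.negY, E]

/-- Existence form of the doubling formula. -/
lemma At.dbl' {P : (E a p).Point} {x y : ℚ} (h : At P x y) (hy : y ≠ 0) :
    ∃ X Y, At (P + P) X Y ∧ X * (2 * y) ^ 2 = (x ^ 2 + p) ^ 2 := by
  refine ⟨_, _, h.dbl hy, ?_⟩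
  field_simp

/-- Sum and difference of two points with distinct abscissas. -/
lemma At.add_sub {P Q : (E a p).Point} {x₁ y₁ x₂ y₂ : ℚ} (h₁ : At P x₁ y₁) (h₂ : At Q x₂ y₂)
    (hx : x₁ ≠ x₂) :
    ∃ X Y X' Y', At (P + Q) X Y ∧ At (P - Q) X' Y' ∧
      X * X' * (x₁ - x₂) ^ 2 = (x₁ * x₂ + p) ^ 2 ∧
      (X + X') * (x₁ - x₂) ^ 2 = 2 * ((x₁ * x₂ - p) * (x₁ + x₂) + 2 * a * x₁ * x₂) ∧
      (X - X') * (x₁ - x₂) ^ 2 = -4 * y₁ * y₂ := by
  have e₁ := h₁.eqn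
  have e₂ := h₂.eqn
  have h3 := h₁.add h₂ hx
  have h4 := h₁.add h₂.neg hx
  rw [← sub_eq_add_neg] at h4
  have hne : x₁ - x₂ ≠ 0 := sub_ne_zero.mpr hx
  refine ⟨_, _, _, _, h3, h4, ?_, ?_, ?_⟩
  · field_simp
    have : (x₁ - x₂) ^ 2 * (x₁ * x₂ + p) ^ 2 =
      ((y₁ - y₂) ^ 2 - (a + x₁ + x₂) * (x₁ - x₂) ^ 2) *
      ((y₁ + y₂) ^ 2 - (a + x₁ + x₂) * (x₁ - x₂) ^ 2) := by
      have e3 : (y₁ - y₂) ^ 2 * (y₁ + y₂) ^ 2 = (y₁ ^ 2 - y₂ ^ 2) ^ 2 := by ring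
      have e4 : ((y₁ - y₂) ^ 2 - (a + x₁ + x₂) * (x₁ - x₂) ^ 2) *
        ((y₁ + y₂) ^ 2 - (a + x₁ + x₂) * (x₁ - x₂) ^ 2) =
        (y₁ ^ 2 - y₂ ^ 2) ^ 2 - (a + x₁ + x₂) * (x₁ - x₂) ^ 2 * (2 * (y₁ ^ 2 + y₂ ^ 2)) +
          (a + x₁ + x₂) ^ 2 * (x₁ - x₂) ^ 4 := by ring
      rw [e4, e₁, e₂]
      ring
    linear_combination -this
  · field_simp
    linear_combination 2 * e₁ + 2 * e₂
  · field_simp
    ring

lemma At.sum_prod {P Q : (E a p).Point} {x₁ y₁ x₂ y₂ : ℚ} (h₁ : At P x₁ y₁) (h₂ : At Q x₂ y₂)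
    (hx : x₁ ≠ x₂) :
    ∃ X Y, At (P + Q) X Y ∧ X * x₁ * x₂ * (x₁ - x₂) ^ 2 = (y₁ * x₂ - y₂ * x₁) ^ 2 := by
  have e₁ := h₁.eqn
  have e₂ := h₂.eqn
  have h3 := h₁.add h₂ hx
  have hne : x₁ - x₂ ≠ 0 := sub_ne_zero.mpr hx
  refine ⟨_, _, h3, ?_⟩
  field_simp
  linear_combination (x₁ * x₂ - x₂ ^ 2) * e₁ + (x₁ * x₂ - x₁ ^ 2) * e₂

/-- The point `T = (0,0)`. -/
def T (hg : Good a p) : (E a p).Point :=
  .some 0 0 (((E a p).equation_iff_nonsingular_of_Δ_ne_zero (disc_ne hg)).mp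
    ((eqn_iff 0 0).mpr (by norm_num)))

lemma T_at (hg : Good a p) : At (T hg) 0 0 := ⟨_, rfl⟩

lemma T_add_T (hg : Good a p) : T hg + T hg = 0 := (T_at hg).dbl_zero

lemma neg_T (hg : Good a p) : - T hg = T hg := by
  rw [neg_eq_iff_add_eq_zero]; exact T_add_T hg

lemma At.add_T (hg : Good a p) {P : (E a p).Point} {x y : ℚ} (h : At P x y) (hx : x ≠ 0) :
    ∃ y', At (P + T hg) (-p / x) y' := by
  have h3 := h.add (T_at hg) hx
  have e := h.eqn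
  have h4 : ((y - 0) / (x - 0)) ^ 2 - a - x - 0 = -p / x := by
    rw [sub_zero, sub_zero, sub_zero, div_pow, e]
    field_simp
    ring
  rw [h4] at h3
  exact ⟨_, h3⟩

end

end Pool.Agent.Helper11
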