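import Pool.Agent.Helper11.Curve

/-!
# Two-descent on `y² = x³ + a x² - p x`
-/

namespace Pool.Agent.Helper11

lemma int_of_sq {r : ℚ} {n : ℤ} (h : r ^ 2 = n) : ∃ m : ℤ, r = m := by
  have h1 : (r ^ 2).den = 1 := by rw [h]; exact Rat.den_intCast n
  rw [Rat.den_pow] at h1
  have h2 : r.den = 1 := by
    rcases Nat.pow_eq_one.mp h1 with h | h
    · exact h
    · omega
  exact ⟨r.num, (Rat.coe_int_num_of_den_eq_one h2).symm⟩

/-- Square classes of the abscissas. -/
lemma sq_class {α β : ℤ} (hβ : (β.natAbs).Prime) {x y : ℚ} (hx : x ≠ 0)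
    (h : y ^ 2 = x * (x ^ 2 + α * x + β)) :
    ∃ s : ℚ, s ≠ 0 ∧ (x = s ^ 2 ∨ x = -s ^ 2 ∨ x = β * s ^ 2 ∨ x = -(β * s ^ 2)) := by
  have hβp : Prime β := Int.prime_iff_natAbs_prime.mpr hβ
  set A : ℤ := x.num with hA
  set D : ℤ := (x.den : ℤ) with hD
  have hD0 : 0 < D := by rw [hD]; exact_mod_cast x.den_pos
  have hDq : (D : ℚ) ≠ 0 := by exact_mod_cast hD0.ne'
  have hxe : x = A / D := by rw [hA, hD]; push_cast; exact (Rat.num_div_den x).symm
  have hA0 : A ≠ 0 := by rw [hA]; exact Rat.num_ne_zero.mpr hx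
  have hAD : IsCoprime A D := by
    rw [hA, hD]
    exact Int.isCoprime_iff_gcd_eq_one.mpr (by simpa [Int.gcd] using x.reduced)
  have h1 : (y * D ^ 2) ^ 2 = ((D * (A * (A ^ 2 + α * A * D + β * D ^ 2)) : ℤ) : ℚ) := by
    push_cast
    rw [mul_pow, h, hxe]
    field_simp
  obtain ⟨Y, hY⟩ := int_of_sq h1
  have h2 : D * (A * (A ^ 2 + α * A * D + β * D ^ 2)) = Y ^ 2 := by
    have := h1
    rw [hY] at this
    exact_mod_cast this.symm
  have hcop1 : IsCoprime D (A * (A ^ 2 + α * A * D + β * D ^ 2)) := by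
    apply IsCoprime.mul_right hAD.symm
    have : A ^ 2 + α * A * D + β * D ^ 2 = A ^ 2 + D * (α * A + β * D) := by ring
    rw [this]
    exact (hAD.symm.pow_right).add_mul_left_right _
  obtain ⟨B, hB⟩ := Int.sq_of_gcd_eq_one (Int.isCoprime_iff_gcd_eq_one.mp hcop1) h2
  have hB2 : D = B ^ 2 := by
    rcases hB with h | h
    · exact h
    · nlinarith [sq_nonneg B]
  have hB0 : B ≠ 0 := by rintro rfl; simp at hB2; omega
  have h2' : (A * (A ^ 2 + α * A * D + β * D ^ 2)) * D = Y ^ 2 := by rw [mul_comm]; exact h2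
  obtain ⟨C, hC⟩ := Int.sq_of_gcd_eq_one (Int.isCoprime_iff_gcd_eq_one.mp hcop1.symm) h2'
  have hC2 : A * (A ^ 2 + α * A * D + β * D ^ 2) = C ^ 2 := by
    rcases hC with h | h
    · exact h
    · have h5 : A * (A ^ 2 + α * A * D + β * D ^ 2) = 0 := by nlinarith [sq_nonneg C, sq_nonneg Y]
      have h6 : C ^ 2 = 0 := by omega
      rw [h5, h6]
  have hBq : (B : ℚ) ≠ 0 := by exact_mod_cast hB0
  have fin : ∀ (k : ℤ) (c : ℤ), A = k * c ^ 2 → x = k * ((c : ℚ) / B) ^ 2 := by
    intro k c hk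
    rw [hxe, hB2, hk]
    push_cast
    field_simp
  by_cases hdvd : β ∣ A
  · obtain ⟨A', hA'⟩ := hdvd
    have h3 : β ^ 2 * (A' * (β * A' ^ 2 + α * A' * D + D ^ 2)) = C ^ 2 := by
      rw [← hC2, hA']; ring
    have h4 : β ∣ C := by
      have : β ∣ C ^ 2 := ⟨β * (A' * (β * A' ^ 2 + α * A' * D + D ^ 2)), by rw [← h3]; ring⟩
      exact hβp.dvd_of_dvd_pow this
    obtain ⟨C', hC'⟩ := h4
    have h5 : A' * (β * A' ^ 2 + α * A' * D + D ^ 2) = C' ^ 2 := by
      have : β ^ 2 * (A' * (β * A' ^ 2 + α * A' * D + D ^ 2)) = β ^ 2 * C' ^ 2 := by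
        rw [h3, hC']; ring
      exact mul_left_cancel₀ (pow_ne_zero 2 hβp.ne_zero) this
    have hA'D : IsCoprime A' D := by
      rw [hA'] at hAD
      exact hAD.of_mul_left_right
    have hcop : IsCoprime A' (β * A' ^ 2 + α * A' * D + D ^ 2) := by
      have : β * A' ^ 2 + α * A' * D + D ^ 2 = D ^ 2 + A' * (β * A' + α * D) := by ring
      rw [this]
      exact (hA'D.pow_right).add_mul_left_right _
    obtain ⟨c, hc⟩ := Int.sq_of_gcd_eq_one (Int.isCoprime_iff_gcd_eq_one.mp hcop) h5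
    have hc0 : c ≠ 0 := by
      rintro rfl
      apply hA0
      rw [hA']
      rcases hc with h | h <;> simp [h]
    refine ⟨(c : ℚ) / B, div_ne_zero (by exact_mod_cast hc0) hBq, ?_⟩
    rcases hc with h | h
    · right; right; left
      exact fin β c (by rw [hA', h])
    · right; right; right
      have := fin (-β) c (by rw [hA', h]; ring)
      rw [this]; push_cast; ring
  · have hcop : IsCoprime A (A ^ 2 + α * A * D + β * D ^ 2) := by
      have h6 : IsCoprime A β := by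
        rw [isCoprime_comm]
        exact (Irreducible.coprime_iff_not_dvd hβp.irreducible).mpr hdvd
      have : A ^ 2 + α * A * D + β * D ^ 2 = β * D ^ 2 + A * (A + α * D) := by ring
      rw [this]
      exact (h6.mul_right (hAD.pow_right)).add_mul_left_right _
    obtain ⟨c, hc⟩ := Int.sq_of_gcd_eq_one (Int.isCoprime_iff_gcd_eq_one.mp hcop) hC2
    have hc0 : c ≠ 0 := by
      rintro rfl
      apply hA0
      rcases hc with h | h <;> simp [h]
    refine ⟨(c : ℚ) / B, div_ne_zero (by exact_mod_cast hc0) hBq, ?_⟩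
    rcases hc with h | h
    · left
      have := fin 1 c (by rw [h]; ring)
      rw [this]; push_cast; ring
    · right; left
      have := fin (-1) c (by rw [h]; ring)
      rw [this]; push_cast; ring

section
variable {a p : ℤ}

/-- A point whose abscissa is a non-zero square is divisible by two. -/
lemma half (hg : Good a p) (hp0 : 0 < p) (hq : ((a ^ 2 + 4 * p).natAbs).Prime)
    {P : (E a p).Point} {s y : ℚ} (hs : s ≠ 0) (h : At P (s ^ 2) y) :
    ∃ R : (E a p).Point, R + R = P := by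
  have heq := h.eqn
  set t : ℚ := y / s with ht
  have hyt : y = s * t := by rw [ht]; field_simp
  have ht2 : t ^ 2 = s ^ 4 + a * s ^ 2 - p := by
    rw [ht, div_pow, heq]; field_simp
  have hp0q : (0 : ℚ) < p := by exact_mod_cast hp0
  set q : ℤ := a ^ 2 + 4 * p with hqdef
  have hqq : (q : ℚ) = a ^ 2 + 4 * p := by rw [hqdef]; push_cast; ring
  have hq0 : (0 : ℚ) < q := by rw [hqq]; positivity
  -- the key step
  have key : ∀ t : ℚ, t ^ 2 = s ^ 4 + a * s ^ 2 - p → (∃ m : ℚ, m ≠ 0 ∧ 2 * s ^ 2 + a - 2 * t = m ^ 2) →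
      ∃ (R : (E a p).Point) (y' : ℚ), At (R + R) (s ^ 2) y' := by
    rintro t ht2 ⟨m, hm, hmt⟩
    have e1 : 4 * s ^ 2 * m ^ 2 = (m ^ 2 - a) ^ 2 + 4 * p := by
      rw [← hmt]; linear_combination (-4 : ℚ) * ht2
    set v : ℚ := (2 * s * m - m ^ 2 + a) / 2 with hv
    have e2 : v * (v + m ^ 2 - a) = p := by
      rw [hv]; linear_combination e1 / 4
    have hv0 : v ≠ 0 := by
      intro h0; rw [h0, zero_mul] at e2; linarith
    have e3 : (m * v) ^ 2 = (-v) ^ 3 + a * (-v) ^ 2 - p * (-v) := by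
      linear_combination v * e2
    obtain ⟨R, hR⟩ := exists_at hg e3
    have hmv : m * v ≠ 0 := mul_ne_zero hm hv0
    obtain hd := hR.dbl hmv
    have e4 : (((-v) ^ 2 + p) / (2 * (m * v))) = s := by
      rw [div_eq_iff (by positivity)]
      have : 2 * v = 2 * s * m - m ^ 2 + a := by rw [hv]; ring
      linear_combination -e2 + v * this
    rw [e4] at hd
    exact ⟨R, _, hd⟩
  have fin : (∃ (R : (E a p).Point) (y' : ℚ), At (R + R) (s ^ 2) y') → ∃ R : (E a p).Point, R + R = P := by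
    rintro ⟨R, y', hR⟩
    rcases hR.same_x h with h1 | h1
    · exact ⟨R, h1⟩
    · refine ⟨-R, ?_⟩
      rw [← neg_add, h1, neg_neg]
  apply fin
  set u : ℚ := 2 * s ^ 2 + a - 2 * t with hu
  set u' : ℚ := 2 * s ^ 2 + a + 2 * t with hu'
  have huu : u * u' = q := by
    rw [hu, hu', hqq]; linear_combination (-4 : ℚ) * ht2
  have hu0 : u ≠ 0 := by intro h0; rw [h0, zero_mul] at huu; linarith
  have hu'0 : u' ≠ 0 := by intro h0; rw [h0, mul_zero] at huu; linarith
  have e5 : (2 * s * u) ^ 2 = u * (u ^ 2 + ((-2 * a : ℤ) : ℚ) * u + q) := by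
    push_cast
    rw [← huu, hu, hu']; ring
  have hupos : 0 < u := by
    have h1 : 0 < u ^ 2 + ((-2 * a : ℤ) : ℚ) * u + q := by
      push_cast
      rw [hqq]
      nlinarith [sq_nonneg (u - a)]
    have h2 : 0 < (2 * s * u) ^ 2 := by positivity
    rw [e5] at h2
    exact (pos_iff_pos_of_mul_pos h2).mpr h1
  obtain ⟨m, hm, hcl⟩ := sq_class hq hu0 e5
  rcases hcl with h1 | h1 | h1 | h1
  · exact key t ht2 ⟨m, hm, h1⟩
  · exfalso
    have : 0 < m ^ 2 := by positivity
    linarith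
  · apply key (-t) (by rw [neg_sq]; exact ht2) ⟨1 / m, by positivity, ?_⟩
    have h2 : u' = q / u := by field_simp; linarith
    have h3 : 2 * s ^ 2 + a - 2 * (-t) = u' := by rw [hu']; ring
    rw [h3, h2, h1]
    have : (q : ℚ) ≠ 0 := hq0.ne'
    field_simp
  · exfalso
    have : 0 < q * m ^ 2 := by positivity
    linarith

end

end Pool.Agent.Helper11
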