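import Pool.Agent.Helper11.Height

/-!
# Finite generation of `E(ℚ)`: doubling, Northcott property, weak Mordell-Weil
-/

namespace Pool.Agent.Helper11

open WeierstrassCurve

section
variable {a p : ℤ}

lemma y_zero_x (hpar : Par a p) {P : (E a p).Point} {x : ℚ} (h : At P x 0) : x = 0 := by
  by_contra hx
  have e := h.eqn
  have e1 : x ^ 2 + a * x - p = 0 := by
    have : x * (x ^ 2 + a * x - p) = 0 := by linear_combination -e
    rcases mul_eq_zero.mp this with h1 | h1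
    · exact absurd h1 hx
    · exact h1
  have e2 : (2 * x + a) ^ 2 = ((a ^ 2 + 4 * p : ℤ) : ℚ) := by
    push_cast; linear_combination 4 * e1
  obtain ⟨m, hm⟩ := int_of_sq e2
  have e3 : m ^ 2 = a ^ 2 + 4 * p := by
    rw [hm] at e2
    exact_mod_cast e2
  have hq := hpar.primeq
  rw [← e3] at hq
  have h4 : m * m = m ^ 2 := by ring
  rcases hq.irreducible.isUnit_or_isUnit h4.symm with h5 | h5
  all_goals
    have h6 : IsUnit (m ^ 2) := h5.pow 2
    exact hq.not_isUnit h6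

lemma hP_dbl (hpar : Par a p) (P : (E a p).Point) :
    (hP P) ^ 4 ≤ ((4 * p * (a ^ 2 + 4 * p)).natAbs) ^ 2 * hP (P + P) := by
  have hq0 : 0 < a ^ 2 + 4 * p := by have := hpar.hp0; positivity
  have hK0 : 0 < (4 * p * (a ^ 2 + 4 * p)).natAbs := by
    have := hpar.hp0
    apply Int.natAbs_pos.mpr
    positivity
  have hK1 : 1 ≤ ((4 * p * (a ^ 2 + 4 * p)).natAbs) ^ 2 := Nat.one_le_pow _ _ hK0
  rcases zero_or P with rfl | ⟨x, y, hx⟩
  · rw [add_zero, hP_zero]; omega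
  by_cases hy : y = 0
  · subst hy
    have := y_zero_x hpar hx
    subst this
    rw [hx.dbl_zero, hx.hP, hP_zero]
    have : hq 0 = 1 := by simp [hq]
    rw [this]; omega
  obtain ⟨X, Y', hX, hXe⟩ := hx.dbl' hy
  obtain ⟨A, D, Y, hD, hAD, hxA, hyY, hY2, hA, hDle, hmax⟩ := hx.int_data
  rw [hX.hP, hx.hP]
  have hDq : (D : ℚ) ≠ 0 := by exact_mod_cast hD.ne'
  have hp0 := hpar.hp0
  obtain ⟨r, hr⟩ : ∃ r, r = A ^ 2 + p * D ^ 2 := ⟨_, rfl⟩
  obtain ⟨M, hM⟩ : ∃ M, M = 4 * A * D * (A ^ 2 + a * A * D - p * D ^ 2) := ⟨_, rfl⟩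
  have hMY : M = 4 * Y ^ 2 := by rw [hM, hY2]; ring
  have e1 : X * (4 * (Y : ℚ) ^ 2) = ((r ^ 2 : ℤ) : ℚ) := by
    have : X * (2 * y) ^ 2 * D ^ 4 = (x ^ 2 + p) ^ 2 * D ^ 4 := by rw [hXe]
    rw [hxA, hyY] at this
    have e2 : X * (2 * ((Y : ℚ) / D ^ 2)) ^ 2 * D ^ 4 = X * (4 * (Y : ℚ) ^ 2) := by
      field_simp; ring
    have e3 : (((A : ℚ) / D) ^ 2 + p) ^ 2 * D ^ 4 = ((r ^ 2 : ℤ) : ℚ) := by
      rw [hr]; push_cast; field_simp
    rw [← e2, ← e3]; exact this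
  have hd0 : 0 < (X.den : ℤ) := by exact_mod_cast X.den_pos
  have hdq : (X.den : ℚ) ≠ 0 := by exact_mod_cast hd0.ne'
  have e2 : X.num * M = X.den * r ^ 2 := by
    have h1 : (X.num : ℚ) / X.den * (4 * (Y : ℚ) ^ 2) = ((r ^ 2 : ℤ) : ℚ) := by
      rw [Rat.num_div_den]; exact e1
    have h2 : ((X.num * M : ℤ) : ℚ) = ((X.den * r ^ 2 : ℤ) : ℚ) := by
      rw [hMY]
      push_cast
      push_cast at h1
      rw [div_mul_eq_mul_div, div_eq_iff hdq] at h1
      linear_combination h1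
    exact_mod_cast h2
  have hcop : IsCoprime X.num (X.den : ℤ) :=
    Int.isCoprime_iff_gcd_eq_one.mpr (by simpa [Int.gcd] using X.reduced)
  have hdM : (X.den : ℤ) ∣ M := by
    apply hcop.symm.dvd_of_dvd_mul_left
    rw [e2]; exact dvd_mul_right _ _
  obtain ⟨m', hm'⟩ := hdM
  have e3 : r ^ 2 = X.num * m' := by
    have : (X.den : ℤ) * (X.num * m') = X.den * r ^ 2 := by rw [← e2, hm']; ring
    exact (mul_left_cancel₀ hd0.ne' this).symm
  have key : (2 * A - a * D) * M - r * (D * (8 * A ^ 2 + 4 * a * A * D - (16 * p + 4 * a ^ 2) * D ^ 2)) =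
      4 * p * (a ^ 2 + 4 * p) * D ^ 5 := by
    rw [hM, hr]; ring
  have hdvd1 : m' ∣ (4 * p * (a ^ 2 + 4 * p)) ^ 2 * D ^ 10 := by
    obtain ⟨w, hw⟩ : ∃ w, w = D * (8 * A ^ 2 + 4 * a * A * D - (16 * p + 4 * a ^ 2) * D ^ 2) := ⟨_, rfl⟩
    rw [← hw] at key
    have : (4 * p * (a ^ 2 + 4 * p)) ^ 2 * D ^ 10 = m' * (X.den * ((2 * A - a * D) ^ 2 * M -
        2 * (2 * A - a * D) * r * w) + X.num * w ^ 2) := by
      calc (4 * p * (a ^ 2 + 4 * p)) ^ 2 * D ^ 10 = (4 * p * (a ^ 2 + 4 * p) * D ^ 5) ^ 2 := by ring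
        _ = ((2 * A - a * D) * M - r * w) ^ 2 := by rw [key]
        _ = M * ((2 * A - a * D) ^ 2 * M - 2 * (2 * A - a * D) * r * w) + r ^ 2 * w ^ 2 := by ring
        _ = (X.den * m') * ((2 * A - a * D) ^ 2 * M - 2 * (2 * A - a * D) * r * w) +
            (X.num * m') * w ^ 2 := by rw [← hm', ← e3]
        _ = _ := by ring
    exact ⟨_, this⟩
  have hrD : IsCoprime r D := by
    rw [hr]
    have : A ^ 2 + p * D ^ 2 = A ^ 2 + D * (p * D) := by ring
    rw [this]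
    exact (hAD.pow_left).add_mul_left_left _
  have hm'D : IsCoprime m' (D ^ 10) := by
    have h1 : IsCoprime (X.num * m') D := by rw [← e3]; exact hrD.pow_left
    exact (h1.of_mul_left_right).pow_right
  have hdvd2 : m' ∣ (4 * p * (a ^ 2 + 4 * p)) ^ 2 := hm'D.dvd_of_dvd_mul_right hdvd1
  have hm'le : m'.natAbs ≤ ((4 * p * (a ^ 2 + 4 * p)).natAbs) ^ 2 := by
    rw [← Int.natAbs_pow]
    apply Int.natAbs_le_of_dvd_ne_zero hdvd2
    positivity
  -- lower bound for `r`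
  have hr1 : ((hq x) ^ 2 : ℤ) ≤ r := by
    refine hmax.trans (max_le ?_ ?_)
    · rw [hr]; nlinarith [sq_nonneg D]
    · rw [hr]; nlinarith [sq_nonneg A, sq_nonneg D]
  have hr2 : ((hq x) ^ 4 : ℤ) ≤ r ^ 2 := by
    have h0 : (0 : ℤ) ≤ (hq x : ℤ) ^ 2 := by positivity
    calc ((hq x) ^ 4 : ℤ) = ((hq x : ℤ) ^ 2) ^ 2 := by ring
      _ ≤ r ^ 2 := pow_le_pow_left₀ h0 hr1 2
  have hr3 : (hq x) ^ 4 ≤ X.num.natAbs * m'.natAbs := by
    rw [← Int.natAbs_mul, ← e3]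
    zify
    rw [abs_of_nonneg (sq_nonneg r)]
    exact hr2
  rw [mul_comm]
  exact hr3.trans (Nat.mul_le_mul (le_max_left _ _) hm'le)

lemma finite_hq (B : ℕ) : {x : ℚ | hq x ≤ B}.Finite := by
  have : {x : ℚ | hq x ≤ B} ⊆
      (fun r : ℤ × ℤ => (r.1 : ℚ) / r.2) '' ((Set.Icc (-(B : ℤ)) B) ×ˢ (Set.Icc (-(B : ℤ)) B)) := by
    intro x hx
    simp only [Set.mem_ofPred_eq] at hx
    refine ⟨(x.num, (x.den : ℤ)), ?_, ?_⟩
    · have h1 : x.num.natAbs ≤ B := (le_max_left _ _).trans hx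
      have h2 : x.den ≤ B := (le_max_right _ _).trans hx
      simp only [Set.mem_prod, Set.mem_Icc]
      omega
    · simp only [Int.cast_natCast]
      exact Rat.num_div_den x
  exact Set.Finite.subset (((Set.finite_Icc _ _).prod (Set.finite_Icc _ _)).image _) this

lemma finite_hP (B : ℕ) : {P : (E a p).Point | hP P ≤ B}.Finite := by
  have hsub : {P : (E a p).Point | hP P ≤ B} ⊆
      {0} ∪ ⋃ x ∈ {x : ℚ | hq x ≤ B}, {P : (E a p).Point | ∃ y, At P x y} := by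
    intro P hPB
    simp only [Set.mem_ofPred_eq] at hPB
    rcases zero_or P with rfl | ⟨x, y, hx⟩
    · left; rfl
    · right
      rw [hx.hP] at hPB
      simp only [Set.mem_iUnion, Set.mem_ofPred_eq]
      exact ⟨x, hPB, y, hx⟩
  refine Set.Finite.subset ?_ hsub
  refine (Set.finite_singleton _).union ((finite_hq B).biUnion fun x _ => ?_)
  by_cases hex : ∃ P : (E a p).Point, ∃ y, At P x y
  · obtain ⟨P, y, hP⟩ := hex
    refine Set.Finite.subset (Set.toFinite {P, -P}) ?_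
    rintro Q ⟨y', hQ⟩
    exact hQ.same_x hP
  · refine Set.Finite.subset Set.finite_empty ?_
    rintro Q ⟨y', hQ⟩
    exact hex ⟨Q, y', hQ⟩

/-- Two points in the same square class differ by an element of `2E(ℚ)`. -/
lemma class_sub (hpar : Par a p) {P Q : (E a p).Point} {e s₁ s₂ y₁ y₂ : ℚ} (he : e ≠ 0)
    (hs₁ : s₁ ≠ 0) (hs₂ : s₂ ≠ 0) (hP : At P (e * s₁ ^ 2) y₁) (hQ : At Q (e * s₂ ^ 2) y₂) :
    ∃ R : (E a p).Point, R + R = P - Q := by
  by_cases hx : e * s₁ ^ 2 = e * s₂ ^ 2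
  · rw [hx] at hP
    rcases hP.same_x hQ with h | h
    · exact ⟨0, by rw [h]; simp⟩
    · refine ⟨P, ?_⟩
      rw [h]; abel
  · have hg := hpar.good
    have hsub : e * s₁ ^ 2 - e * s₂ ^ 2 ≠ 0 := sub_ne_zero.mpr hx
    obtain ⟨X, Y, hX, e1⟩ := hP.sum_prod hQ.neg hx
    rw [← sub_eq_add_neg] at hX
    have hden : e * s₁ * s₂ * (e * s₁ ^ 2 - e * s₂ ^ 2) ≠ 0 := by positivity
    obtain ⟨w, hw⟩ : ∃ w, w = (y₁ * (e * s₂ ^ 2) - -y₂ * (e * s₁ ^ 2)) /
      (e * s₁ * s₂ * (e * s₁ ^ 2 - e * s₂ ^ 2)) := ⟨_, rfl⟩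
    have hXw : X = w ^ 2 := by
      rw [hw, div_pow, eq_div_iff (pow_ne_zero 2 hden), ← e1]
      ring
    have hw0 : w ≠ 0 := by
      rintro rfl
      have hX0 : X = 0 := by rw [hXw]; ring
      subst hX0
      have hPQ : P - Q = T hg := by
        rcases hX.same_x (T_at hg) with h | h
        · exact h
        · rw [h, neg_T]
      have hPe : P = Q + T hg := by rw [← hPQ]; abel
      obtain ⟨y', h'⟩ := hQ.add_T hg (by positivity)
      rw [← hPe] at h'
      have h2 := (h'.unique hP).1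
      have h3 : (p : ℚ) = -(e ^ 2 * s₁ ^ 2 * s₂ ^ 2) := by
        rw [div_eq_iff (by positivity)] at h2
        linear_combination -h2
      have h4 : (0 : ℚ) < p := by exact_mod_cast hpar.hp0
      have h5 : 0 < e ^ 2 * s₁ ^ 2 * s₂ ^ 2 := by positivity
      linarith
    rw [hXw] at hX
    exact half hg hpar.hp0 hpar.hq hw0 hX

/-- The square class of a point. -/
def Cls (a p : ℤ) (P : (E a p).Point) (i : Fin 6) : Prop :=
  match i with
  | 0 => P = 0
  | 1 => ∃ y, At P 0 y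
  | 2 => ∃ s y : ℚ, s ≠ 0 ∧ At P (1 * s ^ 2) y
  | 3 => ∃ s y : ℚ, s ≠ 0 ∧ At P (-1 * s ^ 2) y
  | 4 => ∃ s y : ℚ, s ≠ 0 ∧ At P (p * s ^ 2) y
  | 5 => ∃ s y : ℚ, s ≠ 0 ∧ At P (-p * s ^ 2) y

lemma exists_cls (hpar : Par a p) (P : (E a p).Point) : ∃ i, Cls a p P i := by
  rcases zero_or P with rfl | ⟨x, y, h⟩
  · exact ⟨0, rfl⟩
  by_cases hx : x = 0
  · subst hx; exact ⟨1, y, h⟩
  have e := h.eqn
  have e1 : y ^ 2 = x * (x ^ 2 + (a : ℤ) * x + ((-p : ℤ) : ℚ)) := by push_cast; rw [e]; ring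
  have hβ : ((-p : ℤ).natAbs).Prime := by rw [Int.natAbs_neg]; exact hpar.hp
  obtain ⟨s, hs, h1 | h1 | h1 | h1⟩ := sq_class hβ hx e1
  · exact ⟨2, s, y, hs, by rw [one_mul, ← h1]; exact h⟩
  · exact ⟨3, s, y, hs, by rw [neg_one_mul, ← h1]; exact h⟩
  · refine ⟨5, s, y, hs, ?_⟩
    rw [h1] at h
    push_cast at h
    exact h
  · refine ⟨4, s, y, hs, ?_⟩
    rw [h1] at h
    push_cast at h
    have : (p : ℚ) * s ^ 2 = -(-p * s ^ 2) := by ring
    rw [this]
    exact h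

lemma cls_sub (hpar : Par a p) {P Q : (E a p).Point} {i : Fin 6} (hP : Cls a p P i)
    (hQ : Cls a p Q i) : ∃ R : (E a p).Point, R + R = P - Q := by
  have hp0 : (p : ℚ) ≠ 0 := by exact_mod_cast hpar.hp0.ne'
  fin_cases i
  · simp only [Cls] at hP hQ
    exact ⟨0, by rw [hP, hQ]; simp⟩
  · obtain ⟨y, h⟩ := hP
    obtain ⟨y', h'⟩ := hQ
    have h1 : ∀ {R : (E a p).Point} {y}, At R 0 y → R = T hpar.good := by
      intro R y hR
      rcases hR.same_x (T_at hpar.good) with h | h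
      · exact h
      · rw [h, neg_T]
    exact ⟨0, by rw [h1 h, h1 h']; simp⟩
  all_goals
    obtain ⟨s, y, hs, h⟩ := hP
    obtain ⟨s', y', hs', h'⟩ := hQ
    refine class_sub hpar ?_ hs hs' h h'
    first
    | exact hp0
    | exact neg_ne_zero.mpr hp0
    | norm_num

lemma finiteIndex (hpar : Par a p) :
    ((nsmulAddMonoidHom (α := (E a p).Point) 2).range).FiniteIndex := by
  classical
  set K := (nsmulAddMonoidHom (α := (E a p).Point) 2).range with hK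
  choose c hc using exists_cls hpar
  have hinj : Function.Injective (fun q : (E a p).Point ⧸ K => c q.out) := by
    intro q q' h
    simp only at h
    obtain ⟨R, hR⟩ := cls_sub hpar (hc q.out) (h ▸ hc q'.out)
    rw [← QuotientAddGroup.out_eq' q, ← QuotientAddGroup.out_eq' q', eq_comm, QuotientAddGroup.eq]
    refine ⟨R, ?_⟩
    simp only [nsmulAddMonoidHom_apply, two_nsmul, hR]
    abel
  have : Finite ((E a p).Point ⧸ K) := Finite.of_injective _ hinj
  exact AddSubgroup.finiteIndex_of_finite_quotient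

theorem fg (hpar : Par a p) : AddGroup.FG (E a p).Point := by
  have hK0 : 0 < (4 * p * (a ^ 2 + 4 * p)).natAbs := by
    have := hpar.hp0
    apply Int.natAbs_pos.mpr
    positivity
  choose C hC0 hC using hP_add (a := a) (p := p)
  have hpos : ∀ P : (E a p).Point, (0 : ℝ) < hP P := fun P => by exact_mod_cast one_le_hP P
  have : Northcott (fun P : (E a p).Point => Real.log (hP P)) := by
    refine ⟨fun b => ?_⟩
    refine (finite_hP (a := a) (p := p) ⌈Real.exp b⌉₊).subset ?_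
    intro P hPb
    simp only [Set.mem_ofPred_eq] at hPb ⊢
    have h1 : (hP P : ℝ) ≤ Real.exp b := (Real.log_le_iff_le_exp (hpos P)).mp hPb
    exact_mod_cast h1.trans (Nat.le_ceil _)
  refine AddCommGroup.fg_of_descent (n := 2) (h := fun P : (E a p).Point => Real.log (hP P))
    (a := 2) (b := 4) (c₀ := Real.log (((4 * p * (a ^ 2 + 4 * p)).natAbs : ℝ) ^ 2))
    (c := fun g => Real.log (C (-g))) (by norm_num) (by norm_num) (finiteIndex hpar) ?_ ?_
  · intro g x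
    have h1 := hC (-g) (g + x)
    rw [neg_add_cancel_left] at h1
    have h2 : (hP x : ℝ) ≤ C (-g) * (hP (g + x) : ℝ) ^ 2 := by exact_mod_cast h1
    have h3 : (0 : ℝ) < C (-g) := by exact_mod_cast hC0 (-g)
    have h4 := Real.log_le_log (hpos x) h2
    rw [Real.log_mul h3.ne' (pow_pos (hpos _) 2).ne', Real.log_pow] at h4
    push_cast at h4
    linarith
  · intro x
    have h1 := hP_dbl hpar x
    have h2 : (hP x : ℝ) ^ 4 ≤ ((4 * p * (a ^ 2 + 4 * p)).natAbs : ℝ) ^ 2 * hP (x + x) := by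
      exact_mod_cast h1
    have h3 : (0 : ℝ) < ((4 * p * (a ^ 2 + 4 * p)).natAbs : ℝ) ^ 2 := by positivity
    have h4 := Real.log_le_log (pow_pos (hpos x) 4) h2
    rw [Real.log_mul h3.ne' (hpos _).ne', Real.log_pow] at h4
    push_cast at h4
    rw [two_nsmul]
    linarith

end

end Pool.Agent.Helper11
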