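import Pool.Agent.Helper11.Curve

/-!
# The kernel of reduction at a prime
-/

namespace Pool.Agent.Helper11

open WeierstrassCurve

section
variable {a p : ℤ} {l : ℕ} [hl : Fact l.Prime]

/-- `P = 0` or the abscissa of `P` is not `l`-integral. -/
def InH (l : ℕ) (P : (E a p).Point) : Prop := ∀ x y, At P x y → 1 < padicNorm l x

omit hl in
lemma inH_zero : InH l (0 : (E a p).Point) := fun _ _ h => absurd rfl h.ne_zero

omit hl in
lemma InH.neg {P : (E a p).Point} (h : InH l P) : InH l (-P) := by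
  intro x y hxy
  have := hxy.neg
  rw [neg_neg] at this
  exact h x _ this

lemma norm_int_add_le {x : ℚ} (hx : 1 < padicNorm l x) (n : ℤ) :
    padicNorm l (x + n) = padicNorm l x := by
  have h1 : padicNorm l (n : ℚ) ≤ 1 := padicNorm.of_int n
  have h2 : padicNorm l x ≠ padicNorm l (n : ℚ) := by
    intro h; rw [← h] at h1; linarith
  rw [padicNorm.add_eq_max_of_ne h2]
  exact max_eq_left (by linarith)

lemma InH.dbl {P : (E a p).Point} (h : InH l P) : InH l (P + P) := by
  rcases zero_or P with rfl | ⟨x, y, hxy⟩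
  · rw [add_zero]; exact inH_zero
  by_cases hy : y = 0
  · subst hy
    rw [hxy.dbl_zero]; exact inH_zero
  obtain ⟨X, Y, hXY, e⟩ := hxy.dbl' hy
  have hx := h x y hxy
  intro X' Y' hX'
  obtain ⟨rfl, -⟩ := hXY.unique hX'
  have heq := hxy.eqn
  -- |y|^2 = |x|^3
  have hx0 : x ≠ 0 := by rintro rfl; simp at hx; linarith
  have n1 : padicNorm l (y ^ 2) = padicNorm l x ^ 3 := by
    have e1 : y ^ 2 = x * (x * (x + a) + ((-p : ℤ) : ℚ)) := by push_cast; rw [heq]; ring
    have h1 : padicNorm l (x + a) = padicNorm l x := norm_int_add_le hx a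
    have h2 : 1 < padicNorm l (x * (x + a)) := by
      rw [padicNorm.mul, h1]; nlinarith
    rw [e1, padicNorm.mul, norm_int_add_le h2, padicNorm.mul, h1]; ring
  have n2 : padicNorm l ((x ^ 2 + p) ^ 2) = padicNorm l x ^ 4 := by
    have h2 : 1 < padicNorm l (x ^ 2) := by
      rw [pow_two, padicNorm.mul]; nlinarith
    rw [pow_two, padicNorm.mul, norm_int_add_le h2, pow_two, padicNorm.mul]; ring
  have n3 : padicNorm l X * (padicNorm l 4 * padicNorm l x ^ 3) = padicNorm l x ^ 4 := by
    rw [← n2, ← e, ← n1]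
    rw [show X * (2 * y) ^ 2 = X * (4 * y ^ 2) by ring, padicNorm.mul, padicNorm.mul]
  have h4 : padicNorm l 4 ≤ 1 := by exact_mod_cast padicNorm.of_int (p := l) 4
  have h40 : 0 ≤ padicNorm l (4 : ℚ) := padicNorm.nonneg _
  have hX0 : 0 ≤ padicNorm l X := padicNorm.nonneg _
  have hpos : 0 < padicNorm l x ^ 3 := by positivity
  have n4 : padicNorm l X * padicNorm l 4 = padicNorm l x := by
    have : (padicNorm l X * padicNorm l 4) * padicNorm l x ^ 3 = padicNorm l x * padicNorm l x ^ 3 := by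
      linear_combination n3
    exact mul_right_cancel₀ hpos.ne' this
  nlinarith

lemma InH.add {P Q : (E a p).Point} (h : InH l P) (h' : InH l Q) : InH l (P + Q) := by
  rcases zero_or P with rfl | ⟨x₁, y₁, h₁⟩
  · rwa [zero_add]
  rcases zero_or Q with rfl | ⟨x₂, y₂, h₂⟩
  · rwa [add_zero]
  by_cases hx : x₁ = x₂
  · subst hx
    rcases h₁.same_x h₂ with rfl | rfl
    · exact h.dbl
    · rw [neg_add_cancel]; exact inH_zero
  obtain ⟨X, Y, X', Y', hX, hX', e1, e2, -⟩ := h₁.add_sub h₂ hx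
  intro Z Z' hZ
  obtain ⟨rfl, -⟩ := hX.unique hZ
  by_contra hcon
  push Not at hcon
  have g₁ := h _ _ h₁
  have g₂ := h' _ _ h₂
  have hsub : x₁ - x₂ ≠ 0 := sub_ne_zero.mpr hx
  have hd : 0 < padicNorm l (x₁ - x₂) :=
    lt_of_le_of_ne (padicNorm.nonneg _) (Ne.symm (padicNorm.nonzero hsub))
  have m1 : padicNorm l (x₁ * x₂ + p) = padicNorm l x₁ * padicNorm l x₂ := by
    have : 1 < padicNorm l (x₁ * x₂) := by rw [padicNorm.mul]; nlinarith
    rw [norm_int_add_le this, padicNorm.mul]
  have m2 : padicNorm l (x₁ * x₂ + ((-p : ℤ) : ℚ)) = padicNorm l x₁ * padicNorm l x₂ := by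
    have : 1 < padicNorm l (x₁ * x₂) := by rw [padicNorm.mul]; nlinarith
    rw [norm_int_add_le this, padicNorm.mul]
  have E1 : padicNorm l X * padicNorm l X' * (padicNorm l (x₁ - x₂) * padicNorm l (x₁ - x₂)) =
      (padicNorm l x₁ * padicNorm l x₂) * (padicNorm l x₁ * padicNorm l x₂) := by
    have := congrArg (padicNorm l) e1
    rw [pow_two, pow_two, padicNorm.mul, padicNorm.mul, padicNorm.mul, padicNorm.mul, m1] at this
    exact this
  have hM : padicNorm l (x₁ + x₂) ≤ max (padicNorm l x₁) (padicNorm l x₂) :=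
    padicNorm.nonarchimedean
  have hdM : padicNorm l (x₁ - x₂) ≤ max (padicNorm l x₁) (padicNorm l x₂) := padicNorm.sub
  have h2n : padicNorm l 2 ≤ 1 := by exact_mod_cast padicNorm.of_int (p := l) 2
  have han : padicNorm l ((2 * a : ℤ) : ℚ) ≤ 1 := padicNorm.of_int _
  generalize hMd : max (padicNorm l x₁) (padicNorm l x₂) = M at hM hdM
  have hM1 : padicNorm l x₁ ≤ M := hMd ▸ le_max_left _ _
  have hM2 : padicNorm l x₂ ≤ M := hMd ▸ le_max_right _ _
  have hMprod : M < padicNorm l x₁ * padicNorm l x₂ := by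
    rcases max_choice (padicNorm l x₁) (padicNorm l x₂) with h3 | h3 <;> rw [← hMd, h3] <;> nlinarith
  have E2 : padicNorm l (X + X') * (padicNorm l (x₁ - x₂) * padicNorm l (x₁ - x₂)) ≤
      padicNorm l x₁ * padicNorm l x₂ * M := by
    have := congrArg (padicNorm l) e2
    rw [pow_two, padicNorm.mul, padicNorm.mul] at this
    rw [this, padicNorm.mul]
    have h5 : (x₁ * x₂ - p) * (x₁ + x₂) + 2 * a * x₁ * x₂ =
      (x₁ * x₂ + ((-p : ℤ) : ℚ)) * (x₁ + x₂) + ((2 * a : ℤ) : ℚ) * (x₁ * x₂) := by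
      push_cast; ring
    have h6 : padicNorm l ((x₁ * x₂ - p) * (x₁ + x₂) + 2 * a * x₁ * x₂) ≤
        padicNorm l x₁ * padicNorm l x₂ * M := by
      rw [h5]
      refine padicNorm.nonarchimedean.trans (max_le ?_ ?_)
      · rw [padicNorm.mul, m2]
        gcongr
      · rw [padicNorm.mul, padicNorm.mul]
        have : (0:ℚ) ≤ padicNorm l ((2 * a : ℤ) : ℚ) := padicNorm.nonneg _
        have h7 : (0:ℚ) < padicNorm l x₁ * padicNorm l x₂ := by nlinarith
        nlinarith
    have h7 : 0 ≤ padicNorm l ((x₁ * x₂ - p) * (x₁ + x₂) + 2 * a * x₁ * x₂) := padicNorm.nonneg _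
    have h8 : 0 ≤ padicNorm l 2 := padicNorm.nonneg _
    nlinarith
  have hX0 : 0 ≤ padicNorm l X := padicNorm.nonneg _
  have hX'0 : 0 ≤ padicNorm l X' := padicNorm.nonneg _
  generalize padicNorm l x₁ = u at *
  generalize padicNorm l x₂ = v at *
  generalize hdd : padicNorm l (x₁ - x₂) = d at *
  have huv : 0 < u * v := by nlinarith
  have hXd : (u * v) * (u * v) ≤ padicNorm l X' * (d * d) := by
    rw [← E1, mul_assoc]
    exact mul_le_of_le_one_left (by positivity) hcon
  have hX'1 : 1 < padicNorm l X' := by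
    by_contra h9
    push Not at h9
    have h12 : d * d ≤ M * M := mul_le_mul hdM hdM hd.le (hd.le.trans hdM)
    have h13 : padicNorm l X' * (d * d) ≤ 1 * (M * M) :=
      mul_le_mul h9 h12 (by positivity) zero_le_one
    have h14 : M * M < (u * v) * (u * v) := by
      have hM0 : 0 ≤ M := by linarith
      exact mul_lt_mul'' hMprod hMprod hM0 hM0
    linarith
  have hne : padicNorm l X ≠ padicNorm l X' := by intro h9; linarith
  rw [padicNorm.add_eq_max_of_ne hne, max_eq_right (by linarith)] at E2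
  have h10 : u * v * (u * v) ≤ u * v * M := hXd.trans E2
  have h11 := le_of_mul_le_mul_left h10 huv
  linarith

lemma InH.sub {P Q : (E a p).Point} (h : InH l P) (h' : InH l Q) : InH l (P - Q) := by
  rw [sub_eq_add_neg]; exact h.add h'.neg

/-- The kernel of reduction as a subgroup. -/
def Hs (l : ℕ) [Fact l.Prime] (a p : ℤ) : AddSubgroup (E a p).Point where
  carrier := {P | InH l P}
  add_mem' := InH.add
  zero_mem' := inH_zero
  neg_mem' := InH.neg

lemma InH.zsmul {P : (E a p).Point} (h : InH l P) (n : ℤ) : InH l (n • P) :=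
  (Hs l a p).zsmul_mem h n

lemma T_notIn (hg : Good a p) : ¬ InH l (T hg) := by
  intro h
  have := h 0 0 (T_at hg)
  simp at this
  linarith

/-- `P` reduces to `T`: the abscissa is divisible by `l`. -/
def RedT (l : ℕ) (P : (E a p).Point) : Prop := ∃ x y, At P x y ∧ padicNorm l x < 1

lemma redT_iff (hg : Good a p) (hlp : ¬ (l : ℤ) ∣ p) (P : (E a p).Point) :
    RedT l P ↔ InH l (P + T hg) := by
  have hp1 : padicNorm l (p : ℚ) = 1 := (padicNorm.int_eq_one_iff p).mpr hlp
  constructor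
  · rintro ⟨x, y, h, hx⟩
    by_cases hx0 : x = 0
    · subst hx0
      rcases h.same_x (T_at hg) with rfl | rfl
      · rw [T_add_T]; exact inH_zero
      · rw [neg_add_cancel]; exact inH_zero
    · obtain ⟨y', h'⟩ := h.add_T hg hx0
      intro X Y hXY
      obtain ⟨rfl, -⟩ := h'.unique hXY
      rw [padicNorm.div, padicNorm.neg, hp1]
      have : 0 < padicNorm l x := lt_of_le_of_ne (padicNorm.nonneg _) (Ne.symm (padicNorm.nonzero hx0))
      rw [one_div]
      exact (one_lt_inv₀ this).mpr hx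
  · intro h
    rcases zero_or P with rfl | ⟨x, y, hxy⟩
    · rw [zero_add] at h
      exact absurd h (T_notIn hg)
    · refine ⟨x, y, hxy, ?_⟩
      by_cases hx0 : x = 0
      · subst hx0; simp
      · obtain ⟨y', h'⟩ := hxy.add_T hg hx0
        have := h _ _ h'
        rw [padicNorm.div, padicNorm.neg, hp1, one_div] at this
        have h0 : 0 < padicNorm l x := lt_of_le_of_ne (padicNorm.nonneg _) (Ne.symm (padicNorm.nonzero hx0))
        exact (one_lt_inv₀ h0).mp this

lemma RedT.not_inH {P : (E a p).Point} (h : RedT l P) : ¬ InH l P := by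
  intro h'
  obtain ⟨x, y, hxy, hx⟩ := h
  have := h' _ _ hxy
  linarith

lemma RedT.even_smul (hg : Good a p) (hlp : ¬ (l : ℤ) ∣ p) {P : (E a p).Point} (h : RedT l P)
    {n : ℤ} (hn : Even n) : InH l (n • P) := by
  rw [redT_iff hg hlp] at h
  obtain ⟨m, rfl⟩ := hn
  have h1 := (h.zsmul (m + m))
  have : (m + m) • (P + T hg) = (m + m) • P := by
    rw [zsmul_add, add_zsmul (T hg), ← zsmul_add, T_add_T, zsmul_zero, add_zero]
  rwa [this] at h1

lemma RedT.odd_smul (hg : Good a p) (hlp : ¬ (l : ℤ) ∣ p) {P : (E a p).Point} (h : RedT l P)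
    {n : ℤ} (hn : Odd n) : RedT l (n • P) := by
  have h0 := h
  rw [redT_iff hg hlp] at h ⊢
  obtain ⟨m, rfl⟩ := hn
  have h1 := h0.even_smul hg hlp (n := 2 * m) (even_two_mul m)
  rw [add_zsmul, one_zsmul, add_assoc]
  exact h1.add h

lemma RedT.add_inH (hg : Good a p) (hlp : ¬ (l : ℤ) ∣ p) {P Q : (E a p).Point} (h : RedT l P)
    (h' : InH l Q) : RedT l (P + Q) := by
  rw [redT_iff hg hlp] at h ⊢
  have := h.add h'
  rwa [add_right_comm] at this

end

end Pool.Agent.Helper11
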