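import Pool.Agent.Helper11.Structure
import Pool.Agent.Helper11.Padic

/-!
# The generator and its multiples; Jacobi symbols
-/

namespace Pool.Agent.Helper11

open WeierstrassCurve

section
variable {a p : ℤ}

lemma norm_lt_of_dvd {l : ℕ} {m : ℤ} (h : (l : ℤ) ∣ m) [Fact l.Prime] : padicNorm l (m : ℚ) < 1 :=
  (padicNorm.int_lt_one_iff m).mpr h

lemma norm_eq_of_not_dvd {l : ℕ} {m : ℤ} (h : ¬ (l : ℤ) ∣ m) [Fact l.Prime] :
    padicNorm l (m : ℚ) = 1 :=
  (padicNorm.int_eq_one_iff m).mpr h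

lemma norm_x {e : ℤ} (he : e = 1 ∨ e = -1) {S N : ℤ} (l : ℕ)
    [Fact l.Prime] :
    padicNorm l (e * ((S : ℚ) / N) ^ 2) = (padicNorm l (S : ℚ) / padicNorm l (N : ℚ)) ^ 2 := by
  have h1 : padicNorm l (e : ℚ) = 1 := by
    rcases he with rfl | rfl
    · simp
    · simp
  rw [padicNorm.mul, h1, one_mul, pow_two, padicNorm.mul, padicNorm.div, ← pow_two]

lemma RepAt.inH_iff {e : ℤ} (he : e = 1 ∨ e = -1) {P : (E a p).Point} {S N T : ℤ}
    (h : RepAt a p e P S N T) (l : ℕ) [hl : Fact l.Prime] : InH l P ↔ (l : ℤ) ∣ N := by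
  have hx := norm_x (S := S) (N := N) he l
  have hN0 : (0 : ℚ) < padicNorm l (N : ℚ) := by
    refine lt_of_le_of_ne (padicNorm.nonneg _) (Ne.symm (padicNorm.nonzero ?_))
    exact_mod_cast h.hN.ne'
  constructor
  · intro hH
    have h1 := hH _ _ h.at'
    rw [hx] at h1
    by_contra hcon
    rw [norm_eq_of_not_dvd hcon, div_one] at h1
    have h2 : padicNorm l (S : ℚ) ≤ 1 := padicNorm.of_int S
    have h3 : 0 ≤ padicNorm l (S : ℚ) := padicNorm.nonneg _
    nlinarith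
  · intro hdvd X Y hXY
    obtain ⟨rfl, -⟩ := h.at'.unique hXY
    rw [hx]
    have hS : ¬ (l : ℤ) ∣ S := by
      intro h1
      have h2 := h.cop.isUnit_of_dvd' h1 hdvd
      rw [Int.isUnit_iff] at h2
      have := hl.out.two_le
      omega
    rw [norm_eq_of_not_dvd hS]
    have h1 := norm_lt_of_dvd hdvd
    have h2 : 1 < 1 / padicNorm l (N : ℚ) := by
      rw [one_div]; exact (one_lt_inv₀ hN0).mpr h1
    nlinarith

lemma RepAt.redT_iff {e : ℤ} (he : e = 1 ∨ e = -1) {P : (E a p).Point} {S N T : ℤ}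
    (h : RepAt a p e P S N T) (l : ℕ) [hl : Fact l.Prime] : RedT l P ↔ (l : ℤ) ∣ S := by
  have hx := norm_x (S := S) (N := N) he l
  have hN0 : (0 : ℚ) < padicNorm l (N : ℚ) := by
    refine lt_of_le_of_ne (padicNorm.nonneg _) (Ne.symm (padicNorm.nonzero ?_))
    exact_mod_cast h.hN.ne'
  constructor
  · rintro ⟨X, Y, hXY, h1⟩
    obtain ⟨rfl, -⟩ := h.at'.unique hXY
    rw [hx] at h1
    by_contra hcon
    rw [norm_eq_of_not_dvd hcon] at h1
    have h2 : padicNorm l (N : ℚ) ≤ 1 := padicNorm.of_int N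
    have h3 : 1 ≤ 1 / padicNorm l (N : ℚ) := by
      rw [one_div]; exact (one_le_inv₀ hN0).mpr h2
    nlinarith
  · intro hdvd
    refine ⟨_, _, h.at', ?_⟩
    rw [hx]
    have hN : ¬ (l : ℤ) ∣ N := by
      intro h1
      have h2 := h.cop.isUnit_of_dvd' hdvd h1
      rw [Int.isUnit_iff] at h2
      have := hl.out.two_le
      omega
    rw [norm_eq_of_not_dvd hN, div_one]
    have h1 := norm_lt_of_dvd hdvd
    have h3 : 0 ≤ padicNorm l (S : ℚ) := padicNorm.nonneg _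
    nlinarith

/-- Everything we need to know about a generator `g` of `E(ℚ)` modulo `T`. -/
structure Gen (a p : ℤ) (g : (E a p).Point) : Prop where
  par : Par a p
  rep : ∃ S N T, RepAt a p (-1) g S N T ∧ S % 2 = 1 ∧ N % 2 = 1
  gen : ∀ P : (E a p).Point, ∃ n : ℤ, P = n • g ∨ P = n • g + T par.good

theorem exists_gen (hpar : Par a p) {u v w : ℤ} (hu : u % 2 = 1) (hv : v % 2 = 1)
    (hw : w ^ 2 = u ^ 4 + a * u ^ 2 * v ^ 2 - p * v ^ 4) : ∃ g, Gen a p g := by
  obtain ⟨g₀, hg₀⟩ := structure' hpar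
  have hg := hpar.good
  have hu0 : (u : ℚ) ≠ 0 := by
    have : u ≠ 0 := by omega
    exact_mod_cast this
  have hv0 : (v : ℚ) ≠ 0 := by
    have : v ≠ 0 := by omega
    exact_mod_cast this
  -- the point `P₀`
  have heq : ((u : ℚ) / v * (w / v ^ 2)) ^ 2 =
      (((u : ℚ) / v) ^ 2) ^ 3 + a * (((u : ℚ) / v) ^ 2) ^ 2 - p * ((u : ℚ) / v) ^ 2 := by
    have hwq : (w : ℚ) ^ 2 = u ^ 4 + a * u ^ 2 * v ^ 2 - p * v ^ 4 := by exact_mod_cast hw
    field_simp
    linear_combination hwq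
  obtain ⟨P₀, hP₀⟩ := exists_at hg heq
  have huv : (u : ℚ) / v ≠ 0 := div_ne_zero hu0 hv0
  obtain ⟨R, hR⟩ := half hg hpar.hp0 hpar.hq huv hP₀
  have hP₀ne : P₀ ≠ 0 := hP₀.ne_zero
  obtain ⟨n, hn⟩ : ∃ n : ℤ, P₀ = n • (g₀ + g₀) := by
    obtain ⟨n, h | h⟩ := hg₀ R
    · exact ⟨n, by rw [← hR, h, zsmul_add]⟩
    · refine ⟨n, ?_⟩
      rw [← hR, h, zsmul_add, add_add_add_comm, T_add_T, add_zero]
  have hG₀ : g₀ + g₀ ≠ 0 := by
    intro h
    rw [h, zsmul_zero] at hn
    exact hP₀ne hn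
  have hnot : ¬ InH 2 P₀ := by
    intro h
    have h1 := h _ _ hP₀
    have h2 : padicNorm 2 (u : ℚ) = 1 := norm_eq_of_not_dvd (by omega)
    have h3 : padicNorm 2 (v : ℚ) = 1 := norm_eq_of_not_dvd (by omega)
    rw [pow_two, padicNorm.mul, padicNorm.div, h2, h3] at h1
    norm_num at h1
  -- trichotomy for `g₀`
  obtain ⟨g, hgen, hsum, s, y, hs, hat⟩ : ∃ g : (E a p).Point,
      (∀ P : (E a p).Point, ∃ n : ℤ, P = n • g ∨ P = n • g + T hg) ∧ g + g = g₀ + g₀ ∧
      ∃ s y : ℚ, s ≠ 0 ∧ At g (-1 * s ^ 2) y := by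
    rcases trichotomy hpar g₀ with ⟨R, hR⟩ | ⟨s, y, hs, h | h⟩
    · exfalso
      obtain ⟨m, hm⟩ := hg₀ R
      have h1 : R + R = (2 * m) • g₀ := by
        rw [mul_comm, mul_zsmul, two_zsmul]
        rcases hm with h | h
        · rw [h, zsmul_add]
        · rw [h, zsmul_add, add_add_add_comm, T_add_T, add_zero]
      have h2 : (2 * (1 - 2 * m)) • g₀ = 0 := by
        have h3 : (1 - 2 * m) • g₀ = g₀ - (R + R) := by
          rw [sub_zsmul, one_zsmul, h1, sub_eq_add_neg]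
        rw [mul_zsmul, h3, two_zsmul]
        rcases hR with h | h
        · rw [sub_eq_zero.mpr h, add_zero]
        · have h4 : g₀ - (R + R) = T hg := by
            rw [sub_eq_iff_eq_add, add_comm]
            exact h
          rw [h4, T_add_T]
      rcases torsion hpar (by omega) h2 with h3 | h3
      · exact hG₀ (by rw [h3, add_zero])
      · exact hG₀ (by rw [h3, T_add_T])
    · exact ⟨g₀, hg₀, rfl, s, y, hs, h⟩
    · refine ⟨g₀ + T hg, ?_, ?_, s, y, hs, h⟩
      · intro P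
        obtain ⟨n, hn⟩ := hg₀ P
        rcases Int.even_or_odd' n with ⟨m, hm | hm⟩
        · refine ⟨n, ?_⟩
          have : n • T hg = 0 := by
            rw [hm, mul_comm, mul_zsmul, two_zsmul, T_add_T, zsmul_zero]
          rw [zsmul_add, this, add_zero]
          exact hn
        · refine ⟨n, ?_⟩
          have : n • T hg = T hg := by
            rw [hm, add_zsmul, mul_comm, mul_zsmul, two_zsmul, T_add_T, zsmul_zero, zero_add,
              one_zsmul]
          rw [zsmul_add, this]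
          rcases hn with h | h
          · right
            rw [add_assoc, T_add_T, add_zero]; exact h
          · left; exact h
      · rw [add_add_add_comm, T_add_T, add_zero]
  have hat' : At g (((-1 : ℤ) : ℚ) * s ^ 2) y := by push_cast; exact hat
  obtain ⟨S, N, T', hrep, -⟩ := rep_exists (Or.inr rfl) hs hat'
  refine ⟨g, hpar, ⟨S, N, T', hrep, ?_⟩, hgen⟩
  by_contra hcon
  have hSN : S % 2 = 0 ∨ N % 2 = 0 := by omega
  obtain ⟨T'', h2⟩ := hrep.dbl_even hpar (Or.inr rfl) hSN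
  have h3 : InH 2 (g + g) := by
    rw [h2.inH_iff (Or.inl rfl)]
    exact ⟨_, rfl⟩
  apply hnot
  rw [hn, ← hsum]
  exact h3.zsmul n

end

/-- The Jacobi symbol conditions. -/
structure Symb (p : ℤ) (s : ℕ) : Prop where
  odd : Odd s
  neg_one : jacobiSym (-1) s = -1
  atp : jacobiSym p s = -1
  two : jacobiSym 2 s = if p % 16 = 5 then -1 else 1

lemma sym_of {p u v : ℤ} (hp : (p.natAbs).Prime) (hp0 : 0 < p) (hp8 : p % 8 = 5) (hu : u % 2 = 1)
    (hv : v % 2 = 1) (hpu : ¬ p ∣ u) {s : ℕ} (hs : 2 * (s : ℤ) = u ^ 4 + p * v ^ 4) :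
    Symb p s ∧ s % 4 = 3 := by
  have h16 : (u ^ 4 + p * v ^ 4) % 16 = (1 + p) % 16 := RepAt.F_mod16 hu hv
  lift p to ℕ using hp0.le
  simp only [Int.natAbs_natCast] at hp
  have hs8 : (s : ℤ) % 8 = 3 ∧ (p : ℤ) % 16 = 5 ∨ (s : ℤ) % 8 = 7 ∧ (p : ℤ) % 16 = 13 := by omega
  have hsodd : Odd s := by
    rw [Nat.odd_iff]; omega
  have hs4 : s % 4 = 3 := by omega
  have hp4 : p % 4 = 1 := by omega
  have hpodd : Odd p := by rw [Nat.odd_iff]; omega
  refine ⟨⟨hsodd, ?_, ?_, ?_⟩, hs4⟩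
  · rw [jacobiSym.at_neg_one hsodd, ZMod.χ₄_nat_three_mod_four hs4]
  · rw [jacobiSym.quadratic_reciprocity_one_mod_four hp4 hsodd]
    have h2 : jacobiSym 2 p = -1 := by
      rw [jacobiSym.at_two hpodd, ZMod.χ₈_nat_eq_if_mod_eight]
      have h1 : p % 8 = 5 := by omega
      have h3 : p % 2 = 1 := by omega
      simp [h1, h3]
    have h3 : jacobiSym 2 p * jacobiSym s p = 1 := by
      rw [← jacobiSym.mul_left, hs, jacobiSym.mod_left]
      have h4 : (u ^ 4 + (p : ℤ) * v ^ 4) % p = (u ^ 4) % p := by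
        rw [Int.add_mul_emod_self_left]
      rw [h4, ← jacobiSym.mod_left]
      have h5 : u ^ 4 = (u ^ 2) ^ 2 := by ring
      rw [h5]
      apply jacobiSym.sq_one'
      have h6 : ¬ (p : ℤ) ∣ u ^ 2 := fun h => hpu (Int.Prime.dvd_pow' hp h)
      have h7 : IsCoprime (u ^ 2) (p : ℤ) :=
        ((Irreducible.coprime_iff_not_dvd (Nat.prime_iff_prime_int.mp hp).irreducible).mpr h6).symm
      exact Int.isCoprime_iff_gcd_eq_one.mp h7
    rw [h2] at h3
    linarith
  · rw [jacobiSym.at_two hsodd, ZMod.χ₈_nat_eq_if_mod_eight]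
    have h3 : ¬ s % 2 = 0 := by omega
    rw [if_neg h3]
    rcases hs8 with ⟨h, h'⟩ | ⟨h, h'⟩
    · have h1 : s % 8 = 3 := by omega
      rw [if_pos h', h1]; norm_num
    · have h1 : s % 8 = 7 := by omega
      have h4 : ¬ (p : ℤ) % 16 = 5 := by omega
      rw [if_neg h4, h1]; norm_num

/-- The admissible twists. -/
def Adm (p c : ℤ) : Prop := c = 1 ∨ c = -1 ∨ c = 2 ∨ c = -2 ∨ c = p ∨ c = -p ∨ c = 2 * p ∨ c = -(2 * p)

lemma Adm.neg {p c : ℤ} (h : Adm p c) : Adm p (-c) := by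
  unfold Adm at *; omega

lemma Symb.eq_of {p c : ℤ} (hc : Adm p c) {s s' : ℕ} (h : Symb p s) (h' : Symb p s') :
    jacobiSym c s = jacobiSym c s' := by
  have h2 := h.two.trans h'.two.symm
  have hp := h.atp.trans h'.atp.symm
  have h1 := h.neg_one.trans h'.neg_one.symm
  have e2 : (-2 : ℤ) = (-1) * 2 := by norm_num
  have ep : -p = (-1) * p := by ring
  have e2p : -(2 * p) = (-1) * (2 * p) := by ring
  rcases hc with rfl | rfl | rfl | rfl | rfl | rfl | rfl | rfl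
  · rw [jacobiSym.one_left, jacobiSym.one_left]
  · exact h1
  · exact h2
  · rw [e2, jacobiSym.mul_left, jacobiSym.mul_left, h1, h2]
  · exact hp
  · rw [ep, jacobiSym.mul_left, jacobiSym.mul_left, h1, hp]
  · rw [jacobiSym.mul_left, jacobiSym.mul_left, h2, hp]
  · rw [e2p, jacobiSym.mul_left, jacobiSym.mul_left, jacobiSym.mul_left, jacobiSym.mul_left, h1, h2,
      hp]

lemma Symb.val {p c : ℤ} (hc : Adm p c) {s : ℕ} (h : Symb p s) :
    jacobiSym c s = 1 ∨ jacobiSym c s = -1 := by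
  have h2 := h.two
  have hp := h.atp
  have h1 := h.neg_one
  have e2 : (-2 : ℤ) = (-1) * 2 := by norm_num
  have ep : -p = (-1) * p := by ring
  have e2p : -(2 * p) = (-1) * (2 * p) := by ring
  rcases hc with rfl | rfl | rfl | rfl | rfl | rfl | rfl | rfl
  · left; exact jacobiSym.one_left _
  · right; exact h1
  · rw [h2]; split_ifs <;> simp
  · rw [e2, jacobiSym.mul_left, h1, h2]; split_ifs <;> simp
  · right; exact hp
  · left; rw [ep, jacobiSym.mul_left, h1, hp]; norm_num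
  · rw [jacobiSym.mul_left, h2, hp]; split_ifs <;> simp
  · rw [e2p, jacobiSym.mul_left, jacobiSym.mul_left, h1, h2, hp]; split_ifs <;> simp

lemma Symb.neg {p c : ℤ} {s : ℕ} (h : Symb p s) : jacobiSym (-c) s = - jacobiSym c s := by
  have : -c = (-1) * c := by ring
  rw [this, jacobiSym.mul_left, h.neg_one]; ring

end Pool.Agent.Helper11
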