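import Mathlib

/-!
# Specialising elements of the function field at a dense set of rational points
-/

open AlgebraicGeometry CategoryTheory

namespace Pool.Agent.Helper11

/-- Finitely many elements of the function field are sections over a common nonempty open set. -/
theorem exists_sections {V : Scheme.{0}} [IsIntegral V] {m : ℕ} (a : Fin m → V.functionField) :
    ∃ (U : V.Opens) (_ : Nonempty U) (b : Fin m → Γ(V, U)),
      ∀ i, V.germToFunctionField U (b i) = a i := by
  induction m with
  | zero =>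
    refine ⟨⊤, ⟨⟨genericPoint V, trivial⟩⟩, fun i => i.elim0, fun i => i.elim0⟩
  | succ m ih =>
    obtain ⟨U, hU, b, hb⟩ := ih (fun i => a i.succ)
    obtain ⟨W, hW, g, hg⟩ := V.presheaf.exists_germ_eq (a 0)
    have hgU : genericPoint V ∈ U :=
      ((genericPoint_spec V).mem_open_set_iff U.isOpen).mpr (by simpa using hU)
    refine ⟨U ⊓ W, ⟨⟨genericPoint V, hgU, hW⟩⟩,
      Fin.cons (V.presheaf.map (homOfLE inf_le_right).op g)
        (fun i => V.presheaf.map (homOfLE inf_le_left).op (b i)), ?_⟩
    intro i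
    refine Fin.cases ?_ ?_ i
    · rw [Fin.cons_zero]
      have := V.presheaf.germ_res_apply (homOfLE (inf_le_right : U ⊓ W ≤ W)) (genericPoint V)
        ⟨hgU, hW⟩ g
      rw [hg] at this
      exact this
    · intro j
      rw [Fin.cons_succ]
      have := V.presheaf.germ_res_apply (homOfLE (inf_le_left : U ⊓ W ≤ U)) (genericPoint V)
        ⟨hgU, hW⟩ (b j)
      rw [← hb j]
      exact this

/-- A `K`-point of a scheme landing in the open set `U` gives a ring homomorphism `Γ(V, U) → K`. -/
theorem exists_hom_of_point {V : Scheme.{0}} {K : Type} [Field K] (U : V.Opens)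
    (s : Spec (CommRingCat.of K) ⟶ V) (hs : s (IsLocalRing.closedPoint K) ∈ U) :
    Nonempty (Γ(V, U) →+* K) := by
  have htop : s ⁻¹ᵁ U = ⊤ := by
    ext x
    have hx : x = IsLocalRing.closedPoint K := Subsingleton.elim _ _
    simp only [hx]
    exact ⟨fun _ => trivial, fun _ => hs⟩
  refine ⟨((Scheme.ΓSpecIso (CommRingCat.of K)).hom.hom).comp
    (((Spec (CommRingCat.of K)).presheaf.map (eqToHom htop.symm).op).hom.comp (s.app U).hom)⟩

/-- The set `V(ℚ)` of rational points of a scheme `V` over `ℚ`, as a set of points of `V`. -/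
def rationalPoints {V : Scheme.{0}} (f : V ⟶ Spec (CommRingCat.of ℚ)) : Set V :=
  {P | ∃ s : Spec (CommRingCat.of ℚ) ⟶ V, s ≫ f = 𝟙 _ ∧ s (IsLocalRing.closedPoint ℚ) = P}

/-- If the rational points of `V` are dense, then finitely many elements of the function field can
be specialised to rational numbers, a given non-zero one to a non-zero number. -/
theorem exists_specialisation {V : Scheme.{0}} [IsIntegral V] (f : V ⟶ Spec (CommRingCat.of ℚ))
    {m : ℕ} (a : Fin m → V.functionField) {z : V.functionField} (hz : z ≠ 0)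
    (hdense : Dense (rationalPoints f)) :
    ∃ (R : Type) (_ : CommRing R) (ι : R →+* V.functionField) (b : Fin m → R) (zz : R)
      (φ : R →+* ℚ), Function.Injective ι ∧ (∀ i, ι (b i) = a i) ∧ ι zz = z ∧ φ zz ≠ 0 := by
  obtain ⟨U, hU, z', hUne, hzz, hzu⟩ := exists_isUnit_germ_eq V z hz
  obtain ⟨W, hWne, b, hb⟩ := exists_sections (V := V) a
  have hgU : genericPoint V ∈ U :=
    ((genericPoint_spec V).mem_open_set_iff U.isOpen).mpr (by simpa using hUne)
  have hgW : genericPoint V ∈ W :=
    ((genericPoint_spec V).mem_open_set_iff W.isOpen).mpr (by simpa using hWne)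
  have hne : Nonempty (U ⊓ W : V.Opens) := ⟨⟨genericPoint V, hgU, hgW⟩⟩
  obtain ⟨P, hP, hPs⟩ := hdense.inter_open_nonempty (U ⊓ W : V.Opens) (U ⊓ W).isOpen
    ⟨genericPoint V, hgU, hgW⟩
  obtain ⟨s, -, hs⟩ := hPs
  obtain ⟨φ⟩ := exists_hom_of_point (K := ℚ) (U ⊓ W) s (by rw [hs]; exact hP)
  refine ⟨Γ(V, U ⊓ W), inferInstance, (V.germToFunctionField (U ⊓ W)).hom,
    fun i => V.presheaf.map (homOfLE inf_le_right).op (b i),
    V.presheaf.map (homOfLE inf_le_left).op z', φ, V.germToFunctionField_injective (U ⊓ W),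
    ?_, ?_, ?_⟩
  · intro i
    rw [← hb i]
    exact V.presheaf.germ_res_apply (homOfLE (inf_le_right : U ⊓ W ≤ W)) (genericPoint V)
      ⟨hgU, hgW⟩ (b i)
  · rw [← hzz]
    exact V.presheaf.germ_res_apply (homOfLE (inf_le_left : U ⊓ W ≤ U)) (genericPoint V)
      ⟨hgU, hgW⟩ z'
  · exact ((hzu.map _).map φ).ne_zero

end Pool.Agent.Helper11
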