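import Pool.Agent.Helper11.Geo
import Pool.Agent.Helper11.Coherent

/-!
# Specialising elements of the holomorphy ring
-/

open AlgebraicGeometry CategoryTheory

namespace Pool.Agent.Helper11

/-- The subring of a field `K` generated by the elements `1 / (1 + g²)`. -/
def hol (K : Type*) [Field K] : Subring K := Subring.closure {x | ∃ g : K, x = (1 + g ^ 2)⁻¹}

section
variable {V : Scheme.{0}} [IsIntegral V]

/-- A predicate on sections stable under restriction. -/
structure Stable (V : Scheme.{0}) [IsIntegral V] where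
  /-- the predicate -/
  P : ∀ U : V.Opens, Γ(V, U) → Prop
  res : ∀ (U W : V.Opens) (h : W ≤ U) (b : Γ(V, U)), P U b → P W (V.presheaf.map (homOfLE h).op b)

/-- Finitely many elements of the function field which are germs of good sections are germs of good
sections over a common nonempty open set. -/
theorem exists_sections_stable (Q : Stable V) {m : ℕ} (a : Fin m → V.functionField)
    (ha : ∀ i, ∃ (U : V.Opens) (_ : Nonempty U) (b : Γ(V, U)), V.germToFunctionField U b = a i ∧
      Q.P U b) :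
    ∃ (U : V.Opens) (_ : Nonempty U) (b : Fin m → Γ(V, U)),
      ∀ i, V.germToFunctionField U (b i) = a i ∧ Q.P U (b i) := by
  induction m with
  | zero =>
    refine ⟨⊤, ⟨⟨genericPoint V, trivial⟩⟩, fun i => i.elim0, fun i => i.elim0⟩
  | succ m ih =>
    obtain ⟨U, hU, b, hb⟩ := ih (fun i => a i.succ) (fun i => ha i.succ)
    obtain ⟨W, hW, g, hg, hgP⟩ := ha 0
    have hgU : genericPoint V ∈ U :=
      ((genericPoint_spec V).mem_open_set_iff U.isOpen).mpr (by simpa using hU)
    have hgW : genericPoint V ∈ W :=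
      ((genericPoint_spec V).mem_open_set_iff W.isOpen).mpr (by simpa using hW)
    refine ⟨U ⊓ W, ⟨⟨genericPoint V, hgU, hgW⟩⟩,
      Fin.cons (V.presheaf.map (homOfLE inf_le_right).op g)
        (fun i => V.presheaf.map (homOfLE inf_le_left).op (b i)), ?_⟩
    intro i
    refine Fin.cases ?_ ?_ i
    · rw [Fin.cons_zero]
      refine ⟨?_, Q.res _ _ _ _ hgP⟩
      have := V.presheaf.germ_res_apply (homOfLE (inf_le_right : U ⊓ W ≤ W)) (genericPoint V)
        ⟨hgU, hgW⟩ g
      rw [← hg]
      exact this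
    · intro j
      rw [Fin.cons_succ]
      refine ⟨?_, Q.res _ _ _ _ (hb j).2⟩
      have := V.presheaf.germ_res_apply (homOfLE (inf_le_left : U ⊓ W ≤ U)) (genericPoint V)
        ⟨hgU, hgW⟩ (b j)
      rw [← (hb j).1]
      exact this

/-- The predicate: all rational specialisations are integral at all primes `3 (mod 4)`. -/
def intStable (V : Scheme.{0}) [IsIntegral V] : Stable V where
  P U b := ∀ φ : Γ(V, U) →+* ℚ, ∀ l : ℕ, ∀ _ : Fact l.Prime, l % 4 = 3 → padicNorm l (φ b) ≤ 1
  res := by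
    intro U W h b hP φ l hl hl3
    exact hP (φ.comp (V.presheaf.map (homOfLE h).op).hom) l hl hl3

/-- Being the germ of a good section. -/
def IsInt (x : V.functionField) : Prop :=
  ∃ (U : V.Opens) (_ : Nonempty U) (b : Γ(V, U)), V.germToFunctionField U b = x ∧
    (intStable V).P U b

lemma IsInt.two {x y : V.functionField} (hx : IsInt x) (hy : IsInt y) :
    ∃ (U : V.Opens) (_ : Nonempty U) (b c : Γ(V, U)), V.germToFunctionField U b = x ∧
      V.germToFunctionField U c = y ∧ (intStable V).P U b ∧ (intStable V).P U c := by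
  obtain ⟨U, hU, b, hb⟩ := exists_sections_stable (intStable V) ![x, y]
    (by
      intro i
      fin_cases i
      · exact hx
      · exact hy)
  exact ⟨U, hU, b 0, b 1, (hb 0).1, (hb 1).1, (hb 0).2, (hb 1).2⟩

lemma IsInt.add {x y : V.functionField} (hx : IsInt x) (hy : IsInt y) : IsInt (x + y) := by
  obtain ⟨U, hU, b, c, hb, hc, hbP, hcP⟩ := hx.two hy
  refine ⟨U, hU, b + c, by rw [map_add, hb, hc], ?_⟩
  intro φ l hl hl3
  rw [map_add]
  exact padicNorm.nonarchimedean.trans (max_le (hbP φ l hl hl3) (hcP φ l hl hl3))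

lemma IsInt.mul {x y : V.functionField} (hx : IsInt x) (hy : IsInt y) : IsInt (x * y) := by
  obtain ⟨U, hU, b, c, hb, hc, hbP, hcP⟩ := hx.two hy
  refine ⟨U, hU, b * c, by rw [map_mul, hb, hc], ?_⟩
  intro φ l hl hl3
  rw [map_mul, padicNorm.mul]
  exact mul_le_one₀ (hbP φ l hl hl3) (padicNorm.nonneg _) (hcP φ l hl hl3)

lemma IsInt.neg {x : V.functionField} (hx : IsInt x) : IsInt (-x) := by
  obtain ⟨U, hU, b, hb, hbP⟩ := hx
  refine ⟨U, hU, -b, by rw [map_neg, hb], ?_⟩
  intro φ l hl hl3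
  rw [map_neg, padicNorm.neg]
  exact hbP φ l hl hl3

lemma IsInt.zero : IsInt (0 : V.functionField) := by
  refine ⟨⊤, ⟨⟨genericPoint V, trivial⟩⟩, 0, map_zero _, ?_⟩
  intro φ l hl hl3
  rw [map_zero, padicNorm.zero]; exact zero_le_one

lemma IsInt.one : IsInt (1 : V.functionField) := by
  refine ⟨⊤, ⟨⟨genericPoint V, trivial⟩⟩, 1, map_one _, ?_⟩
  intro φ l hl hl3
  rw [map_one, padicNorm.one]

lemma IsInt.inv (g : V.functionField) : IsInt ((1 + g ^ 2)⁻¹) := by
  by_cases h0 : 1 + g ^ 2 = 0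
  · rw [h0, inv_zero]; exact IsInt.zero
  obtain ⟨U, hU, y', hUne, hyy, hyu⟩ := exists_isUnit_germ_eq V (1 + g ^ 2) h0
  obtain ⟨W, hWne, b, hb⟩ := exists_sections (V := V) ![g]
  have hgU : genericPoint V ∈ U :=
    ((genericPoint_spec V).mem_open_set_iff U.isOpen).mpr (by simpa using hUne)
  have hgW : genericPoint V ∈ W :=
    ((genericPoint_spec V).mem_open_set_iff W.isOpen).mpr (by simpa using hWne)
  have hne : Nonempty (U ⊓ W : V.Opens) := ⟨⟨genericPoint V, hgU, hgW⟩⟩
  obtain ⟨yy, hyydef⟩ : ∃ yy : Γ(V, U ⊓ W), yy = V.presheaf.map (homOfLE inf_le_left).op y' :=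
    ⟨_, rfl⟩
  obtain ⟨bb, hbbdef⟩ : ∃ bb : Γ(V, U ⊓ W), bb = V.presheaf.map (homOfLE inf_le_right).op (b 0) :=
    ⟨_, rfl⟩
  have gyy : V.germToFunctionField (U ⊓ W) yy = 1 + g ^ 2 := by
    rw [hyydef, ← hyy]
    exact V.presheaf.germ_res_apply (homOfLE (inf_le_left : U ⊓ W ≤ U)) (genericPoint V)
      ⟨hgU, hgW⟩ y'
  have gbb : V.germToFunctionField (U ⊓ W) bb = g := by
    have h1 : V.germToFunctionField W (b 0) = g := hb 0
    rw [hbbdef, ← h1]
    exact V.presheaf.germ_res_apply (homOfLE (inf_le_right : U ⊓ W ≤ W)) (genericPoint V)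
      ⟨hgU, hgW⟩ (b 0)
  have hinj := V.germToFunctionField_injective (U ⊓ W)
  have e1 : yy = 1 + bb ^ 2 := by
    apply hinj
    rw [gyy, map_add, map_one, map_pow, gbb]
  have hunit : IsUnit yy := by rw [hyydef]; exact hyu.map _
  obtain ⟨c, hc⟩ := hunit.exists_right_inv
  refine ⟨U ⊓ W, hne, c, ?_, ?_⟩
  · have h2 := congrArg (V.germToFunctionField (U ⊓ W)) hc
    rw [map_mul, map_one, gyy] at h2
    exact eq_inv_of_mul_eq_one_right h2
  · intro φ l hl hl3
    have h2 := congrArg φ hc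
    rw [map_mul, map_one, e1, map_add, map_one, map_pow] at h2
    rw [eq_inv_of_mul_eq_one_right h2]
    exact norm_inv_le hl3 _

/-- Elements of the holomorphy ring specialise to `l`-integral numbers, `l ≡ 3 (mod 4)`. -/
theorem isInt_of_hol {x : V.functionField} (hx : x ∈ hol V.functionField) : IsInt x := by
  unfold hol at hx
  induction hx using Subring.closure_induction with
  | mem x hx => obtain ⟨g, rfl⟩ := hx; exact IsInt.inv g
  | zero => exact IsInt.zero
  | one => exact IsInt.one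
  | add x y _ _ hx hy => exact hx.add hy
  | neg x _ hx => exact hx.neg
  | mul x y _ _ hx hy => exact hx.mul hy

/-- If the rational points of `V` are dense, then finitely many elements `a i` of the function field
and finitely many elements `κ j` of its holomorphy ring can be specialised to rational numbers
`φ (b i)`, `φ (c j)`, the latter integral at all primes `3 (mod 4)`. -/
theorem exists_specialisation_hol (f : V ⟶ Spec (CommRingCat.of ℚ)) {m n : ℕ}
    (a : Fin m → V.functionField) (κ : Fin n → V.functionField)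
    (hκ : ∀ j, κ j ∈ hol V.functionField) (hdense : Dense (rationalPoints f)) :
    ∃ (R : Type) (_ : CommRing R) (ι : R →+* V.functionField) (b : Fin m → R) (c : Fin n → R)
      (φ : R →+* ℚ), Function.Injective ι ∧ (∀ i, ι (b i) = a i) ∧ (∀ j, ι (c j) = κ j) ∧
      ∀ j, ∀ l : ℕ, ∀ _ : Fact l.Prime, l % 4 = 3 → padicNorm l (φ (c j)) ≤ 1 := by
  obtain ⟨U, hUne, b, hb⟩ := exists_sections (V := V) a
  obtain ⟨W, hWne, c, hc⟩ := exists_sections_stable (intStable V) κ
    (fun j => isInt_of_hol (hκ j))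
  have hgU : genericPoint V ∈ U :=
    ((genericPoint_spec V).mem_open_set_iff U.isOpen).mpr (by simpa using hUne)
  have hgW : genericPoint V ∈ W :=
    ((genericPoint_spec V).mem_open_set_iff W.isOpen).mpr (by simpa using hWne)
  have hne : Nonempty (U ⊓ W : V.Opens) := ⟨⟨genericPoint V, hgU, hgW⟩⟩
  obtain ⟨P, hP, hPs⟩ := hdense.inter_open_nonempty (U ⊓ W : V.Opens) (U ⊓ W).isOpen
    ⟨genericPoint V, hgU, hgW⟩
  obtain ⟨s, -, hs⟩ := hPs
  obtain ⟨φ⟩ := exists_hom_of_point (K := ℚ) (U ⊓ W) s (by rw [hs]; exact hP)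
  refine ⟨Γ(V, U ⊓ W), inferInstance, (V.germToFunctionField (U ⊓ W)).hom,
    fun i => V.presheaf.map (homOfLE inf_le_left).op (b i),
    fun j => V.presheaf.map (homOfLE inf_le_right).op (c j), φ,
    V.germToFunctionField_injective (U ⊓ W), ?_, ?_, ?_⟩
  · intro i
    rw [← hb i]
    exact V.presheaf.germ_res_apply (homOfLE (inf_le_left : U ⊓ W ≤ U)) (genericPoint V)
      ⟨hgU, hgW⟩ (b i)
  · intro j
    rw [← (hc j).1]
    exact V.presheaf.germ_res_apply (homOfLE (inf_le_right : U ⊓ W ≤ W)) (genericPoint V)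
      ⟨hgU, hgW⟩ (c j)
  · intro j l hl hl3
    exact (intStable V).res _ _ _ _ (hc j).2 φ l hl hl3

/-- The previous theorem for families indexed by finite types. -/
theorem exists_specialisation_hol' (f : V ⟶ Spec (CommRingCat.of ℚ)) {α β : Type} [Finite α]
    [Finite β] (a : α → V.functionField) (κ : β → V.functionField)
    (hκ : ∀ j, κ j ∈ hol V.functionField) (hdense : Dense (rationalPoints f)) :
    ∃ (R : Type) (_ : CommRing R) (ι : R →+* V.functionField) (b : α → R) (c : β → R)
      (φ : R →+* ℚ), Function.Injective ι ∧ (∀ i, ι (b i) = a i) ∧ (∀ j, ι (c j) = κ j) ∧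
      ∀ j, ∀ l : ℕ, ∀ _ : Fact l.Prime, l % 4 = 3 → padicNorm l (φ (c j)) ≤ 1 := by
  obtain ⟨m, ⟨e⟩⟩ := Finite.exists_equiv_fin α
  obtain ⟨n, ⟨e'⟩⟩ := Finite.exists_equiv_fin β
  obtain ⟨R, hR, ι, b, c, φ, hinj, hb, hc, hφ⟩ :=
    exists_specialisation_hol f (fun i => a (e.symm i)) (fun j => κ (e'.symm j))
      (fun j => hκ _) hdense
  refine ⟨R, hR, ι, fun i => b (e i), fun j => c (e' j), φ, hinj, fun i => ?_, fun j => ?_,
    fun j => hφ (e' j)⟩
  · rw [hb]; simp
  · rw [hc]; simp

end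

end Pool.Agent.Helper11
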