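import Pool.Agent.Helper11.Rep

/-!
# Finite generation of `E(ℚ)`
-/

namespace Pool.Agent.Helper11

open WeierstrassCurve

/-- Naive height of a rational number. -/
def hq (x : ℚ) : ℕ := max x.num.natAbs x.den

lemma one_le_hq (x : ℚ) : 1 ≤ hq x := le_max_of_le_right x.den_pos

lemma hq_div_le {N M : ℤ} (hM : M ≠ 0) {B : ℕ} (h1 : N.natAbs ≤ B) (h2 : M.natAbs ≤ B) :
    hq ((N : ℚ) / M) ≤ B := by
  have e : (N : ℚ) / M = Rat.divInt N M := (Rat.divInt_eq_div N M).symm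
  rw [e]
  apply max_le
  · by_cases hN : N = 0
    · subst hN; simp
    · exact (Int.natAbs_le_of_dvd_ne_zero (Rat.num_dvd N hM) hN).trans h1
  · have := Rat.den_dvd N M
    have h3 := Int.natAbs_le_of_dvd_ne_zero this hM
    simp only [Int.natAbs_natCast] at h3
    exact h3.trans h2

section
variable {a p : ℤ}

/-- Naive height of a point. -/
def hP : (E a p).Point → ℕ
  | .zero => 1
  | .some x _ _ => hq x

lemma hP_zero : hP (0 : (E a p).Point) = 1 := rfl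

lemma At.hP {P : (E a p).Point} {x y : ℚ} (h : At P x y) : hP P = hq x := by
  obtain ⟨h, rfl⟩ := h; rfl

lemma one_le_hP (P : (E a p).Point) : 1 ≤ hP P := by
  rcases zero_or P with rfl | ⟨x, y, h⟩
  · exact le_of_eq hP_zero.symm
  · rw [h.hP]; exact one_le_hq x

/-- Integer data of a point. -/
lemma At.int_data {P : (E a p).Point} {x y : ℚ} (h : At P x y) :
    ∃ A D Y : ℤ, 0 < D ∧ IsCoprime A D ∧ x = A / D ∧ y = Y / D ^ 2 ∧
      Y ^ 2 = D * (A * (A ^ 2 + a * A * D - p * D ^ 2)) ∧ A.natAbs ≤ hq x ∧ D.natAbs ≤ hq x ∧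
      (hq x : ℤ) ^ 2 ≤ max (A ^ 2) (D ^ 2) := by
  have heq := h.eqn
  have hD0 : 0 < (x.den : ℤ) := by exact_mod_cast x.den_pos
  have hDq : (x.den : ℚ) ≠ 0 := by exact_mod_cast hD0.ne'
  have hxe : x = x.num / x.den := (Rat.num_div_den x).symm
  have aux : ∀ A D : ℚ, D ≠ 0 → x = A / D → (y * D ^ 2) ^ 2 =
      D * (A * (A ^ 2 + a * A * D - p * D ^ 2)) := by
    intro A D hD hx
    rw [mul_pow, heq, hx]
    field_simp
  have h1 : (y * x.den ^ 2) ^ 2 =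
      (((x.den : ℤ) * (x.num * (x.num ^ 2 + a * x.num * x.den - p * (x.den : ℤ) ^ 2)) : ℤ) : ℚ) := by
    rw [aux _ _ hDq hxe]
    push_cast
    ring
  obtain ⟨Y, hY⟩ := int_of_sq h1
  refine ⟨x.num, x.den, Y, hD0, ?_, hxe, ?_, ?_, ?_, ?_, ?_⟩
  · exact Int.isCoprime_iff_gcd_eq_one.mpr (by simpa [Int.gcd] using x.reduced)
  · rw [← hY]; push_cast; field_simp
  · have := h1
    rw [hY] at this
    exact_mod_cast this
  · exact le_max_left _ _
  · simp only [Int.natAbs_natCast]; exact le_max_right _ _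
  · unfold hq
    rcases max_choice x.num.natAbs x.den with h3 | h3 <;> rw [h3]
    · apply le_max_of_le_left
      simp
    · apply le_max_of_le_right
      simp

lemma Y_bound {a p A D Y : ℤ} {H : ℕ} (hY2 : Y ^ 2 = D * (A * (A ^ 2 + a * A * D - p * D ^ 2)))
    (hH : 0 < H) (hA : A.natAbs ≤ H) (hD : D.natAbs ≤ H) :
    |Y| ≤ (1 + |a| + |p|) * (H : ℤ) ^ 2 := by
  have hHz : (0 : ℤ) < H := by exact_mod_cast hH
  have hAz : |A| ≤ (H : ℤ) := by rw [Int.abs_eq_natAbs]; exact_mod_cast hA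
  have hDz : |D| ≤ (H : ℤ) := by rw [Int.abs_eq_natAbs]; exact_mod_cast hD
  have hA2 : A ^ 2 ≤ (H : ℤ) ^ 2 := by rw [← sq_abs A]; exact pow_le_pow_left₀ (abs_nonneg _) hAz 2
  have hD2 : D ^ 2 ≤ (H : ℤ) ^ 2 := by rw [← sq_abs D]; exact pow_le_pow_left₀ (abs_nonneg _) hDz 2
  have hADz : |A * D| ≤ (H : ℤ) ^ 2 := by
    rw [abs_mul, pow_two]; exact mul_le_mul hAz hDz (abs_nonneg _) hHz.le
  set K : ℤ := 1 + |a| + |p| with hK
  have hK1 : 1 ≤ K := by have := abs_nonneg a; have := abs_nonneg p; omega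
  apply abs_le_of_sq_le_sq _ (by positivity)
  rw [hY2]
  have h5 : |A ^ 2 + a * A * D - p * D ^ 2| ≤ K * (H : ℤ) ^ 2 := by
    calc |A ^ 2 + a * A * D - p * D ^ 2| ≤ |A ^ 2 + a * A * D| + |p * D ^ 2| := abs_sub _ _
      _ ≤ |A ^ 2| + |a * A * D| + |p * D ^ 2| := by
          refine add_le_add (abs_add_le _ _) le_rfl
      _ = A ^ 2 + |a| * |A * D| + |p| * D ^ 2 := by
          rw [mul_assoc, abs_mul a, abs_mul p, abs_of_nonneg (sq_nonneg A),
            abs_of_nonneg (sq_nonneg D)]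
      _ ≤ (H : ℤ) ^ 2 + |a| * (H : ℤ) ^ 2 + |p| * (H : ℤ) ^ 2 := by gcongr
      _ = _ := by rw [hK]; ring
  calc D * (A * (A ^ 2 + a * A * D - p * D ^ 2))
      ≤ |D * (A * (A ^ 2 + a * A * D - p * D ^ 2))| := le_abs_self _
    _ = |A * D| * |A ^ 2 + a * A * D - p * D ^ 2| := by
        rw [← abs_mul]; congr 1; ring
    _ ≤ (H : ℤ) ^ 2 * (K * (H : ℤ) ^ 2) := mul_le_mul hADz h5 (abs_nonneg _) (by positivity)
    _ ≤ (K * (H : ℤ) ^ 2) * (K * (H : ℤ) ^ 2) := by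
        apply mul_le_mul_of_nonneg_right _ (by positivity)
        exact le_mul_of_one_le_left (by positivity) hK1
    _ = (K * (H : ℤ) ^ 2) ^ 2 := by ring

lemma N_bound {k1 k2 k3 k4 A D Y K : ℤ} {H : ℕ} (hH : 0 < H) (hA : A.natAbs ≤ H)
    (hD : D.natAbs ≤ H) (hY : |Y| ≤ K * (H : ℤ) ^ 2) :
    |k1 * A ^ 2 + k2 * (A * D) - k3 * D ^ 2 - 2 * Y * k4| ≤
      (|k1| + |k2| + |k3| + 2 * K * |k4|) * (H : ℤ) ^ 2 := by
  have hHz : (0 : ℤ) < H := by exact_mod_cast hH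
  have hAz : |A| ≤ (H : ℤ) := by rw [Int.abs_eq_natAbs]; exact_mod_cast hA
  have hDz : |D| ≤ (H : ℤ) := by rw [Int.abs_eq_natAbs]; exact_mod_cast hD
  have hA2 : A ^ 2 ≤ (H : ℤ) ^ 2 := by rw [← sq_abs A]; exact pow_le_pow_left₀ (abs_nonneg _) hAz 2
  have hD2 : D ^ 2 ≤ (H : ℤ) ^ 2 := by rw [← sq_abs D]; exact pow_le_pow_left₀ (abs_nonneg _) hDz 2
  have hADz : |A * D| ≤ (H : ℤ) ^ 2 := by
    rw [abs_mul, pow_two]; exact mul_le_mul hAz hDz (abs_nonneg _) hHz.le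
  have t1 : |k1 * A ^ 2| ≤ |k1| * (H : ℤ) ^ 2 := by
    rw [abs_mul, abs_of_nonneg (sq_nonneg A)]; gcongr
  have t2 : |k2 * (A * D)| ≤ |k2| * (H : ℤ) ^ 2 := by
    rw [abs_mul]; gcongr
  have t3 : |k3 * D ^ 2| ≤ |k3| * (H : ℤ) ^ 2 := by
    rw [abs_mul, abs_of_nonneg (sq_nonneg D)]; gcongr
  have t4 : |2 * Y * k4| ≤ 2 * K * |k4| * (H : ℤ) ^ 2 := by
    rw [abs_mul, abs_mul, abs_two]
    have : |Y| * |k4| ≤ K * (H : ℤ) ^ 2 * |k4| := by gcongr
    linarith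
  calc _ ≤ |k1 * A ^ 2| + |k2 * (A * D)| + |k3 * D ^ 2| + |2 * Y * k4| := by
        refine (abs_sub _ _).trans ?_
        refine add_le_add ?_ le_rfl
        refine (abs_sub _ _).trans ?_
        refine add_le_add ?_ le_rfl
        exact abs_add_le _ _
    _ ≤ _ := by linarith

lemma M_bound {A D u w : ℤ} {H : ℕ} (hH : 0 < H) (hw : 0 < w) (hA : A.natAbs ≤ H)
    (hD : D.natAbs ≤ H) : |(A * w - u * D) ^ 2| ≤ (w + |u|) ^ 2 * (H : ℤ) ^ 2 := by
  have hHz : (0 : ℤ) < H := by exact_mod_cast hH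
  have hAz : |A| ≤ (H : ℤ) := by rw [Int.abs_eq_natAbs]; exact_mod_cast hA
  have hDz : |D| ≤ (H : ℤ) := by rw [Int.abs_eq_natAbs]; exact_mod_cast hD
  rw [abs_of_nonneg (sq_nonneg _), ← mul_pow, ← sq_abs]
  apply pow_le_pow_left₀ (abs_nonneg _)
  calc |A * w - u * D| ≤ |A * w| + |u * D| := abs_sub _ _
    _ = |A| * w + |u| * |D| := by rw [abs_mul, abs_mul, abs_of_pos hw]
    _ ≤ (H : ℤ) * w + |u| * H := by gcongr
    _ = _ := by ring

lemma key_identity {a p : ℤ} {xg yg x y : ℚ} {A D Y u v w : ℤ} (e1 : yg ^ 2 = xg ^ 3 + a * xg ^ 2 - p * xg)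
    (e2 : y ^ 2 = x ^ 3 + a * x ^ 2 - p * x) (hx : xg ≠ x) (hD : (D : ℚ) ≠ 0) (hw : (w : ℚ) ≠ 0)
    (hxg : xg = u / w) (hyg : yg = v / w) (hxA : x = A / D) (hyY : y = Y / D ^ 2) :
    ((yg - y) / (xg - x)) ^ 2 - a - xg - x =
      (((w * u) * A ^ 2 + (u ^ 2 + 2 * a * u * w - p * w ^ 2) * (A * D) - (p * u * w) * D ^ 2
        - 2 * Y * (v * w) : ℤ) : ℚ) / (((A * w - u * D) ^ 2 : ℤ) : ℚ) := by
  have hne : xg - x ≠ 0 := sub_ne_zero.mpr hx
  have e3 : (((A * w - u * D) ^ 2 : ℤ) : ℚ) = (xg - x) ^ 2 * (w ^ 2 * D ^ 2) := by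
    push_cast
    rw [hxg, hxA]
    field_simp
    ring
  rw [e3, eq_div_iff (by positivity)]
  push_cast
  have e4 : (((yg - y) / (xg - x)) ^ 2 - a - xg - x) * (xg - x) ^ 2 =
    xg * x ^ 2 + (xg ^ 2 + 2 * a * xg - p) * x - p * xg - 2 * y * yg := by
    field_simp
    linear_combination e1 + e2
  calc (((yg - y) / (xg - x)) ^ 2 - a - xg - x) * ((xg - x) ^ 2 * (w ^ 2 * D ^ 2))
      = (xg * x ^ 2 + (xg ^ 2 + 2 * a * xg - p) * x - p * xg - 2 * y * yg) * (w ^ 2 * D ^ 2) := by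
        rw [← e4]; ring
    _ = _ := by
        rw [hxg, hyg, hxA, hyY]
        field_simp

/-- Translation increases the height at most quadratically. -/
lemma hP_add (g : (E a p).Point) : ∃ C : ℕ, 0 < C ∧ ∀ R : (E a p).Point, hP (g + R) ≤ C * (hP R) ^ 2 := by
  rcases zero_or g with rfl | ⟨xg, yg, hgat⟩
  · refine ⟨1, one_pos, fun R => ?_⟩
    rw [zero_add, one_mul, pow_two]
    exact Nat.le_mul_of_pos_left _ (one_le_hP R)
  -- common denominators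
  obtain ⟨u, v, w, hw, hxg, hyg⟩ : ∃ u v w : ℤ, 0 < w ∧ xg = u / w ∧ yg = v / w := by
    refine ⟨xg.num * yg.den, yg.num * xg.den, xg.den * yg.den, ?_, ?_, ?_⟩
    · have h1 := xg.den_pos
      have h2 := yg.den_pos
      positivity
    · have h1 : (xg.den : ℚ) ≠ 0 := by exact_mod_cast xg.den_pos.ne'
      have h2 : (yg.den : ℚ) ≠ 0 := by exact_mod_cast yg.den_pos.ne'
      push_cast
      rw [mul_div_mul_right _ _ h2]
      exact (Rat.num_div_den xg).symm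
    · have h1 : (xg.den : ℚ) ≠ 0 := by exact_mod_cast xg.den_pos.ne'
      have h2 : (yg.den : ℚ) ≠ 0 := by exact_mod_cast yg.den_pos.ne'
      push_cast
      rw [mul_comm (xg.den : ℚ), mul_div_mul_right _ _ h1]
      exact (Rat.num_div_den yg).symm
  set K : ℤ := 1 + |a| + |p| with hK
  have hK1 : 1 ≤ K := by have := abs_nonneg a; have := abs_nonneg p; omega
  obtain ⟨C1, hC1⟩ : ∃ C1, C1 = |w * u| + |u ^ 2 + 2 * a * u * w - p * w ^ 2| + |p * u * w| +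
    2 * K * |v * w| := ⟨_, rfl⟩
  obtain ⟨C2, hC2⟩ : ∃ C2, C2 = (w + |u|) ^ 2 := ⟨_, rfl⟩
  have hC1' : 0 ≤ C1 := by rw [hC1]; positivity
  have hC2' : 0 ≤ C2 := by rw [hC2]; positivity
  refine ⟨(C1 + C2).natAbs + hP (g + g) + hP g + 1, by omega, fun R => ?_⟩
  rcases zero_or R with rfl | ⟨x, y, hR⟩
  · rw [add_zero, hP_zero]; omega
  have hR1 := one_le_hP R
  have hR2 : 1 ≤ hP R ^ 2 := Nat.one_le_pow _ _ hR1
  by_cases hx : xg = x
  · subst hx
    rcases hgat.same_x hR with h1 | h1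
    · rw [← h1]
      have h1' : 1 ≤ hP g ^ 2 := Nat.one_le_pow _ _ (one_le_hP g)
      calc hP (g + g) ≤ ((C1 + C2).natAbs + hP (g + g) + hP g + 1) * 1 := by omega
        _ ≤ _ := Nat.mul_le_mul_left _ h1'
    · rw [h1, neg_add_cancel, hP_zero]
      calc 1 ≤ ((C1 + C2).natAbs + hP (-R + -R) + hP (-R) + 1) * 1 := by omega
        _ ≤ _ := Nat.mul_le_mul_left _ hR2
  have hadd := hgat.add hR hx
  rw [hadd.hP, hR.hP]
  obtain ⟨A, D, Y, hD, hAD, hxA, hyY, hY2, hA, hDle, -⟩ := hR.int_data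
  generalize hH : hq x = H at *
  have hH1 : 0 < H := by rw [← hH]; exact one_le_hq x
  have hDq : (D : ℚ) ≠ 0 := by exact_mod_cast hD.ne'
  have hwq : (w : ℚ) ≠ 0 := by exact_mod_cast hw.ne'
  have hM : (A * w - u * D) ^ 2 ≠ 0 := by
    apply pow_ne_zero
    intro h0
    apply hx
    rw [hxg, hxA, div_eq_div_iff hwq hDq]
    have : (A : ℚ) * w - u * D = 0 := by exact_mod_cast h0
    linarith
  rw [key_identity hgat.eqn hR.eqn hx hDq hwq hxg hyg hxA hyY]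
  have hYle := Y_bound hY2 hH1 hA hDle
  have hNb := N_bound (k1 := w * u) (k2 := u ^ 2 + 2 * a * u * w - p * w ^ 2) (k3 := p * u * w)
    (k4 := v * w) hH1 hA hDle hYle
  rw [← hK, ← hC1] at hNb
  have hMb := M_bound (u := u) hH1 hw hA hDle
  rw [← hC2] at hMb
  have hCabs : |C1 + C2| = C1 + C2 := abs_of_nonneg (by omega)
  have hH2 : (0 : ℤ) ≤ (H : ℤ) ^ 2 := by positivity
  refine (hq_div_le (B := (C1 + C2).natAbs * H ^ 2) hM ?_ ?_).trans ?_
  · zify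
    rw [hCabs]
    refine hNb.trans (mul_le_mul_of_nonneg_right (by omega) hH2)
  · zify
    rw [hCabs]
    refine hMb.trans (mul_le_mul_of_nonneg_right (by omega) hH2)
  · exact Nat.mul_le_mul_right _ (by omega)

end

end Pool.Agent.Helper11
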