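import Pool.Agent.Helper11.Chain

/-!
# The arithmetic theorem
-/

namespace Pool.Agent.Helper11

open WeierstrassCurve

section
variable {a p : ℤ}

lemma node_of_rep (hpar : Par a p) {e : ℤ} (he : e = 1 ∨ e = -1) {P : (E a p).Point} {S N T : ℤ}
    (h : RepAt a p e P S N T) (hS : S % 2 = 1) (hN : N % 2 = 1) :
    ∃ s N' T' sn, Node a p (P + P) s N' T' sn := by
  obtain ⟨S', T', h1, h2⟩ := h.dbl_odd hpar he hS hN
  have hT := h.Todd hpar he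
  have hT' : |T| % 2 = 1 := by rcases abs_choice T with h | h <;> omega
  have hodd : (S * |T| * N) % 2 = 1 := by simp [Int.mul_emod, hS, hT', hN]
  have hpos := h2.hS
  have e1 : S' = (S'.toNat : ℤ) := by omega
  have h3 := (sym_of hpar.hp hpar.hp0 hpar.hp8 hS hN (h.not_dvd_S hpar he)
    (s := S'.toNat) (by rw [← e1]; exact h1)).1
  exact ⟨S', _, T', S'.toNat, hpar, h2, hodd, e1, h3⟩

lemma Gen.node {g : (E a p).Point} (h : Gen a p g) (k : ℕ) :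
    ∃ s N T sn, Node a p ((2 ^ k : ℤ) • (g + g)) s N T sn := by
  induction k with
  | zero =>
    obtain ⟨S, N, T, h1, hS, hN⟩ := h.rep
    rw [pow_zero, one_zsmul]
    exact node_of_rep h.par (Or.inr rfl) h1 hS hN
  | succ k ih =>
    obtain ⟨s, N, T, sn, h1⟩ := ih
    have e1 : (2 ^ (k + 1) : ℤ) • (g + g) = (2 ^ k : ℤ) • (g + g) + (2 ^ k : ℤ) • (g + g) := by
      rw [pow_succ, mul_zsmul, two_zsmul, zsmul_add]
    rw [e1]
    exact node_of_rep h.par (Or.inl rfl) h1.rep (h1.rep.S_odd h.par) h1.Nodd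

lemma dvd_num_of_norm {l : ℕ} [hl : Fact l.Prime] {r : ℚ} (h : padicNorm l r < 1) :
    (l : ℤ) ∣ r.num ∧ ¬ (l : ℤ) ∣ (r.den : ℤ) := by
  have hcop : IsCoprime r.num (r.den : ℤ) :=
    Int.isCoprime_iff_gcd_eq_one.mpr (by simpa [Int.gcd] using r.reduced)
  have hd0 : (r.den : ℚ) ≠ 0 := by exact_mod_cast r.den_pos.ne'
  have e1 : r = (r.num : ℚ) / (r.den : ℚ) := (Rat.num_div_den r).symm
  have h1 : (l : ℤ) ∣ r.num := by
    by_contra hcon
    rw [e1, padicNorm.div, norm_eq_of_not_dvd hcon] at h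
    have h2 : padicNorm l (r.den : ℚ) ≤ 1 := padicNorm.of_nat _
    have h3 : 0 < padicNorm l (r.den : ℚ) :=
      lt_of_le_of_ne (padicNorm.nonneg _) (Ne.symm (padicNorm.nonzero hd0))
    rw [one_div] at h
    have := (one_le_inv₀ h3).mpr h2
    linarith
  refine ⟨h1, fun h2 => ?_⟩
  have h3 := hcop.isUnit_of_dvd' h1 h2
  rw [Int.isUnit_iff] at h3
  have := hl.out.two_le
  omega

lemma case1_core {g : (E a p).Point} {v k : ℕ} {m' n' : ℤ} (hm' : Odd m') (hn' : Odd n')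
    (hvk : v ≠ k) {s₁ y₁ s₂ y₂ z : ℚ} {c : ℤ}
    (hP : At ((2 ^ v * m' : ℤ) • (g + g)) (s₁ ^ 2) y₁)
    (hQ : At ((2 ^ k * n' : ℤ) • (g + g)) (s₂ ^ 2) y₂)
    (hz : c * z ^ 2 = s₂ ^ 2 - s₁ ^ 2) {s N T : ℤ} {sn : ℕ}
    (hnode : Node a p ((2 ^ k : ℤ) • (g + g)) s N T sn) : jacobiSym (-c) sn ≠ -1 := by
  intro hJ
  obtain ⟨l, hl, hls, hl1⟩ := jacobiSym.eq_neg_one_at_prime_divisor_of_eq_neg_one hJ
  have hfact : Fact l.Prime := ⟨hl⟩
  have hg := hnode.par.good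
  have hls' : (l : ℤ) ∣ s := by rw [hnode.sn_eq]; exact_mod_cast hls
  have hJr := hnode.redT hls'
  have hlp := hnode.not_dvd_p hls'
  have hQr : RedT l ((2 ^ k * n' : ℤ) • (g + g)) := by
    rw [mul_comm, mul_zsmul]
    exact hJr.odd_smul hg hlp hn'
  have hPr : ¬ RedT l ((2 ^ v * m' : ℤ) • (g + g)) := by
    intro hcon
    rcases lt_or_gt_of_ne hvk with h | h
    · -- `v < k`
      obtain ⟨d, hd⟩ : ∃ d, k = v + (d + 1) := ⟨k - v - 1, by omega⟩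
      have h1 : InH l ((2 ^ (d + 1) : ℤ) • ((2 ^ v * m' : ℤ) • (g + g))) :=
        hcon.even_smul hg hlp ⟨2 ^ d, by rw [pow_succ]; ring⟩
      have h2 : (2 ^ (d + 1) : ℤ) • ((2 ^ v * m' : ℤ) • (g + g)) =
          m' • ((2 ^ k : ℤ) • (g + g)) := by
        rw [← mul_zsmul, ← mul_zsmul, hd]
        congr 1
        rw [pow_add 2 v]; ring
      rw [h2] at h1
      exact (hJr.odd_smul hg hlp hm').not_inH h1
    · obtain ⟨d, hd⟩ : ∃ d, v = k + (d + 1) := ⟨v - k - 1, by omega⟩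
      have h1 : InH l ((2 ^ (d + 1) * m' : ℤ) • ((2 ^ k : ℤ) • (g + g))) :=
        hJr.even_smul hg hlp ⟨2 ^ d * m', by rw [pow_succ]; ring⟩
      have h2 : (2 ^ (d + 1) * m' : ℤ) • ((2 ^ k : ℤ) • (g + g)) =
          (2 ^ v * m' : ℤ) • (g + g) := by
        rw [← mul_zsmul, hd]
        congr 1
        rw [pow_add 2 k]; ring
      rw [h2] at h1
      exact hcon.not_inH h1
  have n2 : padicNorm l (s₂ ^ 2) < 1 := by
    obtain ⟨x, y, hxy, hx⟩ := hQr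
    obtain ⟨rfl, -⟩ := hxy.unique hQ
    exact hx
  have n1 : 1 ≤ padicNorm l (s₁ ^ 2) := by
    by_contra hcon
    push Not at hcon
    exact hPr ⟨_, _, hP, hcon⟩
  have hs1 : s₁ ≠ 0 := by
    rintro rfl
    simp at n1
    linarith
  have hr : padicNorm l (s₂ / s₁) < 1 := by
    have h1 : padicNorm l (s₂ / s₁) ^ 2 < 1 := by
      have e1 : padicNorm l (s₂ / s₁) ^ 2 = padicNorm l (s₂ ^ 2) / padicNorm l (s₁ ^ 2) := by
        rw [padicNorm.div, pow_two s₂, pow_two s₁, padicNorm.mul, padicNorm.mul, div_pow]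
        ring
      rw [e1, div_lt_one (by linarith)]
      linarith
    have h2 : 0 ≤ padicNorm l (s₂ / s₁) := padicNorm.nonneg _
    nlinarith
  obtain ⟨hr1, hr2⟩ := dvd_num_of_norm hr
  obtain ⟨r, hrd⟩ : ∃ r, r = s₂ / s₁ := ⟨_, rfl⟩
  obtain ⟨w, hw⟩ : ∃ w, w = z / s₁ := ⟨_, rfl⟩
  rw [← hrd] at hr1 hr2
  have e1 : (c : ℚ) * w ^ 2 = r ^ 2 - 1 := by
    rw [hw, hrd, div_pow, div_pow]
    field_simp
    exact hz
  have hwd : (w.den : ℚ) ≠ 0 := by exact_mod_cast w.den_pos.ne'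
  have hrdn : (r.den : ℚ) ≠ 0 := by exact_mod_cast r.den_pos.ne'
  have e2 : ((w.den : ℤ) * (r.den : ℤ)) ^ 2 - (-c) * (w.num * (r.den : ℤ)) ^ 2 =
      ((w.den : ℤ) * r.num) ^ 2 := by
    have h1 : ((w.den : ℚ) * (r.den : ℚ)) ^ 2 - (-c) * (w.num * (r.den : ℚ)) ^ 2 =
      ((w.den : ℚ) * r.num) ^ 2 := by
      rw [← Rat.num_div_den w, ← Rat.num_div_den r] at e1
      have h2 : (c : ℚ) * (w.num / w.den) ^ 2 = (r.num / r.den) ^ 2 - 1 := e1
      field_simp at h2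
      linear_combination h2
    exact_mod_cast h1
  have h5 : (l : ℤ) ∣ ((w.den : ℤ) * (r.den : ℤ)) ^ 2 - (-c) * (w.num * (r.den : ℤ)) ^ 2 := by
    rw [e2]
    exact (hr1.mul_left _).trans (dvd_pow_self _ two_ne_zero)
  obtain ⟨h6, h7⟩ := jacobiSym.prime_dvd_of_eq_neg_one hl1 h5
  have hlp' : Prime (l : ℤ) := Nat.prime_iff_prime_int.mp hl
  have h8 := (hlp'.dvd_or_dvd h6).resolve_right hr2
  have h9 := (hlp'.dvd_or_dvd h7).resolve_right hr2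
  have hcop : IsCoprime w.num (w.den : ℤ) :=
    Int.isCoprime_iff_gcd_eq_one.mpr (by simpa [Int.gcd] using w.reduced)
  exact hlp'.not_isUnit (hcop.isUnit_of_dvd' h9 h8)

lemma case1 {g : (E a p).Point} (hg : Gen a p g) {v k : ℕ} {m' n' : ℤ} (hm' : Odd m')
    (hn' : Odd n') (hvk : v ≠ k) {s₁ y₁ s₂ y₂ z : ℚ} {c : ℤ} (hc : Adm p c)
    (hP : At ((2 ^ v * m' : ℤ) • (g + g)) (s₁ ^ 2) y₁)
    (hQ : At ((2 ^ k * n' : ℤ) • (g + g)) (s₂ ^ 2) y₂)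
    (hz : c * z ^ 2 = s₂ ^ 2 - s₁ ^ 2) : False := by
  obtain ⟨s, N, T, sn, h1⟩ := hg.node k
  obtain ⟨s', N', T', sn', h2⟩ := hg.node v
  have h3 := case1_core hm' hn' hvk hP hQ hz h1
  have hz' : ((-c : ℤ) : ℚ) * z ^ 2 = s₁ ^ 2 - s₂ ^ 2 := by push_cast; linarith
  have h4 := case1_core hn' hm' hvk.symm hQ hP hz' h2
  rw [neg_neg] at h4
  rw [Symb.eq_of hc h2.symb h1.symb] at h4
  rw [h1.symb.neg] at h3
  rcases h1.symb.val hc with h5 | h5 <;> rw [h5] at h3 h4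
  · exact h3 rfl
  · exact h4 rfl

lemma case2_core {g : (E a p).Point} (hg : Gen a p g) {i j : ℕ} {a₁ b₁ : ℤ} (ha₁ : Odd a₁)
    (hb₁ : Odd b₁) (hij : i < j) {xA yA xB yB w : ℚ} {c : ℤ} (hc : Adm p c)
    (hA : At ((2 ^ i * a₁ : ℤ) • (g + g)) xA yA) (hB : At ((2 ^ j * b₁ : ℤ) • (g + g)) xB yB)
    (hw : c * w ^ 2 = -(yA * yB)) : False := by
  have hpar := hg.par
  have hgood := hpar.good
  obtain ⟨s₀, N₀, T₀, sn₀, hn₀⟩ := hg.node 0
  rw [pow_zero, one_zsmul] at hn₀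
  have ha₁0 : a₁ ≠ 0 := by rintro rfl; exact (by decide : ¬ Odd (0 : ℤ)) ha₁
  have hb₁0 : b₁ ≠ 0 := by rintro rfl; exact (by decide : ¬ Odd (0 : ℤ)) hb₁
  obtain ⟨SA, NA, TA, rA⟩ := hn₀.exists_rep (i := 2 ^ i * a₁) (by positivity)
  obtain ⟨SB, NB, TB, rB⟩ := hn₀.exists_rep (i := 2 ^ j * b₁) (by positivity)
  obtain ⟨-, hyA⟩ := rA.at'.unique hA
  obtain ⟨-, hyB⟩ := rB.at'.unique hB
  have hSBodd := rB.S_odd hpar
  have hpSB := rB.not_dvd_S hpar (Or.inl rfl)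
  -- key: no common prime
  have key : ∀ r : ℤ, Prime r → r ∣ SB → ¬ r ∣ SA * |TA| * NA := by
    intro r hr hrSB hrA
    have hl : r.natAbs.Prime := Int.prime_iff_natAbs_prime.mp hr
    have hfact : Fact (r.natAbs).Prime := ⟨hl⟩
    have h1 : ((r.natAbs : ℕ) : ℤ) ∣ SB := Int.natAbs_dvd.mpr hrSB
    have h2 : ((r.natAbs : ℕ) : ℤ) ∣ SA * |TA| * NA := Int.natAbs_dvd.mpr hrA
    generalize r.natAbs = l at *
    have hlp' : Prime (l : ℤ) := Nat.prime_iff_prime_int.mp hl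
    have hlp : ¬ (l : ℤ) ∣ p := by
      intro h3
      have h9 : Associated (l : ℤ) p := (hlp'.dvd_prime_iff_associated hpar.primep).mp h3
      exact hpSB (h9.symm.dvd.trans h1)
    have hBr : RedT l ((2 ^ j * b₁ : ℤ) • (g + g)) := (rB.redT_iff (Or.inl rfl) l).mpr h1
    have hH : InH l ((2 ^ i * a₁ : ℤ) • (g + g) + (2 ^ i * a₁ : ℤ) • (g + g)) := by
      by_cases hNA : NA % 2 = 1
      · obtain ⟨S', T', -, h3⟩ := rA.dbl_odd hpar (Or.inl rfl) (rA.S_odd hpar) hNA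
        exact (h3.inH_iff (Or.inl rfl) l).mpr h2
      · obtain ⟨T', h3⟩ := rA.dbl_even hpar (Or.inl rfl) (Or.inr (by omega))
        exact (h3.inH_iff (Or.inl rfl) l).mpr (h2.mul_left _)
    obtain ⟨d, hd⟩ : ∃ d, j = i + 1 + d := ⟨j - i - 1, by omega⟩
    have h4 := hH.zsmul (2 ^ d * b₁)
    have h5 : (2 ^ d * b₁ : ℤ) • ((2 ^ i * a₁ : ℤ) • (g + g) + (2 ^ i * a₁ : ℤ) • (g + g)) =
        a₁ • ((2 ^ j * b₁ : ℤ) • (g + g)) := by
      rw [← add_zsmul, ← mul_zsmul, ← mul_zsmul, hd]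
      congr 1
      rw [pow_add, pow_add]; ring
    rw [h5] at h4
    exact (hBr.odd_smul hgood hlp ha₁).not_inH h4
  -- `S_B` is coprime to everything else
  have hc2p : c ∣ 2 * p := by
    rcases hc with rfl | rfl | rfl | rfl | rfl | rfl | rfl | rfl
    · exact one_dvd _
    · exact ⟨-(2 * p), by ring⟩
    · exact dvd_mul_right _ _
    · exact ⟨-p, by ring⟩
    · exact dvd_mul_left _ _
    · exact ⟨-2, by ring⟩
    · exact dvd_rfl
    · exact ⟨-1, by ring⟩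
  have hcop1 : IsCoprime SB (2 * p) := by
    have h1 : IsCoprime SB 2 := ⟨1, -(SB / 2), by omega⟩
    exact h1.mul_right ((Irreducible.coprime_iff_not_dvd hpar.primep.irreducible).mpr hpSB).symm
  have hcopc : IsCoprime SB c := hcop1.of_isCoprime_of_dvd_right hc2p
  have hcopA : IsCoprime SB (SA * |TA| * NA) := by
    apply isCoprime_of_prime_dvd
    · rintro ⟨h0, -⟩
      have := rB.hS
      omega
    · exact key
  have hcopTA : IsCoprime SB (SA * TA * NA) := by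
    rcases abs_choice TA with h | h
    · rw [h] at hcopA; exact hcopA
    · rw [h] at hcopA
      have : SA * -TA * NA = -(SA * TA * NA) := by ring
      rw [this] at hcopA
      exact (IsCoprime.neg_right_iff _ _).mp hcopA
  have hcop : IsCoprime SB (-(c * (SA * TA * NA) * TB * NB)) :=
    (((hcopc.mul_right hcopTA).mul_right (rB.TS_coprime hpar)).mul_right rB.cop).neg_right
  have hNAq : (NA : ℚ) ≠ 0 := by exact_mod_cast rA.hN.ne'
  have hNBq : (NB : ℚ) ≠ 0 := by exact_mod_cast rB.hN.ne'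
  have hW : ((c : ℚ) * w * NA ^ 2 * NB ^ 2) ^ 2 =
      ((SB * (-(c * (SA * TA * NA) * TB * NB)) : ℤ) : ℚ) := by
    have h1 : ((c : ℚ) * w * NA ^ 2 * NB ^ 2) ^ 2 = c * (c * w ^ 2) * (NA ^ 4 * NB ^ 4) := by ring
    rw [h1, hw, ← hyA, ← hyB]
    push_cast
    field_simp
  obtain ⟨W, hW'⟩ := int_of_sq hW
  rw [hW'] at hW
  have hW2 : SB * (-(c * (SA * TA * NA) * TB * NB)) = W ^ 2 := by exact_mod_cast hW.symm
  obtain ⟨r, hr⟩ := Int.sq_of_gcd_eq_one (Int.isCoprime_iff_gcd_eq_one.mp hcop) hW2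
  have hr2 : SB = r ^ 2 := by
    rcases hr with h | h
    · exact h
    · have := rB.hS
      nlinarith [sq_nonneg r]
  obtain ⟨s, N, T, sn, hnode⟩ := hg.node (j - 1)
  have e1 : (2 ^ j * b₁ : ℤ) • (g + g) = (2 * b₁) • ((2 ^ (j - 1) : ℤ) • (g + g)) := by
    rw [← mul_zsmul]
    congr 1
    obtain ⟨d, rfl⟩ : ∃ d, j = d + 1 := ⟨j - 1, by omega⟩
    rw [Nat.add_sub_cancel, pow_succ]; ring
  rw [e1] at rB
  exact hnode.not_square hb₁ rB r hr2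

lemma int_two_pow {n : ℤ} (hn : n ≠ 0) : ∃ (k : ℕ) (m : ℤ), Odd m ∧ n = 2 ^ k * m := by
  obtain ⟨k, m, hm, h⟩ := Nat.exists_eq_two_pow_mul_odd (Int.natAbs_ne_zero.mpr hn)
  rcases Int.natAbs_eq n with h1 | h1
  · refine ⟨k, m, by exact_mod_cast hm, ?_⟩
    rw [h1, h]; push_cast; ring
  · refine ⟨k, -m, ?_, ?_⟩
    · have : Odd (m : ℤ) := by exact_mod_cast hm
      exact this.neg
    · rw [h1, h]; push_cast; ring

/-- A point of the quartic gives a multiple of `g + g`. -/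
lemma exists_mult {g : (E a p).Point} (hg : Gen a p g) {s t : ℚ} (h : t ^ 2 = s ^ 4 + a * s ^ 2 - p) :
    ∃ n : ℤ, n ≠ 0 ∧ At (n • (g + g)) (s ^ 2) (s * t) := by
  have hpar := hg.par
  have hs : s ≠ 0 := by
    rintro rfl
    have : (0 : ℚ) < p := by exact_mod_cast hpar.hp0
    nlinarith [sq_nonneg t]
  have heq : (s * t) ^ 2 = (s ^ 2) ^ 3 + a * (s ^ 2) ^ 2 - p * s ^ 2 := by
    rw [mul_pow, h]; ring
  obtain ⟨P, hP⟩ := exists_at hpar.good heq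
  obtain ⟨R, hR⟩ := half hpar.good hpar.hp0 hpar.hq hs hP
  obtain ⟨n, hn⟩ : ∃ n : ℤ, P = n • (g + g) := by
    obtain ⟨n, h | h⟩ := hg.gen R
    · exact ⟨n, by rw [← hR, h, zsmul_add]⟩
    · refine ⟨n, ?_⟩
      rw [← hR, h, zsmul_add, add_add_add_comm, T_add_T, add_zero]
  refine ⟨n, ?_, by rw [← hn]; exact hP⟩
  rintro rfl
  rw [zero_zsmul] at hn
  exact hP.ne_zero hn

lemma case2 {g : (E a p).Point} (hg : Gen a p g) {k : ℕ} {α β : ℤ} (hα : α ≠ 0) (hβ : β ≠ 0)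
    (hodd : Odd (α + β)) {xA yA xB yB w : ℚ} {c : ℤ} (hc : Adm p c)
    (hA : At ((2 ^ k * α : ℤ) • (g + g)) xA yA) (hB : At ((2 ^ k * β : ℤ) • (g + g)) xB yB)
    (hw : c * w ^ 2 = -(yA * yB)) : False := by
  obtain ⟨i, a₁, ha₁, rfl⟩ := int_two_pow hα
  obtain ⟨j, b₁, hb₁, rfl⟩ := int_two_pow hβ
  rw [← mul_assoc, ← pow_add] at hA hB
  rcases Nat.eq_zero_or_pos i with rfl | hi
  · rcases Nat.eq_zero_or_pos j with rfl | hj
    · rw [pow_zero, one_mul, one_mul] at hodd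
      exact (Int.not_odd_iff_even.mpr (ha₁.add_odd hb₁)) hodd
    · exact case2_core hg ha₁ hb₁ (by omega) hc hA hB hw
  · rcases Nat.eq_zero_or_pos j with rfl | hj
    · exact case2_core hg hb₁ ha₁ (by omega) hc hB hA (by rw [hw]; ring)
    · obtain ⟨i', rfl⟩ : ∃ i', i = i' + 1 := ⟨i - 1, by omega⟩
      obtain ⟨j', rfl⟩ : ∃ j', j = j' + 1 := ⟨j - 1, by omega⟩
      have : Even (2 ^ (i' + 1) * a₁ + 2 ^ (j' + 1) * b₁) :=
        ⟨2 ^ i' * a₁ + 2 ^ j' * b₁, by rw [pow_succ, pow_succ]; ring⟩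
      exact (Int.not_odd_iff_even.mpr this) hodd

/-- The arithmetic theorem. -/
theorem arith (hpar : Par a p) {u v w : ℤ} (hu : u % 2 = 1) (hv : v % 2 = 1)
    (hw : w ^ 2 = u ^ 4 + a * u ^ 2 * v ^ 2 - p * v ^ 4) {c : ℤ} (hc : Adm p c)
    {s₁ t₁ s₂ t₂ z : ℚ} (e₁ : t₁ ^ 2 = s₁ ^ 4 + a * s₁ ^ 2 - p)
    (e₂ : t₂ ^ 2 = s₂ ^ 4 + a * s₂ ^ 2 - p) (e₃ : c * z ^ 2 = s₂ ^ 2 - s₁ ^ 2) : z = 0 := by
  by_contra hz
  obtain ⟨g, hg⟩ := exists_gen hpar hu hv hw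
  obtain ⟨m, hm0, hP⟩ := exists_mult hg e₁
  obtain ⟨n, hn0, hQ⟩ := exists_mult hg e₂
  obtain ⟨i, m', hm', rfl⟩ := int_two_pow hm0
  obtain ⟨k, n', hn', rfl⟩ := int_two_pow hn0
  by_cases hik : i = k
  swap
  · exact case1 hg hm' hn' hik hc hP hQ e₃
  subst hik
  have hc0 : (c : ℚ) ≠ 0 := by
    have hp0 := hpar.hp0
    have : c ≠ 0 := by
      rcases hc with rfl | rfl | rfl | rfl | rfl | rfl | rfl | rfl <;> omega
    exact_mod_cast this
  have hne : s₂ ^ 2 ≠ s₁ ^ 2 := by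
    intro h
    rw [h, sub_self] at e₃
    rcases mul_eq_zero.mp e₃ with h1 | h1
    · exact hc0 h1
    · exact hz (by simpa using h1)
  obtain ⟨α, hα⟩ : ∃ α, n' + m' = 2 * α := by
    obtain ⟨x, hx⟩ := hn'.add_odd hm'
    exact ⟨x, by omega⟩
  obtain ⟨β, hβ⟩ : ∃ β, n' - m' = 2 * β := by
    obtain ⟨x, hx⟩ := hn'.sub_odd hm'
    exact ⟨x, by omega⟩
  have en : n' = α + β := by omega
  have em : m' = α - β := by omega
  have hQe : (2 ^ i * n' : ℤ) • (g + g) = (2 ^ i * α : ℤ) • (g + g) + (2 ^ i * β : ℤ) • (g + g) := by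
    rw [en, mul_add, add_zsmul]
  have hPe : (2 ^ i * m' : ℤ) • (g + g) = (2 ^ i * α : ℤ) • (g + g) - (2 ^ i * β : ℤ) • (g + g) := by
    rw [em, mul_sub, sub_zsmul, sub_eq_add_neg]
  have hβ0 : β ≠ 0 := by
    rintro rfl
    have : n' = m' := by omega
    rw [this] at hQ
    exact hne (hQ.unique hP).1
  have hα0 : α ≠ 0 := by
    rintro rfl
    have : n' = -m' := by omega
    rw [this, mul_neg, neg_zsmul] at hQ
    exact hne (hQ.unique hP.neg).1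
  have hodd : Odd (α + β) := by rw [← en]; exact hn'
  obtain ⟨s₀, N₀, T₀, sn₀, hn₀⟩ := hg.node 0
  rw [pow_zero, one_zsmul] at hn₀
  obtain ⟨SA, NA, TA, rA⟩ := hn₀.exists_rep (i := 2 ^ i * α) (by positivity)
  obtain ⟨SB, NB, TB, rB⟩ := hn₀.exists_rep (i := 2 ^ i * β) (by positivity)
  have hA := rA.at'
  have hB := rB.at'
  generalize ((1 : ℤ) : ℚ) * ((SA : ℚ) / NA) ^ 2 = xA at hA
  generalize (SA : ℚ) * TA / NA ^ 3 = yA at hA
  generalize ((1 : ℤ) : ℚ) * ((SB : ℚ) / NB) ^ 2 = xB at hB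
  generalize (SB : ℚ) * TB / NB ^ 3 = yB at hB
  have hx : xA ≠ xB := by
    intro h
    rw [h] at hA
    rcases hA.same_x hB with h1 | h1
    · rw [h1, sub_self] at hPe
      exact hP.ne_zero hPe
    · rw [h1, neg_add_cancel] at hQe
      exact hQ.ne_zero hQe
  obtain ⟨X, Y, X', Y', hX, hX', -, -, e4⟩ := hA.add_sub hB hx
  rw [← hQe] at hX
  rw [← hPe] at hX'
  obtain ⟨rfl, -⟩ := hX.unique hQ
  obtain ⟨rfl, -⟩ := hX'.unique hP
  refine case2 (w := z * (xA - xB) / 2) hg hα0 hβ0 hodd hc hA hB ?_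
  have h5 : (c : ℚ) * (z * (xA - xB) / 2) ^ 2 = (c * z ^ 2) * (xA - xB) ^ 2 / 4 := by ring
  rw [h5, e₃, e4]
  ring

end

end Pool.Agent.Helper11
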