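import Pool.Agent.Helper11.Gen

/-!
# The product formulas for `P + Q` and `P - Q`
-/

namespace Pool.Agent.Helper11

open WeierstrassCurve

section
variable {a p : ℤ}

lemma RepAt.neg {e : ℤ} {P : (E a p).Point} {S N T : ℤ} (h : RepAt a p e P S N T) :
    RepAt a p e (-P) S N (-T) := by
  refine ⟨h.hS, h.hN, h.cop, ?_, ?_⟩
  · rw [neg_sq]; exact h.eqn
  · have h1 := h.at'.neg
    have : (S : ℚ) * ((-T : ℤ) : ℚ) / N ^ 3 = -((S : ℚ) * T / N ^ 3) := by push_cast; ring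
    rw [this]; exact h1

/-- No prime divides both `T` and `S`. -/
lemma RepAt.TS_coprime (hpar : Par a p) {P : (E a p).Point} {S N T : ℤ}
    (h : RepAt a p 1 P S N T) : IsCoprime S T := by
  have h4 : IsCoprime S p :=
    ((Irreducible.coprime_iff_not_dvd hpar.primep.irreducible).mpr
      (h.not_dvd_S hpar (Or.inl rfl))).symm
  have h1 : IsCoprime S (-(p * N ^ 4)) := (h4.mul_right h.cop.pow_right).neg_right
  have h2 : IsCoprime S (T ^ 2) := by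
    rw [h.eqn]
    have : 1 * (S ^ 4 - p * N ^ 4) + a * S ^ 2 * N ^ 2 =
      -(p * N ^ 4) + S * (S ^ 3 + a * S * N ^ 2) := by ring
    rw [this]
    exact h1.add_mul_left_right _
  exact (IsCoprime.pow_right_iff (by norm_num)).mp h2

lemma eq_one_of_primes {κ : ℤ} (h0 : 0 < κ) (hodd : κ % 2 = 1) (h : ∀ r : ℤ, Prime r → r ∣ κ → r ∣ 2) :
    κ = 1 := by
  by_contra hcon
  have h1 : κ.natAbs ≠ 1 := by omega
  obtain ⟨r, hr, hrκ⟩ := Int.exists_prime_and_dvd h1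
  have h2 := h r hr hrκ
  have h3 : IsCoprime κ 2 := ⟨1, -(κ / 2), by omega⟩
  exact hr.not_isUnit (h3.isUnit_of_dvd' hrκ h2)

lemma gcd_step {n0 d0 m0 U V W : ℤ} (hd : d0 ≠ 0) (e1 : n0 * V = U * d0)
    (e2 : m0 * V ^ 2 = W * d0 ^ 2) (hprim : ∀ r : ℤ, Prime r → r ∣ n0 → r ∣ d0 → ¬ r ∣ m0) :
    ∃ κ : ℤ, U = κ * n0 ∧ V = κ * d0 ∧ W = κ ^ 2 * m0 := by
  obtain ⟨g, n1, d1, hg, hcop, hn, hdd⟩ : ∃ g n1 d1 : ℤ, g ≠ 0 ∧ IsCoprime n1 d1 ∧ n0 = g * n1 ∧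
      d0 = g * d1 := by
    have hgpos : 0 < Int.gcd n0 d0 := Int.gcd_pos_of_ne_zero_right _ hd
    obtain ⟨n1, d1, hc, hn, hdd⟩ := Int.exists_gcd_one hgpos
    refine ⟨Int.gcd n0 d0, n1, d1, by omega, Int.isCoprime_iff_gcd_eq_one.mpr hc, ?_, ?_⟩
    · rw [mul_comm]; exact hn
    · rw [mul_comm]; exact hdd
  have hd1 : d1 ≠ 0 := by rintro rfl; apply hd; rw [hdd]; ring
  have e3 : n1 * V = U * d1 := by
    have : g * (n1 * V) = g * (U * d1) := by rw [hn, hdd] at e1; linear_combination e1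
    exact mul_left_cancel₀ hg this
  have h1 : d1 ∣ V := hcop.symm.dvd_of_dvd_mul_left ⟨U, by rw [e3]; ring⟩
  obtain ⟨v, hv⟩ := h1
  have e4 : U = n1 * v := by
    have : d1 * U = d1 * (n1 * v) := by rw [hv] at e3; linear_combination -e3
    exact mul_left_cancel₀ hd1 this
  have e5 : m0 * v ^ 2 = W * g ^ 2 := by
    have : d1 ^ 2 * (m0 * v ^ 2) = d1 ^ 2 * (W * g ^ 2) := by
      rw [hv, hdd] at e2; linear_combination e2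
    exact mul_left_cancel₀ (pow_ne_zero 2 hd1) this
  have hcop2 : IsCoprime g m0 := by
    apply isCoprime_of_prime_dvd
    · rintro ⟨h, -⟩; exact hg h
    · intro r hr hrg
      apply hprim r hr
      · rw [hn]; exact hrg.mul_right _
      · rw [hdd]; exact hrg.mul_right _
  have h2 : g ^ 2 ∣ v ^ 2 := by
    apply (hcop2.pow_left (m := 2)).dvd_of_dvd_mul_left
    rw [e5]; exact dvd_mul_left _ _
  obtain ⟨κ, hκ⟩ := (Int.pow_dvd_pow_iff (by norm_num)).mp h2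
  refine ⟨κ, ?_, ?_, ?_⟩
  · rw [e4, hκ, hn]; ring
  · rw [hv, hκ, hdd]; ring
  · have : g ^ 2 * W = g ^ 2 * (κ ^ 2 * m0) := by rw [hκ] at e5; linear_combination -e5
    exact mul_left_cancel₀ (pow_ne_zero 2 hg) this

lemma odd_sq_mod8 {m : ℤ} (h : m % 2 = 1) : m ^ 2 % 8 = 1 := by
  have : m % 8 = 1 ∨ m % 8 = 3 ∨ m % 8 = 5 ∨ m % 8 = 7 := by omega
  rcases this with h | h | h | h <;> simp [pow_two, Int.mul_emod, h]

lemma even_sq_mod4 {m : ℤ} (h : m % 2 = 0) : m ^ 2 % 4 = 0 := by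
  obtain ⟨k, rfl⟩ : ∃ k, m = 2 * k := ⟨m / 2, by omega⟩
  have : (2 * k) ^ 2 = 4 * k ^ 2 := by ring
  omega

theorem prod_rep (hpar : Par a p) {P₁ P₂ : (E a p).Point} {S₁ N₁ T₁ S₂ N₂ T₂ Sp Np Tp Sm Nm Tm : ℤ}
    (h₁ : RepAt a p 1 P₁ S₁ N₁ T₁) (h₂ : RepAt a p 1 P₂ S₂ N₂ T₂)
    (hp : RepAt a p 1 (P₁ + P₂) Sp Np Tp) (hm : RepAt a p 1 (P₁ - P₂) Sm Nm Tm) :
    ∃ κ : ℤ, (κ = if N₁ % 2 = 1 ∧ N₂ % 2 = 1 then 2 else 1) ∧
      S₁ ^ 2 * S₂ ^ 2 + p * N₁ ^ 2 * N₂ ^ 2 = κ * (Sp * Sm) ∧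
      |S₁ ^ 2 * N₂ ^ 2 - S₂ ^ 2 * N₁ ^ 2| = κ * (Np * Nm) := by
  have hp0 := hpar.hp0
  have hp8 := hpar.hp8
  have hS₁ := h₁.hS
  have hN₁ := h₁.hN
  have hS₂ := h₂.hS
  have hN₂ := h₂.hN
  have hSp := hp.hS
  have hNp := hp.hN
  have hSm := hm.hS
  have hNm := hm.hN
  have hS₁q : (0 : ℚ) < S₁ := by exact_mod_cast hS₁
  have hN₁q : (0 : ℚ) < N₁ := by exact_mod_cast hN₁
  have hS₂q : (0 : ℚ) < S₂ := by exact_mod_cast hS₂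
  have hN₂q : (0 : ℚ) < N₂ := by exact_mod_cast hN₂
  have hSpq : (0 : ℚ) < Sp := by exact_mod_cast hSp
  have hNpq : (0 : ℚ) < Np := by exact_mod_cast hNp
  have hSmq : (0 : ℚ) < Sm := by exact_mod_cast hSm
  have hNmq : (0 : ℚ) < Nm := by exact_mod_cast hNm
  have hx : ((1 : ℤ) : ℚ) * ((S₁ : ℚ) / N₁) ^ 2 ≠ ((1 : ℤ) : ℚ) * ((S₂ : ℚ) / N₂) ^ 2 := by
    intro h
    have h3 := h₁.at'
    rw [h] at h3
    rcases h3.same_x h₂.at' with h4 | h4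
    · apply hm.ne_zero; rw [h4, sub_self]
    · apply hp.ne_zero; rw [h4, neg_add_cancel]
  obtain ⟨X, Y, X', Y', hX, hX', e1, e2, -⟩ := h₁.at'.add_sub h₂.at' hx
  obtain ⟨rfl, -⟩ := hp.at'.unique hX
  obtain ⟨rfl, -⟩ := hm.at'.unique hX'
  obtain ⟨U, hU⟩ : ∃ U, U = S₁ ^ 2 * S₂ ^ 2 + p * N₁ ^ 2 * N₂ ^ 2 := ⟨_, rfl⟩
  obtain ⟨V₀, hV₀⟩ : ∃ V₀, V₀ = S₁ ^ 2 * N₂ ^ 2 - S₂ ^ 2 * N₁ ^ 2 := ⟨_, rfl⟩
  obtain ⟨W, hW⟩ : ∃ W, W = 2 * ((S₁ ^ 2 * S₂ ^ 2 - p * N₁ ^ 2 * N₂ ^ 2) *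
    (S₁ ^ 2 * N₂ ^ 2 + S₂ ^ 2 * N₁ ^ 2) + 2 * a * S₁ ^ 2 * S₂ ^ 2 * N₁ ^ 2 * N₂ ^ 2) := ⟨_, rfl⟩
  have hV₀ne : V₀ ≠ 0 := by
    intro h0
    apply hx
    rw [hV₀] at h0
    have h0q : (S₁ : ℚ) ^ 2 * N₂ ^ 2 - S₂ ^ 2 * N₁ ^ 2 = 0 := by exact_mod_cast h0
    rw [div_pow, div_pow]
    congr 1
    rw [div_eq_div_iff (by positivity) (by positivity)]
    linarith
  have hUpos : 0 < U := by rw [hU]; positivity
  -- first relation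
  have r1 : (Sp * Sm * V₀) ^ 2 = (U * (Np * Nm)) ^ 2 := by
    have h3 : ((Sp : ℚ) * Sm * V₀) ^ 2 = (U * (Np * Nm)) ^ 2 := by
      have h4 := congrArg (fun t : ℚ => t * ((Np : ℚ) * Nm * ((N₁ : ℚ) ^ 2 * N₂ ^ 2)) ^ 2) e1
      rw [hV₀, hU]
      push_cast at h4 ⊢
      field_simp at h4
      linear_combination h4
    exact_mod_cast h3
  have r2 : (Sp ^ 2 * Nm ^ 2 + Sm ^ 2 * Np ^ 2) * V₀ ^ 2 = W * (Np * Nm) ^ 2 := by
    have h3 : ((Sp : ℚ) ^ 2 * Nm ^ 2 + Sm ^ 2 * Np ^ 2) * V₀ ^ 2 = W * (Np * Nm) ^ 2 := by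
      have h4 := congrArg (fun t : ℚ => t * ((Np : ℚ) * Nm * ((N₁ : ℚ) ^ 2 * N₂ ^ 2)) ^ 2) e2
      rw [hV₀, hW]
      push_cast at h4 ⊢
      field_simp at h4
      linear_combination h4
    exact_mod_cast h3
  have r1' : (Sp * Sm) * |V₀| = U * (Np * Nm) := by
    have h3 : ((Sp * Sm) * |V₀|) ^ 2 = (U * (Np * Nm)) ^ 2 := by
      rw [mul_pow, sq_abs, ← r1]; ring
    exact (pow_left_inj₀ (by positivity) (by positivity) two_ne_zero).mp h3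
  have r2' : (Sp ^ 2 * Nm ^ 2 + Sm ^ 2 * Np ^ 2) * |V₀| ^ 2 = W * (Np * Nm) ^ 2 := by
    rw [sq_abs]; exact r2
  have hprim : ∀ r : ℤ, Prime r → r ∣ Sp * Sm → r ∣ Np * Nm →
      ¬ r ∣ Sp ^ 2 * Nm ^ 2 + Sm ^ 2 * Np ^ 2 := by
    intro r hr h3 h4 h5
    have c1 : ¬ (r ∣ Sp ∧ r ∣ Np) := fun h => hr.not_isUnit (hp.cop.isUnit_of_dvd' h.1 h.2)
    have c2 : ¬ (r ∣ Sm ∧ r ∣ Nm) := fun h => hr.not_isUnit (hm.cop.isUnit_of_dvd' h.1 h.2)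
    rcases hr.dvd_or_dvd h3 with h6 | h6 <;> rcases hr.dvd_or_dvd h4 with h7 | h7
    · exact c1 ⟨h6, h7⟩
    · have h8 : r ∣ Sm ^ 2 * Np ^ 2 := by
        have : Sm ^ 2 * Np ^ 2 = (Sp ^ 2 * Nm ^ 2 + Sm ^ 2 * Np ^ 2) - Sp * (Sp * Nm ^ 2) := by ring
        rw [this]; exact dvd_sub h5 (h6.mul_right _)
      rcases hr.dvd_or_dvd h8 with h9 | h9
      · exact c2 ⟨hr.dvd_of_dvd_pow h9, h7⟩
      · exact c1 ⟨h6, hr.dvd_of_dvd_pow h9⟩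
    · have h8 : r ∣ Sp ^ 2 * Nm ^ 2 := by
        have : Sp ^ 2 * Nm ^ 2 = (Sp ^ 2 * Nm ^ 2 + Sm ^ 2 * Np ^ 2) - Sm * (Sm * Np ^ 2) := by ring
        rw [this]; exact dvd_sub h5 (h6.mul_right _)
      rcases hr.dvd_or_dvd h8 with h9 | h9
      · exact c1 ⟨hr.dvd_of_dvd_pow h9, h7⟩
      · exact c2 ⟨h6, hr.dvd_of_dvd_pow h9⟩
    · exact c2 ⟨h6, h7⟩
  obtain ⟨κ, k1, k2, k3⟩ := gcd_step (by positivity) r1' r2' hprim
  have hκpos : 0 < κ := by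
    have h3 : 0 < κ * (Sp * Sm) := by rw [← k1]; exact hUpos
    exact (mul_pos_iff_of_pos_right (by positivity)).mp h3
  have hκV : κ ∣ V₀ := by
    rw [← dvd_abs]; exact ⟨_, k2⟩
  have hprimes : ∀ r : ℤ, Prime r → r ∣ κ → r ∣ 2 := by
    intro r hr hrκ
    have d1 : r ∣ U := hrκ.trans ⟨_, k1⟩
    have d2 : r ∣ V₀ := hrκ.trans hκV
    have d3 : r ∣ W := by rw [k3]; exact (hrκ.trans (dvd_pow_self κ two_ne_zero)).mul_right _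
    have n1 : ¬ r ∣ N₁ := by
      intro h3
      have h4 : r ∣ S₁ ^ 2 * N₂ ^ 2 := by
        have : S₁ ^ 2 * N₂ ^ 2 = V₀ + N₁ * (S₂ ^ 2 * N₁) := by rw [hV₀]; ring
        rw [this]; exact dvd_add d2 (h3.mul_right _)
      have h5 : r ∣ S₁ ^ 2 * S₂ ^ 2 := by
        have : S₁ ^ 2 * S₂ ^ 2 = U - N₁ * (p * N₁ * N₂ ^ 2) := by rw [hU]; ring
        rw [this]; exact dvd_sub d1 (h3.mul_right _)
      have h6 : ¬ r ∣ S₁ ^ 2 := fun h => hr.not_isUnit (h₁.cop.isUnit_of_dvd' (hr.dvd_of_dvd_pow h) h3)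
      have h7 := hr.dvd_of_dvd_pow ((hr.dvd_or_dvd h4).resolve_left h6)
      have h8 := hr.dvd_of_dvd_pow ((hr.dvd_or_dvd h5).resolve_left h6)
      exact hr.not_isUnit (h₂.cop.isUnit_of_dvd' h8 h7)
    have n2 : ¬ r ∣ N₂ := by
      intro h3
      have h4 : r ∣ S₂ ^ 2 * N₁ ^ 2 := by
        have : S₂ ^ 2 * N₁ ^ 2 = N₂ * (S₁ ^ 2 * N₂) - V₀ := by rw [hV₀]; ring
        rw [this]; exact dvd_sub (h3.mul_right _) d2
      have h5 : r ∣ S₂ ^ 2 * S₁ ^ 2 := by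
        have : S₂ ^ 2 * S₁ ^ 2 = U - N₂ * (p * N₁ ^ 2 * N₂) := by rw [hU]; ring
        rw [this]; exact dvd_sub d1 (h3.mul_right _)
      have h6 : ¬ r ∣ S₂ ^ 2 := fun h => hr.not_isUnit (h₂.cop.isUnit_of_dvd' (hr.dvd_of_dvd_pow h) h3)
      have h7 := hr.dvd_of_dvd_pow ((hr.dvd_or_dvd h4).resolve_left h6)
      have h8 := hr.dvd_of_dvd_pow ((hr.dvd_or_dvd h5).resolve_left h6)
      exact hr.not_isUnit (h₁.cop.isUnit_of_dvd' h8 h7)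
    have d4 : r ∣ S₁ ^ 4 + p * N₁ ^ 4 := by
      have h3 : r ∣ N₂ ^ 2 * (S₁ ^ 4 + p * N₁ ^ 4) := by
        have : N₂ ^ 2 * (S₁ ^ 4 + p * N₁ ^ 4) = V₀ * S₁ ^ 2 + U * N₁ ^ 2 := by rw [hV₀, hU]; ring
        rw [this]; exact dvd_add (d2.mul_right _) (d1.mul_right _)
      exact (hr.dvd_or_dvd h3).resolve_left (fun h => n2 (hr.dvd_of_dvd_pow h))
    have d5 : r ∣ 4 * p * N₁ ^ 2 * N₂ ^ 4 * (2 * S₁ ^ 2 + a * N₁ ^ 2) := by
      have : 4 * p * N₁ ^ 2 * N₂ ^ 4 * (2 * S₁ ^ 2 + a * N₁ ^ 2) =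
        U * (2 * (S₁ ^ 2 * N₂ ^ 2 + S₂ ^ 2 * N₁ ^ 2) + 4 * a * N₁ ^ 2 * N₂ ^ 2) +
          V₀ * (4 * p * N₁ ^ 2 * N₂ ^ 2) - W := by
        rw [hU, hV₀, hW]; ring
      rw [this]
      exact dvd_sub (dvd_add (d1.mul_right _) (d2.mul_right _)) d3
    rcases hr.dvd_or_dvd d5 with h3 | h3
    · rcases hr.dvd_or_dvd h3 with h4 | h4
      · rcases hr.dvd_or_dvd h4 with h5 | h5
        · rcases hr.dvd_or_dvd h5 with h6 | h6
          · have : (4 : ℤ) = 2 ^ 2 := by norm_num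
            rw [this] at h6
            exact hr.dvd_of_dvd_pow h6
          · exfalso
            have h7 : r ∣ S₁ ^ 4 := by
              have : S₁ ^ 4 = (S₁ ^ 4 + p * N₁ ^ 4) - p * N₁ ^ 4 := by ring
              rw [this]; exact dvd_sub d4 (h6.mul_right _)
            have h8 := hr.dvd_of_dvd_pow h7
            have h9 : Associated r p := (hr.dvd_prime_iff_associated hpar.primep).mp h6
            exact h₁.not_dvd_S hpar (Or.inl rfl) (h9.symm.dvd.trans h8)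
        · exact absurd (hr.dvd_of_dvd_pow h5) n1
      · exact absurd (hr.dvd_of_dvd_pow h4) n2
    · exfalso
      have h4 : r ∣ T₁ ^ 2 := by
        have : T₁ ^ 2 = (2 * S₁ ^ 2 + a * N₁ ^ 2) * S₁ ^ 2 - (S₁ ^ 4 + p * N₁ ^ 4) := by
          rw [h₁.eqn]; ring
        rw [this]; exact dvd_sub (h3.mul_right _) d4
      exact hr.not_isUnit
        ((h₁.T_coprime hpar (Or.inl rfl)).isUnit_of_dvd' (hr.dvd_of_dvd_pow h4) d4)
  have o1 := odd_sq_mod8 (h₁.S_odd hpar)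
  have o2 := odd_sq_mod8 (h₂.S_odd hpar)
  have o3 := hp.S_odd hpar
  have o4 := hm.S_odd hpar
  have o5 : (Sp * Sm) % 2 = 1 := by simp [Int.mul_emod, o3, o4]
  refine ⟨κ, ?_, hU ▸ k1, hV₀ ▸ k2⟩
  have q1 : (S₁ ^ 2 * S₂ ^ 2) % 4 = 1 := by
    have h3 : S₁ ^ 2 % 4 = 1 := by omega
    have h4 : S₂ ^ 2 % 4 = 1 := by omega
    simp [Int.mul_emod, h3, h4]
  have q2 : p % 4 = 1 := by omega
  by_cases hNN : N₁ % 2 = 1 ∧ N₂ % 2 = 1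
  · rw [if_pos hNN]
    have h3 := odd_sq_mod8 hNN.1
    have h4 := odd_sq_mod8 hNN.2
    have h5 : (p * N₁ ^ 2 * N₂ ^ 2) % 4 = 1 := by
      have h3 : N₁ ^ 2 % 4 = 1 := by omega
      have h4 : N₂ ^ 2 % 4 = 1 := by omega
      simp [Int.mul_emod, h3, h4, q2]
    have h6 : (κ * (Sp * Sm)) % 4 = 2 := by rw [← k1, hU]; omega
    have h7 : κ % 4 = 2 := by
      have h8 : (Sp * Sm) % 4 = 1 ∨ (Sp * Sm) % 4 = 3 := by omega
      have h9 : κ % 4 = 0 ∨ κ % 4 = 1 ∨ κ % 4 = 2 ∨ κ % 4 = 3 := by omega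
      rcases h9 with h9 | h9 | h9 | h9 <;> rcases h8 with h8 | h8 <;>
        (rw [Int.mul_emod, h8, h9] at h6; omega)
    obtain ⟨κ', hκ'⟩ : ∃ κ', κ = 2 * κ' := ⟨κ / 2, by omega⟩
    have : κ' = 1 := by
      apply eq_one_of_primes (by omega) (by omega)
      intro r hr hrκ
      exact hprimes r hr (by rw [hκ']; exact hrκ.mul_left _)
    omega
  · rw [if_neg hNN]
    have h5 : (p * N₁ ^ 2 * N₂ ^ 2) % 4 = 0 := by
      have h6 : N₁ % 2 = 0 ∨ N₂ % 2 = 0 := by omega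
      rcases h6 with h6 | h6
      · have := even_sq_mod4 h6
        simp [Int.mul_emod, this]
      · have := even_sq_mod4 h6
        simp [Int.mul_emod, this]
    have h6 : (κ * (Sp * Sm)) % 4 = 1 := by rw [← k1, hU]; omega
    apply eq_one_of_primes hκpos _ hprimes
    by_contra h7
    have h8 : κ % 2 = 0 := by omega
    have h9 : (κ * (Sp * Sm)) % 2 = 0 := by simp [Int.mul_emod, h8]
    omega

end

end Pool.Agent.Helper11
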