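import Pool.Agent.Helper11.Descent

/-!
# Integer representation of points with abscissa `± □` and the doubling formula
-/

namespace Pool.Agent.Helper11

/-- Standing assumptions on the parameters. -/
structure Par (a p : ℤ) : Prop where
  hp : (p.natAbs).Prime
  hp0 : 0 < p
  hp8 : p % 8 = 5
  hq : ((a ^ 2 + 4 * p).natAbs).Prime

section
variable {a p : ℤ}

lemma Par.primep (h : Par a p) : Prime p := Int.prime_iff_natAbs_prime.mpr h.hp

lemma Par.primeq (h : Par a p) : Prime (a ^ 2 + 4 * p) := Int.prime_iff_natAbs_prime.mpr h.hq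

lemma Par.good (h : Par a p) : Good a p := ⟨h.hp0.ne', by have := h.hp0; positivity⟩

lemma Par.aodd (h : Par a p) : a % 2 = 1 := by
  by_contra hcon
  have h0 : a % 2 = 0 := by omega
  obtain ⟨b, rfl⟩ : ∃ b, a = 2 * b := ⟨a / 2, by omega⟩
  have hq := h.primeq
  have h4 : (2 * b) ^ 2 + 4 * p = 2 * (2 * (b ^ 2 + p)) := by ring
  rw [h4] at hq
  rcases (hq.irreducible.isUnit_or_isUnit rfl) with h1 | h1
  · exact absurd (Int.isUnit_iff.mp h1) (by norm_num)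
  · have h2 := Int.isUnit_iff.mp h1
    rcases h2 with h2 | h2 <;> omega

/-- `P` has coordinates `ε (S/N)²`, `S T / N³`. -/
structure RepAt (a p e : ℤ) (P : (E a p).Point) (S N T : ℤ) : Prop where
  hS : 0 < S
  hN : 0 < N
  cop : IsCoprime S N
  eqn : T ^ 2 = e * (S ^ 4 - p * N ^ 4) + a * S ^ 2 * N ^ 2
  at' : At P (e * ((S : ℚ) / N) ^ 2) (S * T / N ^ 3)

lemma rep_of {e : ℤ} (he : e = 1 ∨ e = -1) {P : (E a p).Point} {S N : ℤ} {y : ℚ} (hS0 : 0 < S)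
    (hN0 : 0 < N) (hcop : IsCoprime S N) (h : At P (e * ((S : ℚ) / N) ^ 2) y) :
    ∃ T, RepAt a p e P S N T := by
  have heq := h.eqn
  have he2 : (e : ℚ) ^ 2 = 1 := by rcases he with rfl | rfl <;> norm_num
  have hNq : (N : ℚ) ≠ 0 := by exact_mod_cast hN0.ne'
  have hSq : (S : ℚ) ≠ 0 := by exact_mod_cast hS0.ne'
  have h1 : (y * N ^ 3 / S) ^ 2 =
      ((e * (S ^ 4 - p * N ^ 4) + a * S ^ 2 * N ^ 2 : ℤ) : ℚ) := by
    rw [div_pow, mul_pow, heq]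
    push_cast
    field_simp
    have e4 : (e : ℚ) ^ 3 = e := by rw [pow_succ, he2, one_mul]
    linear_combination (S : ℚ) ^ 4 * e4 + (a : ℚ) * S ^ 2 * N ^ 2 * he2
  obtain ⟨T, hT⟩ := int_of_sq h1
  refine ⟨T, hS0, hN0, hcop, ?_, ?_⟩
  · have := h1
    rw [hT] at this
    exact_mod_cast this
  · have : (S : ℚ) * T / N ^ 3 = y := by
      rw [← hT]; field_simp
    rw [this]
    exact h

lemma rep_exists {e : ℤ} (he : e = 1 ∨ e = -1) {P : (E a p).Point} {s y : ℚ} (hs : s ≠ 0)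
    (h : At P (e * s ^ 2) y) :
    ∃ S N T : ℤ, RepAt a p e P S N T ∧ S = |s.num| ∧ N = s.den := by
  have hS0 : 0 < |s.num| := abs_pos.mpr (Rat.num_ne_zero.mpr hs)
  have hN0 : 0 < (s.den : ℤ) := by exact_mod_cast s.den_pos
  have habs : ((|s.num| : ℤ) : ℚ) / ((s.den : ℤ) : ℚ) = |s| := by
    push_cast
    conv_rhs => rw [← Rat.num_div_den s]
    rw [abs_div]
    congr 1
    rw [abs_of_pos]
    exact_mod_cast s.den_pos
  have hss : (((|s.num| : ℤ) : ℚ) / ((s.den : ℤ) : ℚ)) ^ 2 = s ^ 2 := by rw [habs, sq_abs]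
  have hcop : IsCoprime (|s.num|) (s.den : ℤ) := by
    have : IsCoprime s.num (s.den : ℤ) :=
      Int.isCoprime_iff_gcd_eq_one.mpr (by simpa [Int.gcd] using s.reduced)
    rcases abs_choice s.num with h1 | h1 <;> rw [h1]
    · exact this
    · exact this.neg_left
  rw [← hss] at h
  obtain ⟨T, hT⟩ := rep_of he hS0 hN0 hcop h
  exact ⟨_, _, T, hT, rfl, rfl⟩

variable {e : ℤ} {P : (E a p).Point} {S N T : ℤ}

lemma RepAt.not_dvd_S (hpar : Par a p) (he : e = 1 ∨ e = -1) (h : RepAt a p e P S N T) :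
    ¬ p ∣ S := by
  rintro ⟨S', rfl⟩
  have hpr := hpar.primep
  have h1 := h.eqn
  have h2 : p ∣ T ^ 2 := by
    rw [h1]
    exact ⟨e * (p ^ 3 * S' ^ 4 - N ^ 4) + a * p * S' ^ 2 * N ^ 2, by ring⟩
  obtain ⟨T', rfl⟩ := hpr.dvd_of_dvd_pow h2
  have h3 : p * (p * (T' ^ 2 - e * p ^ 2 * S' ^ 4 - a * S' ^ 2 * N ^ 2)) = p * (-(e * N ^ 4)) := by
    linear_combination h1
  have h4 := mul_left_cancel₀ hpr.ne_zero h3
  have h5 : p ∣ N ^ 4 := by
    rcases he with rfl | rfl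
    · exact ⟨-(T' ^ 2 - 1 * p ^ 2 * S' ^ 4 - a * S' ^ 2 * N ^ 2), by linarith⟩
    · exact ⟨(T' ^ 2 - -1 * p ^ 2 * S' ^ 4 - a * S' ^ 2 * N ^ 2), by linarith⟩
  have h6 := hpr.dvd_of_dvd_pow h5
  have h7 := h.cop.isUnit_of_dvd' (Dvd.intro _ rfl) h6
  exact hpr.not_isUnit h7

lemma RepAt.Todd (hpar : Par a p) (he : e = 1 ∨ e = -1) (h : RepAt a p e P S N T) :
    T % 2 = 1 := by
  have ha := hpar.aodd
  have hp8 := hpar.hp8
  have hpodd : p % 2 = 1 := by omega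
  have h1 := h.eqn
  have hSN : ¬ (S % 2 = 0 ∧ N % 2 = 0) := by
    rintro ⟨h2, h3⟩
    have := h.cop.isUnit_of_dvd' (Int.dvd_of_emod_eq_zero h2) (Int.dvd_of_emod_eq_zero h3)
    rw [Int.isUnit_iff] at this
    omega
  by_contra hcon
  have hT : T % 2 = 0 := by omega
  have h2 : (T ^ 2) % 2 = (e * (S ^ 4 - p * N ^ 4) + a * S ^ 2 * N ^ 2) % 2 := by rw [h1]
  have hS2 : S % 2 = 0 ∨ S % 2 = 1 := by omega
  have hN2 : N % 2 = 0 ∨ N % 2 = 1 := by omega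
  rcases he with rfl | rfl <;> rcases hS2 with hS | hS <;> rcases hN2 with hN | hN <;>
    first
    | exact hSN ⟨hS, hN⟩
    | (simp [pow_succ, Int.mul_emod, Int.add_emod, Int.sub_emod, hS, hN, ha, hpodd, hT] at h2)

/-- No prime divides both `T` and `S⁴ + p N⁴`. -/
lemma RepAt.T_coprime (hpar : Par a p) (he : e = 1 ∨ e = -1) (h : RepAt a p e P S N T) :
    IsCoprime T (S ^ 4 + p * N ^ 4) := by
  have h1 := h.eqn
  have he2 : e ^ 2 = 1 := by rcases he with rfl | rfl <;> norm_num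
  have hp0 := hpar.hp0
  have hS := h.hS
  have hN := h.hN
  apply isCoprime_of_prime_dvd
  · rintro ⟨-, h2⟩
    have : 0 < S ^ 4 + p * N ^ 4 := by positivity
    omega
  intro r hr hrT hrF
  have hrN : ¬ r ∣ N := by
    intro h2
    have h3 : r ∣ S ^ 4 := by
      have : S ^ 4 = (S ^ 4 + p * N ^ 4) - N * (p * N ^ 3) := by ring
      rw [this]
      exact dvd_sub hrF (h2.mul_right _)
    exact hr.not_isUnit (h.cop.isUnit_of_dvd' (hr.dvd_of_dvd_pow h3) h2)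
  have h2 : r ∣ N ^ 2 * (a * S ^ 2 - 2 * e * p * N ^ 2) := by
    have : N ^ 2 * (a * S ^ 2 - 2 * e * p * N ^ 2) = T * T - (S ^ 4 + p * N ^ 4) * e := by
      linear_combination -h1
    rw [this]
    exact dvd_sub (hrT.mul_right _) (hrF.mul_right _)
  have h3 : r ∣ a * S ^ 2 - 2 * e * p * N ^ 2 := by
    rcases hr.dvd_or_dvd h2 with h4 | h4
    · exact absurd (hr.dvd_of_dvd_pow h4) hrN
    · exact h4
  have h4 : r ∣ (p * (a ^ 2 + 4 * p)) * N ^ 4 := by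
    have : (p * (a ^ 2 + 4 * p)) * N ^ 4 = (S ^ 4 + p * N ^ 4) * a ^ 2 -
        (a * S ^ 2 - 2 * e * p * N ^ 2) * (a * S ^ 2 + 2 * e * p * N ^ 2) := by
      linear_combination (-4 * p ^ 2 * N ^ 4) * he2
    rw [this]
    exact dvd_sub (hrF.mul_right _) (h3.mul_right _)
  rcases hr.dvd_or_dvd h4 with h5 | h5
  · rcases hr.dvd_or_dvd h5 with h6 | h6
    · have h7 : r ∣ S ^ 4 := by
        have : S ^ 4 = (S ^ 4 + p * N ^ 4) - p * N ^ 4 := by ring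
        rw [this]
        exact dvd_sub hrF (h6.mul_right _)
      have h8 := hr.dvd_of_dvd_pow h7
      have h9 : Associated r p := (hr.dvd_prime_iff_associated hpar.primep).mp h6
      exact h.not_dvd_S hpar he (h9.symm.dvd.trans h8)
    · have hqp := hpar.primeq
      have h9 : Associated r (a ^ 2 + 4 * p) := (hr.dvd_prime_iff_associated hqp).mp h6
      obtain ⟨T', hT'⟩ := h9.symm.dvd.trans hrT
      have h10 : (2 * S ^ 2 + e * a * N ^ 2) ^ 2 =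
          (a ^ 2 + 4 * p) * (N ^ 4 + 4 * e * (a ^ 2 + 4 * p) * T' ^ 2) := by
        have h11 : T ^ 2 = (a ^ 2 + 4 * p) ^ 2 * T' ^ 2 := by rw [hT']; ring
        linear_combination (4 * e) * h11 - 4 * e * h1 + (4 * S ^ 4 - 4 * p * N ^ 4 + a ^ 2 * N ^ 4 -4 * S ^ 4 + 4 * p * N ^ 4) * he2 + (4 * p * N ^ 4 - 4 * S ^ 4) * he2
      obtain ⟨V, hV⟩ := hqp.dvd_of_dvd_pow (Dvd.intro _ h10.symm)
      have h12 : (a ^ 2 + 4 * p) * N ^ 4 = (a ^ 2 + 4 * p) * ((a ^ 2 + 4 * p) * (V ^ 2 - 4 * e * T' ^ 2)) := by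
        rw [hV] at h10
        linear_combination -h10
      have h13 := mul_left_cancel₀ hqp.ne_zero h12
      have h14 : (a ^ 2 + 4 * p) ∣ N := hqp.dvd_of_dvd_pow (Dvd.intro _ h13.symm)
      exact hrN (h9.dvd.trans h14)
  · exact hrN (hr.dvd_of_dvd_pow h5)

lemma RepAt.Tne (hpar : Par a p) (he : e = 1 ∨ e = -1) (h : RepAt a p e P S N T) : T ≠ 0 := by
  have := h.Todd hpar he
  omega

/-- `S⁴ + p N⁴` is coprime to `S T N`. -/
lemma RepAt.F_coprime (hpar : Par a p) (he : e = 1 ∨ e = -1) (h : RepAt a p e P S N T) :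
    IsCoprime (S ^ 4 + p * N ^ 4) (S * |T| * N) := by
  have h1 : IsCoprime (S ^ 4 + p * N ^ 4) T := (h.T_coprime hpar he).symm
  have h2 : IsCoprime (S ^ 4 + p * N ^ 4) |T| := by
    rcases abs_choice T with h3 | h3 <;> rw [h3]
    · exact h1
    · exact h1.neg_right
  have h3 : IsCoprime (S ^ 4 + p * N ^ 4) N := by
    have : S ^ 4 + p * N ^ 4 = S ^ 4 + (p * N ^ 3) * N := by ring
    rw [this]
    exact (h.cop.pow_left).add_mul_right_left _
  have h4 : IsCoprime p S :=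
    (Irreducible.coprime_iff_not_dvd hpar.primep.irreducible).mpr (h.not_dvd_S hpar he)
  have h5 : IsCoprime (S ^ 4 + p * N ^ 4) S := by
    have : S ^ 4 + p * N ^ 4 = p * N ^ 4 + S ^ 3 * S := by ring
    rw [this]
    exact (h4.mul_left h.cop.symm.pow_left).add_mul_right_left _
  exact (h5.mul_right h2).mul_right h3

lemma RepAt.dbl_aux (hpar : Par a p) (he : e = 1 ∨ e = -1) (h : RepAt a p e P S N T) :
    ∃ y, At (P + P) (((S ^ 4 + p * N ^ 4 : ℤ) / ((2 * (S * |T| * N) : ℤ) : ℚ)) ^ 2) y := by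
  have hSq : (S : ℚ) ≠ 0 := by exact_mod_cast h.hS.ne'
  have hNq : (N : ℚ) ≠ 0 := by exact_mod_cast h.hN.ne'
  have hTq : (T : ℚ) ≠ 0 := by exact_mod_cast h.Tne hpar he
  have he2 : (e : ℚ) ^ 2 = 1 := by rcases he with rfl | rfl <;> norm_num
  have hy : (S : ℚ) * T / N ^ 3 ≠ 0 := by positivity
  have h1 := h.at'.dbl hy
  have h2 : (((e : ℚ) * ((S : ℚ) / N) ^ 2) ^ 2 + p) / (2 * ((S : ℚ) * T / N ^ 3)) =
      (S ^ 4 + p * N ^ 4) / (2 * (S * T * N)) := by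
    rw [mul_pow, he2]
    field_simp
  have h3 : ((S ^ 4 + p * N ^ 4 : ℤ) / ((2 * (S * |T| * N) : ℤ) : ℚ)) ^ 2 =
      (((S : ℚ) ^ 4 + p * N ^ 4) / (2 * (S * T * N))) ^ 2 := by
    push_cast
    rw [div_pow, div_pow]
    congr 1
    rw [mul_pow, mul_pow, mul_pow, sq_abs]
    ring
  rw [h3, ← h2]
  exact ⟨_, h1⟩

lemma pow4_mod16 {m : ℤ} (h : m % 2 = 1) : m ^ 4 % 16 = 1 := by
  have : m % 16 = 1 ∨ m % 16 = 3 ∨ m % 16 = 5 ∨ m % 16 = 7 ∨ m % 16 = 9 ∨ m % 16 = 11 ∨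
    m % 16 = 13 ∨ m % 16 = 15 := by omega
  rcases this with h | h | h | h | h | h | h | h <;> simp [pow_succ, Int.mul_emod, h]

lemma RepAt.F_mod16 (hS2 : S % 2 = 1) (hN2 : N % 2 = 1) :
    (S ^ 4 + p * N ^ 4) % 16 = (1 + p) % 16 := by
  have h1 := pow4_mod16 hS2
  have h2 := pow4_mod16 hN2
  rw [Int.add_emod, Int.mul_emod, h1, h2]
  omega

/-- Doubling a point with `S`, `N` both odd. -/
lemma RepAt.dbl_odd (hpar : Par a p) (he : e = 1 ∨ e = -1) (h : RepAt a p e P S N T)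
    (hS2 : S % 2 = 1) (hN2 : N % 2 = 1) :
    ∃ S' T', 2 * S' = S ^ 4 + p * N ^ 4 ∧ RepAt a p 1 (P + P) S' (S * |T| * N) T' := by
  have hF := RepAt.F_mod16 (p := p) hS2 hN2
  have hp8 := hpar.hp8
  have hp0 := hpar.hp0
  have hS := h.hS
  have hN := h.hN
  have hT : 0 < |T| := abs_pos.mpr (h.Tne hpar he)
  obtain ⟨S', hS'⟩ : ∃ S', S ^ 4 + p * N ^ 4 = 2 * S' := ⟨(S ^ 4 + p * N ^ 4) / 2, by omega⟩
  have hpos : 0 < S ^ 4 + p * N ^ 4 := by positivity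
  obtain ⟨y, hy⟩ := h.dbl_aux hpar he
  have hcop := h.F_coprime hpar he
  rw [hS'] at hcop hy
  have hcop' : IsCoprime S' (S * |T| * N) := hcop.of_mul_left_right
  have e1 : (((2 * S' : ℤ) : ℚ) / ((2 * (S * |T| * N) : ℤ) : ℚ)) ^ 2 =
      ((1 : ℤ) : ℚ) * ((S' : ℚ) / ((S * |T| * N : ℤ) : ℚ)) ^ 2 := by
    push_cast
    rw [mul_div_mul_left _ _ (by norm_num : (2 : ℚ) ≠ 0)]
    ring
  rw [e1] at hy
  obtain ⟨T', hT'⟩ := rep_of (Or.inl rfl) (by omega) (by positivity) hcop' hy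
  exact ⟨S', T', hS'.symm, hT'⟩

/-- Doubling a point with exactly one of `S`, `N` even. -/
lemma RepAt.dbl_even (hpar : Par a p) (he : e = 1 ∨ e = -1) (h : RepAt a p e P S N T)
    (hSN : S % 2 = 0 ∨ N % 2 = 0) :
    ∃ T', RepAt a p 1 (P + P) (S ^ 4 + p * N ^ 4) (2 * (S * |T| * N)) T' := by
  have hp8 := hpar.hp8
  have hp0 := hpar.hp0
  have hS := h.hS
  have hN := h.hN
  have hT : 0 < |T| := abs_pos.mpr (h.Tne hpar he)
  obtain ⟨y, hy⟩ := h.dbl_aux hpar he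
  have hcop := h.F_coprime hpar he
  have hodd : (S ^ 4 + p * N ^ 4) % 2 = 1 := by
    have hnot : ¬ (S % 2 = 0 ∧ N % 2 = 0) := by
      rintro ⟨h2, h3⟩
      have := h.cop.isUnit_of_dvd' (Int.dvd_of_emod_eq_zero h2) (Int.dvd_of_emod_eq_zero h3)
      rw [Int.isUnit_iff] at this
      omega
    have hpodd : p % 2 = 1 := by omega
    have hS2 : S % 2 = 0 ∨ S % 2 = 1 := by omega
    have hN2 : N % 2 = 0 ∨ N % 2 = 1 := by omega
    rcases hS2 with hS | hS <;> rcases hN2 with hN | hN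
    · exact absurd ⟨hS, hN⟩ hnot
    · simp [pow_succ, Int.mul_emod, Int.add_emod, hS, hN, hpodd]
    · simp [pow_succ, Int.mul_emod, Int.add_emod, hS, hN, hpodd]
    · omega
  have hcop2 : IsCoprime (S ^ 4 + p * N ^ 4) 2 := by
    generalize S ^ 4 + p * N ^ 4 = x at hodd
    exact ⟨1, -(x / 2), by omega⟩
  have hcop' : IsCoprime (S ^ 4 + p * N ^ 4) (2 * (S * |T| * N)) := hcop2.mul_right hcop
  have e1 : (((S ^ 4 + p * N ^ 4 : ℤ) : ℚ) / ((2 * (S * |T| * N) : ℤ) : ℚ)) ^ 2 =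
      ((1 : ℤ) : ℚ) * (((S ^ 4 + p * N ^ 4 : ℤ) : ℚ) / ((2 * (S * |T| * N) : ℤ) : ℚ)) ^ 2 := by
    push_cast; ring
  rw [e1] at hy
  exact rep_of (Or.inl rfl) (by positivity) (by positivity) hcop' hy

/-- Points with square abscissa have odd `S`. -/
lemma RepAt.S_odd (hpar : Par a p) (h : RepAt a p 1 P S N T) : S % 2 = 1 := by
  by_contra hcon
  have hS : S % 2 = 0 := by omega
  have hN : N % 2 = 1 := by
    by_contra hN
    have hN : N % 2 = 0 := by omega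
    have := h.cop.isUnit_of_dvd' (Int.dvd_of_emod_eq_zero hS) (Int.dvd_of_emod_eq_zero hN)
    rw [Int.isUnit_iff] at this
    omega
  have ha := hpar.aodd
  have hp8 := hpar.hp8
  have h1 := h.eqn
  have hT := h.Todd hpar (Or.inl rfl)
  have m1 : T ^ 2 % 8 = 1 := by
    have : T % 8 = 1 ∨ T % 8 = 3 ∨ T % 8 = 5 ∨ T % 8 = 7 := by omega
    rcases this with h | h | h | h <;> simp [pow_succ, Int.mul_emod, h]
  have m2 : N ^ 4 % 8 = 1 := by have := pow4_mod16 hN; omega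
  have m3 : S ^ 4 % 8 = 0 := by
    have : S % 8 = 0 ∨ S % 8 = 2 ∨ S % 8 = 4 ∨ S % 8 = 6 := by omega
    rcases this with h | h | h | h <;> simp [pow_succ, Int.mul_emod, h]
  have m4 : N ^ 2 % 8 = 1 := by
    have : N % 8 = 1 ∨ N % 8 = 3 ∨ N % 8 = 5 ∨ N % 8 = 7 := by omega
    rcases this with h | h | h | h <;> simp [pow_succ, Int.mul_emod, h]
  have m5 : S ^ 2 % 8 = 0 ∨ S ^ 2 % 8 = 4 := by
    have : S % 8 = 0 ∨ S % 8 = 2 ∨ S % 8 = 4 ∨ S % 8 = 6 := by omega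
    rcases this with h | h | h | h <;> simp [pow_succ, Int.mul_emod, h]
  have m6 : (a * S ^ 2 * N ^ 2) % 8 = 0 ∨ (a * S ^ 2 * N ^ 2) % 8 = 4 := by
    have ha8 : a % 8 = 1 ∨ a % 8 = 3 ∨ a % 8 = 5 ∨ a % 8 = 7 := by omega
    rcases m5 with h5 | h5 <;> rcases ha8 with h6 | h6 | h6 | h6 <;>
      simp [Int.mul_emod, h5, h6, m4]
  have m7 : (p * N ^ 4) % 8 = 5 := by rw [Int.mul_emod, hp8, m2]; rfl
  have : (1 * (S ^ 4 - p * N ^ 4) + a * S ^ 2 * N ^ 2) % 8 = 1 := by rw [← h1]; exact m1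
  omega

end

end Pool.Agent.Helper11
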