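import Pool.Agent.Helper11.FG

/-!
# The structure of `E(ℚ)`
-/

namespace Pool.Agent.Helper11

open WeierstrassCurve

section
variable {a p : ℤ}

lemma RepAt.ne_zero {e : ℤ} {P : (E a p).Point} {S N T : ℤ} (h : RepAt a p e P S N T) : P ≠ 0 :=
  h.at'.ne_zero

lemma RepAt.unique {e : ℤ} (he : e = 1 ∨ e = -1) {P : (E a p).Point} {S N T S' N' T' : ℤ}
    (h : RepAt a p e P S N T) (h' : RepAt a p e P S' N' T') : S = S' ∧ N = N' ∧ T = T' := by
  obtain ⟨h1, h2⟩ := h.at'.unique h'.at'
  have hN : (0 : ℚ) < N := by exact_mod_cast h.hN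
  have hN' : (0 : ℚ) < N' := by exact_mod_cast h'.hN
  have hS : (0 : ℚ) < S := by exact_mod_cast h.hS
  have hS' : (0 : ℚ) < S' := by exact_mod_cast h'.hS
  have he0 : (e : ℚ) ≠ 0 := by rcases he with rfl | rfl <;> norm_num
  have h3 : (S : ℚ) / N = S' / N' := by
    have : ((S : ℚ) / N) ^ 2 = ((S' : ℚ) / N') ^ 2 := mul_left_cancel₀ he0 h1
    exact (pow_left_inj₀ (by positivity) (by positivity) two_ne_zero).mp this
  have h4 : S * N' = S' * N := by
    rw [div_eq_div_iff hN.ne' hN'.ne'] at h3; exact_mod_cast h3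
  have h5 : S ∣ S' := h.cop.dvd_of_dvd_mul_right ⟨N', by linarith⟩
  have h6 : S' ∣ S := h'.cop.dvd_of_dvd_mul_right ⟨N, by linarith⟩
  have h7 : S = S' := Int.dvd_antisymm h.hS.le h'.hS.le h5 h6
  subst h7
  have h8 : N = N' := (mul_left_cancel₀ h.hS.ne' h4).symm
  subst h8
  refine ⟨rfl, rfl, ?_⟩
  have h9 : (S : ℚ) * T = S * T' := by
    rwa [div_left_inj' (by positivity)] at h2
  exact_mod_cast mul_left_cancel₀ hS.ne' h9

/-- Non-zero doubles have a representation with `e = 1`. -/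
lemma rep_of_dbl (hpar : Par a p) {R : (E a p).Point} (hR : R + R ≠ 0) :
    ∃ S N T, RepAt a p 1 (R + R) S N T := by
  rcases zero_or R with rfl | ⟨x, y, h⟩
  · exact absurd (add_zero _) hR
  have hy : y ≠ 0 := by
    rintro rfl
    exact hR h.dbl_zero
  have h1 := h.dbl hy
  have hs : (x ^ 2 + p) / (2 * y) ≠ 0 := by
    have : (0 : ℚ) < p := by exact_mod_cast hpar.hp0
    positivity
  have h2 : ((x ^ 2 + p) / (2 * y)) ^ 2 = ((1 : ℤ) : ℚ) * ((x ^ 2 + p) / (2 * y)) ^ 2 := by
    push_cast; ring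
  rw [h2] at h1
  obtain ⟨S, N, T, h3, -⟩ := rep_exists (Or.inl rfl) hs h1
  exact ⟨S, N, T, h3⟩

lemma RepAt.growth (hpar : Par a p) {P : (E a p).Point} {S N T : ℤ} (h : RepAt a p 1 P S N T) :
    ∃ S' N' T', RepAt a p 1 (P + P) S' N' T' ∧ S < S' := by
  have hp0 := hpar.hp0
  have hp8 := hpar.hp8
  have hp5 : 5 ≤ p := by omega
  have hS := h.hS
  have hN := h.hN
  have hN4 : 1 ≤ N ^ 4 := one_le_pow₀ (by omega)
  have hpN : 5 ≤ p * N ^ 4 := by nlinarith
  have hS4 : 2 * S ≤ S ^ 4 + 1 := by nlinarith [sq_nonneg (S ^ 2 - 1), sq_nonneg (S - 1)]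
  by_cases hN2 : N % 2 = 1
  · obtain ⟨S', T', e, h'⟩ := h.dbl_odd hpar (Or.inl rfl) (h.S_odd hpar) hN2
    exact ⟨S', _, T', h', by omega⟩
  · obtain ⟨T', h'⟩ := h.dbl_even hpar (Or.inl rfl) (Or.inr (by omega))
    exact ⟨_, _, T', h', by omega⟩

/-- Points with square abscissa have infinite order. -/
lemma RepAt.infinite_order (hpar : Par a p) {P : (E a p).Point} {S N T : ℤ}
    (h : RepAt a p 1 P S N T) {n : ℤ} (hn : n • P = 0) : n = 0 := by
  by_contra hn0
  have hfin : IsOfFinAddOrder P := isOfFinAddOrder_iff_zsmul_eq_zero.mpr ⟨n, hn0, hn⟩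
  have hfin2 : (AddSubgroup.zmultiples P : Set (E a p).Point).Finite := finite_zmultiples.mpr hfin
  have hex : ∀ k : ℕ, ∃ S N T, RepAt a p 1 ((2 : ℕ) ^ k • P) S N T := by
    intro k
    induction k with
    | zero => exact ⟨S, N, T, by simpa using h⟩
    | succ k ih =>
      obtain ⟨S, N, T, h1⟩ := ih
      obtain ⟨S', N', T', h2, -⟩ := h1.growth hpar
      refine ⟨S', N', T', ?_⟩
      rw [pow_succ, mul_nsmul, two_nsmul]
      exact h2
  choose fS fN fT hf using hex
  have hmono : StrictMono fS := by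
    apply strictMono_nat_of_lt_succ
    intro k
    obtain ⟨S', N', T', h2, h3⟩ := (hf k).growth hpar
    have h4 := hf (k + 1)
    rw [pow_succ, mul_nsmul, two_nsmul] at h4
    rw [(h4.unique (Or.inl rfl) h2).1]
    exact h3
  have hinj : Function.Injective (fun k : ℕ => (2 : ℕ) ^ k • P) := by
    intro i j hij
    simp only at hij
    have h1 := hf i
    rw [hij] at h1
    exact hmono.injective (h1.unique (Or.inl rfl) (hf j)).1
  exact Set.infinite_of_injective_forall_mem hinj
    (fun k => AddSubgroup.nsmul_mem_zmultiples P _) hfin2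

lemma two_torsion (hpar : Par a p) {P : (E a p).Point} (h : P + P = 0) :
    P = 0 ∨ P = T hpar.good := by
  rcases zero_or P with rfl | ⟨x, y, hx⟩
  · left; rfl
  right
  have hy : y = 0 := by
    by_contra hy
    exact (hx.dbl hy).ne_zero h
  subst hy
  have := y_zero_x hpar hx
  subst this
  rcases hx.same_x (T_at hpar.good) with h | h
  · exact h
  · rw [h, neg_T]

lemma torsion (hpar : Par a p) {P : (E a p).Point} {n : ℤ} (hn : n ≠ 0) (h : n • P = 0) :
    P = 0 ∨ P = T hpar.good := by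
  apply two_torsion hpar
  by_contra hcon
  obtain ⟨S, N, T, h1⟩ := rep_of_dbl hpar hcon
  apply hn
  apply h1.infinite_order hpar
  rw [zsmul_add, h, add_zero]

/-- Representatives modulo doubles and `T`. -/
lemma trichotomy (hpar : Par a p) (P : (E a p).Point) :
    (∃ R : (E a p).Point, P = R + R ∨ P = R + R + T hpar.good) ∨
    (∃ s y : ℚ, s ≠ 0 ∧ (At P (-1 * s ^ 2) y ∨ At (P + T hpar.good) (-1 * s ^ 2) y)) := by
  have hp0 : (p : ℚ) ≠ 0 := by exact_mod_cast hpar.hp0.ne'
  obtain ⟨i, hi⟩ := exists_cls hpar P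
  fin_cases i
  · simp only [Cls] at hi
    exact Or.inl ⟨0, Or.inl (by rw [hi, add_zero])⟩
  · obtain ⟨y, h⟩ := hi
    left
    refine ⟨0, Or.inr ?_⟩
    rcases h.same_x (T_at hpar.good) with h | h
    · rw [h]; simp
    · rw [h, neg_T]; simp
  · obtain ⟨s, y, hs, h⟩ := hi
    rw [one_mul] at h
    obtain ⟨R, hR⟩ := half hpar.good hpar.hp0 hpar.hq hs h
    exact Or.inl ⟨R, Or.inl hR.symm⟩
  · obtain ⟨s, y, hs, h⟩ := hi
    exact Or.inr ⟨s, y, hs, Or.inl h⟩
  · obtain ⟨s, y, hs, h⟩ := hi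
    obtain ⟨y', h'⟩ := h.add_T hpar.good (by positivity)
    have : -(p : ℚ) / (p * s ^ 2) = -1 * (1 / s) ^ 2 := by field_simp
    rw [this] at h'
    exact Or.inr ⟨1 / s, y', by positivity, Or.inr h'⟩
  · obtain ⟨s, y, hs, h⟩ := hi
    have hne : -(p : ℚ) * s ^ 2 ≠ 0 := mul_ne_zero (neg_ne_zero.mpr hp0) (by positivity)
    obtain ⟨y', h'⟩ := h.add_T hpar.good hne
    have : -(p : ℚ) / (-p * s ^ 2) = (1 / s) ^ 2 := by field_simp
    rw [this] at h'
    obtain ⟨R, hR⟩ := half hpar.good hpar.hp0 hpar.hq (by positivity) h'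
    refine Or.inl ⟨R, Or.inr ?_⟩
    rw [hR, add_assoc, T_add_T, add_zero]

lemma trichotomy2 (hpar : Par a p) (P Q : (E a p).Point)
    (hP : ¬ ∃ R : (E a p).Point, P = R + R ∨ P = R + R + T hpar.good)
    (hQ : ¬ ∃ R : (E a p).Point, Q = R + R ∨ Q = R + R + T hpar.good) :
    ∃ R : (E a p).Point, P - Q = R + R ∨ P - Q = R + R + T hpar.good := by
  obtain ⟨s, y, hs, h⟩ := (trichotomy hpar P).resolve_left hP
  obtain ⟨s', y', hs', h'⟩ := (trichotomy hpar Q).resolve_left hQ
  have h1 : (-1 : ℚ) ≠ 0 := by norm_num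
  rcases h with h | h <;> rcases h' with h' | h'
  · obtain ⟨R, hR⟩ := class_sub hpar h1 hs hs' h h'
    exact ⟨R, Or.inl hR.symm⟩
  · obtain ⟨R, hR⟩ := class_sub hpar h1 hs hs' h h'
    refine ⟨R, Or.inr ?_⟩
    rw [hR]; abel
  · obtain ⟨R, hR⟩ := class_sub hpar h1 hs hs' h h'
    refine ⟨R, Or.inr ?_⟩
    have hT := T_add_T hpar.good
    rw [hR]
    calc P - Q = P - Q + 0 := by rw [add_zero]
      _ = P - Q + (T hpar.good + T hpar.good) := by rw [hT]
      _ = _ := by abel
  · obtain ⟨R, hR⟩ := class_sub hpar h1 hs hs' h h'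
    refine ⟨R, Or.inl ?_⟩
    rw [hR]; abel

theorem structure' (hpar : Par a p) :
    ∃ g : (E a p).Point, ∀ P : (E a p).Point, ∃ n : ℤ, P = n • g ∨ P = n • g + T hpar.good := by
  have hfg : AddGroup.FG (E a p).Point := fg hpar
  have hfin : Module.Finite ℤ (E a p).Point := Module.Finite.iff_addGroup_fg.mpr hfg
  obtain ⟨K, hK⟩ : ∃ K, K = Submodule.span ℤ {T hpar.good} := ⟨_, rfl⟩
  have hmem : ∀ P, P ∈ K ↔ P = 0 ∨ P = T hpar.good := by
    intro P
    rw [hK, Submodule.mem_span_singleton]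
    constructor
    · rintro ⟨n, rfl⟩
      rcases Int.even_or_odd' n with ⟨m, rfl | rfl⟩
      · left
        rw [mul_comm, mul_zsmul, two_zsmul, T_add_T, zsmul_zero]
      · right
        rw [add_zsmul, mul_comm, mul_zsmul, two_zsmul, T_add_T, zsmul_zero, zero_add, one_zsmul]
    · rintro (rfl | rfl)
      · exact ⟨0, zero_zsmul _⟩
      · exact ⟨1, one_zsmul _⟩
  have htf : Module.IsTorsionFree ℤ ((E a p).Point ⧸ K) := by
    apply Module.IsTorsionFree.of_smul_eq_zero
    intro r m hrm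
    by_cases hr : r = 0
    · left; exact hr
    right
    obtain ⟨P, rfl⟩ := Submodule.Quotient.mk_surjective K m
    rw [← Submodule.Quotient.mk_smul, Submodule.Quotient.mk_eq_zero, hmem] at hrm
    rw [Submodule.Quotient.mk_eq_zero, hmem]
    have : (2 * r) • P = 0 := by
      rw [mul_zsmul, two_zsmul]
      rcases hrm with h | h <;> rw [h]
      · exact add_zero _
      · exact T_add_T _
    exact torsion hpar (by omega) this
  let b := Module.finBasis ℤ ((E a p).Point ⧸ K)
  obtain ⟨r, hr⟩ : ∃ r, r = Module.finrank ℤ ((E a p).Point ⧸ K) := ⟨_, rfl⟩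
  have hrank : Module.finrank ℤ ((E a p).Point ⧸ K) ≤ 1 := by
    by_contra hcon
    push Not at hcon
    let i : Fin (Module.finrank ℤ ((E a p).Point ⧸ K)) := ⟨0, by omega⟩
    let j : Fin (Module.finrank ℤ ((E a p).Point ⧸ K)) := ⟨1, by omega⟩
    have hij : i ≠ j := by simp [i, j]
    obtain ⟨P, hP⟩ := Submodule.Quotient.mk_surjective K (b i)
    obtain ⟨Q, hQ⟩ := Submodule.Quotient.mk_surjective K (b j)
    have key : ∀ (c : Fin (Module.finrank ℤ ((E a p).Point ⧸ K)) →₀ ℤ) (X R : (E a p).Point),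
        b.repr (Submodule.Quotient.mk X) = c → (X = R + R ∨ X = R + R + T hpar.good) →
        ∀ k, c k % 2 = 0 := by
      intro c X R hc hX k
      have h1 : (Submodule.Quotient.mk X : (E a p).Point ⧸ K) =
          (2 : ℤ) • Submodule.Quotient.mk R := by
        rw [← Submodule.Quotient.mk_smul, Submodule.Quotient.eq, hmem, two_zsmul]
        rcases hX with h | h
        · left; rw [h]; abel
        · right; rw [h]; abel
      rw [h1, map_smul] at hc
      rw [← hc]
      simp
    have hPn : ¬ ∃ R : (E a p).Point, P = R + R ∨ P = R + R + T hpar.good := by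
      rintro ⟨R, hR⟩
      have := key (Finsupp.single i 1) P R (by rw [hP, b.repr_self]) hR i
      simp at this
    have hQn : ¬ ∃ R : (E a p).Point, Q = R + R ∨ Q = R + R + T hpar.good := by
      rintro ⟨R, hR⟩
      have := key (Finsupp.single j 1) Q R (by rw [hQ, b.repr_self]) hR j
      simp at this
    obtain ⟨R, hR⟩ := trichotomy2 hpar P Q hPn hQn
    have := key (Finsupp.single i 1 - Finsupp.single j 1) (P - Q) R
      (by rw [Submodule.Quotient.mk_sub, hP, hQ, map_sub, b.repr_self, b.repr_self]) hR i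
    simp [hij.symm] at this
  rcases Nat.le_one_iff_eq_zero_or_eq_one.mp hrank with h0 | h1
  · refine ⟨0, fun P => ⟨0, ?_⟩⟩
    have hsub : Subsingleton ((E a p).Point ⧸ K) := by
      rw [← Module.finrank_zero_iff (R := ℤ)]; exact h0
    have h2 : (Submodule.Quotient.mk P : (E a p).Point ⧸ K) = 0 := Subsingleton.elim _ _
    rw [Submodule.Quotient.mk_eq_zero, hmem] at h2
    simpa using h2
  · have i : Fin (Module.finrank ℤ ((E a p).Point ⧸ K)) := ⟨0, by omega⟩
    have hsub : ∀ j, j = i := by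
      intro j
      have h3 := j.isLt
      have h4 := i.isLt
      apply Fin.ext
      omega
    obtain ⟨g, hg⟩ := Submodule.Quotient.mk_surjective K (b i)
    refine ⟨g, fun P => ⟨b.repr (Submodule.Quotient.mk P) i, ?_⟩⟩
    have h2 : (Submodule.Quotient.mk P : (E a p).Point ⧸ K) =
        b.repr (Submodule.Quotient.mk P) i • b i := by
      apply b.repr.injective
      ext k
      rw [hsub k, map_smul, b.repr_self]
      simp
    rw [← hg, ← Submodule.Quotient.mk_smul, Submodule.Quotient.eq, hmem] at h2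
    rcases h2 with h3 | h3
    · left; exact sub_eq_zero.mp h3
    · right
      have : P = b.repr (Submodule.Quotient.mk P) i • g +
        (P - b.repr (Submodule.Quotient.mk P) i • g) := by abel
      rw [h3] at this
      exact this

end

end Pool.Agent.Helper11
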