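import Pool.Agent.Helper10.Sub.Defs

/-!
# The subspace theorem on a rational subspace
-/

set_option autoImplicit false

namespace Pool.Agent.Helper11.Sub

open Pool.Agent.Helper10.Sub

/-- Coordinates of a rational subspace. -/
lemma exists_coords {Y : Type} [Fintype Y] (V : Submodule ℚ (Y → ℚ)) (M : ℕ)
    (hVM : Module.finrank ℚ V = M) :
    ∃ (e : Fin M → Y) (R : Y → Fin M → ℚ),
      (∀ y ∈ V, ∀ l, y l = ∑ k, R l k * y (e k)) ∧
      (∀ x : Fin M → ℚ, (fun l => ∑ k, R l k * x k) ∈ V ∧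
        ∀ k, ∑ j, R (e k) j * x j = x k) := by
  classical
  let co : Y → Module.Dual ℚ V := fun l => (LinearMap.proj l).comp V.subtype
  obtain ⟨κ, a, ha, hspan, hli⟩ := exists_linearIndependent' ℚ co
  have htop : Submodule.span ℚ (Set.range co) = ⊤ := by
    have h1 : (Submodule.span ℚ (Set.range co)).dualCoannihilator = ⊥ := by
      rw [eq_bot_iff]
      intro y hy
      rw [Submodule.mem_dualCoannihilator] at hy
      rw [Submodule.mem_bot]
      apply Subtype.ext
      funext l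
      exact hy (co l) (Submodule.subset_span ⟨l, rfl⟩)
    have h2 := Subspace.dualCoannihilator_dualAnnihilator_eq
      (W := Submodule.span ℚ (Set.range co))
    rw [h1] at h2
    rw [← h2, Submodule.dualAnnihilator_bot]
  have hκ : Finite κ := Finite.of_injective a ha
  have := Fintype.ofFinite κ
  have hcard : Fintype.card κ = M := by
    have h1 := finrank_span_eq_card hli
    rw [hspan, htop, finrank_top, Subspace.dual_finrank_eq, hVM] at h1
    exact h1.symm
  let e0 : Fin M ≃ κ := (finCongr hcard.symm).trans (Fintype.equivFin κ).symm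
  let e : Fin M → Y := fun k => a (e0 k)
  let φ : V →ₗ[ℚ] (Fin M → ℚ) := LinearMap.pi fun k => co (e k)
  have hφ : Function.Injective φ := by
    rw [injective_iff_map_eq_zero]
    intro y hy
    have h0 : ∀ l, co l y = 0 := by
      have h3 : ∀ g ∈ Submodule.span ℚ (Set.range (co ∘ a)), g y = 0 := by
        intro g hg
        induction hg using Submodule.span_induction with
        | mem g hg =>
          obtain ⟨i, rfl⟩ := hg
          have := congrFun hy (e0.symm i)
          simpa [φ, e] using this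
        | zero => rfl
        | add g1 g2 _ _ h1 h2 => simp [h1, h2]
        | smul c g _ h1 => simp [h1]
      intro l
      apply h3
      rw [hspan]
      exact Submodule.subset_span ⟨l, rfl⟩
    apply Subtype.ext
    funext l
    exact h0 l
  have hbij : Function.Bijective φ := by
    refine ⟨hφ, ?_⟩
    exact (LinearMap.injective_iff_surjective_of_finrank_eq_finrank (by simp [hVM])).mp hφ
  let Φ : V ≃ₗ[ℚ] (Fin M → ℚ) := LinearEquiv.ofBijective φ hbij
  let R : Y → Fin M → ℚ := fun l k => (Φ.symm (Pi.single k 1)).1 l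
  have key : ∀ x : Fin M → ℚ, (Φ.symm x).1 = fun l => ∑ k, R l k * x k := by
    intro x
    have h1 : x = ∑ k, x k • (Pi.single k (1 : ℚ) : Fin M → ℚ) := by
      funext j
      simp [Finset.sum_apply, Pi.single_apply]
    conv_lhs => rw [h1]
    rw [map_sum]
    funext l
    simp only [map_smul, AddSubmonoidClass.coe_finsetSum, Finset.sum_apply, Submodule.coe_smul,
      Pi.smul_apply, smul_eq_mul, R]
    exact Finset.sum_congr rfl fun k _ => mul_comm _ _
  refine ⟨e, R, ?_, ?_⟩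
  · intro y hy l
    have h1 : Φ.symm (Φ ⟨y, hy⟩) = ⟨y, hy⟩ := Φ.symm_apply_apply _
    have h2 := key (Φ ⟨y, hy⟩)
    rw [h1] at h2
    exact congrFun h2 l
  · intro x
    rw [← key x]
    refine ⟨(Φ.symm x).2, ?_⟩
    intro k
    have h1 := congrFun (key x) (e k)
    rw [← h1]
    have h2 := congrFun (Φ.apply_symm_apply x) k
    exact h2

/-- SUBV, with the subspace theorem for `Fin M` as a hypothesis. -/
theorem subV_of {Y : Type} [Fintype Y] [DecidableEq Y] (V : Submodule ℚ (Y → ℚ)) (M : ℕ)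
    (hVM : Module.finrank ℚ V = M)
    {T : Type} [Fintype T] {p : T → ℕ} [∀ t, Fact (p t).Prime]
    (δ B : ℝ)
    (hsub : ∀ S : Sys (Fin M) T p, ∃ 𝒲 : Finset (Submodule ℚ (Fin M → ℚ)), (∀ W ∈ 𝒲, W ≠ ⊤) ∧
      ∀ (Q : ℝ) (a : Fin M → ℝ) (a' : T → Fin M → ℝ), 1 ≤ Q →
        (∀ i, Q ^ (-B) ≤ a i ∧ a i ≤ Q ^ B) → (∀ t i, Q ^ (-B) ≤ a' t i ∧ a' t i ≤ Q ^ B) →
        wprod a a' ≤ Q ^ (-δ) → ∀ x : Fin M → ℚ, PVec (pprod p) x → S.N a a' x ≤ 1 →
        ∃ W ∈ 𝒲, x ∈ W)
    (l : Fin M → Y → ℝ) (l' : ∀ t, Fin M → Y → ℚ_[p t])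
    (hl : ∀ i k, IsAlgebraic ℚ (l i k)) (hl' : ∀ t i k, IsAlgebraic ℚ (l' t i k))
    (hind : ∀ c : Fin M → ℝ, (∀ y ∈ V, ∑ i, c i * ∑ k, l i k * (y k : ℝ) = 0) → c = 0)
    (hind' : ∀ t, ∀ c : Fin M → ℚ_[p t],
      (∀ y ∈ V, ∑ i, c i * ∑ k, l' t i k * (y k : ℚ_[p t]) = 0) → c = 0) :
    ∃ 𝒲 : Finset (Submodule ℚ (Y → ℚ)), (∀ W ∈ 𝒲, W < V) ∧
    ∀ (Q : ℝ) (a : Fin M → ℝ) (a' : T → Fin M → ℝ), 1 ≤ Q →
      (∀ i, Q ^ (-B) ≤ a i ∧ a i ≤ Q ^ B) → (∀ t i, Q ^ (-B) ≤ a' t i ∧ a' t i ≤ Q ^ B) →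
      wprod a a' ≤ Q ^ (-δ) → ∀ y ∈ V, PVec (pprod p) y →
      (∀ i, |∑ k, l i k * (y k : ℝ)| ≤ a i) →
      (∀ t i, ‖∑ k, l' t i k * (y k : ℚ_[p t])‖ ≤ a' t i) → ∃ W ∈ 𝒲, y ∈ W := by
  classical
  obtain ⟨e, R, hR, hR'⟩ := exists_coords V M hVM
  -- evaluation of a form through the coordinates
  have evalF : ∀ {F : Type} [Field F] [CharZero F] (m : Y → F) (y : Y → ℚ), y ∈ V →
      ∑ k, m k * (y k : F) = ∑ j, (∑ k, m k * (R k j : F)) * (y (e j) : F) := by
    intro F _ _ m y hy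
    calc ∑ k, m k * (y k : F) = ∑ k, ∑ j, m k * ((R k j : F) * (y (e j) : F)) := by
          refine Finset.sum_congr rfl fun k _ => ?_
          rw [← Finset.mul_sum]
          congr 1
          have := hR y hy k
          rw [this]
          push_cast
          rfl
      _ = ∑ j, (∑ k, m k * (R k j : F)) * (y (e j) : F) := by
          rw [Finset.sum_comm]
          refine Finset.sum_congr rfl fun j _ => ?_
          rw [Finset.sum_mul]
          exact Finset.sum_congr rfl fun k _ => by ring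
  have algF : ∀ {F : Type} [Field F] [CharZero F] (m : Y → F), (∀ k, IsAlgebraic ℚ (m k)) →
      ∀ j, IsAlgebraic ℚ (∑ k, m k * (R k j : F)) := by
    intro F _ _ m hm j
    rw [isAlgebraic_iff_mem]
    refine Subfield.sum_mem _ fun k _ => Subfield.mul_mem _ ?_ ?_
    · exact (isAlgebraic_iff_mem _).mp (hm k)
    · exact SubfieldClass.ratCast_mem _ _
  have detF : ∀ {F : Type} [Field F] [CharZero F] (m : Fin M → Y → F),
      (∀ c : Fin M → F, (∀ y ∈ V, ∑ i, c i * ∑ k, m i k * (y k : F) = 0) → c = 0) →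
      (Matrix.of fun i j => ∑ k, m i k * (R k j : F)).det ≠ 0 := by
    intro F _ _ m hm h0
    obtain ⟨c, hc0, hc⟩ := Matrix.exists_vecMul_eq_zero_iff.mpr h0
    apply hc0
    apply hm c
    intro y hy
    have h1 : ∀ i, ∑ k, m i k * (y k : F) = ∑ j, (∑ k, m i k * (R k j : F)) * (y (e j) : F) :=
      fun i => evalF (m i) y hy
    simp_rw [h1, Finset.mul_sum]
    rw [Finset.sum_comm]
    refine Finset.sum_eq_zero fun j _ => ?_
    have h2 := congrFun hc j
    simp only [Matrix.vecMul, dotProduct, Matrix.of_apply, Pi.zero_apply] at h2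
    have h3 : ∑ i, c i * ((∑ k, m i k * (R k j : F)) * (y (e j) : F)) =
        (∑ i, c i * ∑ k, m i k * (R k j : F)) * (y (e j) : F) := by
      rw [Finset.sum_mul]
      exact Finset.sum_congr rfl fun i _ => by ring
    rw [h3, h2, zero_mul]
  let S : Sys (Fin M) T p :=
    { A := Matrix.of fun i j => ∑ k, l i k * (R k j : ℝ)
      A' := fun t => Matrix.of fun i j => ∑ k, l' t i k * (R k j : ℚ_[p t])
      algA := fun i j => algF (l i) (hl i) j
      algA' := fun t i j => algF (l' t i) (hl' t i) j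
      detA := detF l hind
      detA' := fun t => detF (l' t) (hind' t) }
  obtain ⟨𝒲, h𝒲, hmain⟩ := hsub S
  let π : (Y → ℚ) →ₗ[ℚ] (Fin M → ℚ) := LinearMap.funLeft ℚ ℚ e
  refine ⟨𝒲.image fun W => W.comap π ⊓ V, ?_, ?_⟩
  · intro W hW
    obtain ⟨W0, hW0, rfl⟩ := Finset.mem_image.mp hW
    refine lt_of_le_of_ne inf_le_right ?_
    intro hEq
    apply h𝒲 W0 hW0
    rw [eq_top_iff]
    intro x _
    obtain ⟨h1, h2⟩ := hR' x
    rw [← hEq] at h1
    have h3 := h1.1
    rw [SetLike.mem_coe, Submodule.mem_comap] at h3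
    convert h3 using 1
    funext k
    exact (h2 k).symm
  · intro Q a a' hQ ha ha' hw y hy hP hInf hp
    have hQ0 : (0 : ℝ) < Q := lt_of_lt_of_le one_pos hQ
    have hN : S.N a a' (π y) ≤ 1 := by
      have h1 : S.Ninf a (π y) ≤ 1 := by
        rw [Sys.Ninf, pi_norm_le_iff_of_nonneg zero_le_one]
        intro i
        have hai : 0 < a i := lt_of_lt_of_le (Real.rpow_pos_of_pos hQ0 _) (ha i).1
        rw [Real.norm_eq_abs, abs_div, abs_of_pos hai, div_le_one hai]
        have h2 := evalF (l i) y hy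
        have h3 : S.L (π y) i = ∑ k, l i k * (y k : ℝ) := by
          rw [h2]
          rfl
        rw [h3]
        exact hInf i
      have h2 : ∀ t, S.Np t (a' t) (π y) ≤ 1 := by
        intro t
        rw [Sys.Np, pi_norm_le_iff_of_nonneg zero_le_one]
        intro i
        have hai : 0 < a' t i := lt_of_lt_of_le (Real.rpow_pos_of_pos hQ0 _) (ha' t i).1
        rw [Real.norm_eq_abs, abs_div, abs_of_pos hai, abs_of_nonneg (norm_nonneg _),
          div_le_one hai]
        have h2 := evalF (l' t i) y hy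
        have h3 : S.L' t (π y) i = ∑ k, l' t i k * (y k : ℚ_[p t]) := by
          rw [h2]
          rfl
        rw [h3]
        exact hp t i
      have h3 : ∏ t, S.Np t (a' t) (π y) ≤ 1 :=
        Finset.prod_le_one (fun t _ => norm_nonneg _) (fun t _ => h2 t)
      have h4 : 0 ≤ ∏ t, S.Np t (a' t) (π y) := Finset.prod_nonneg fun t _ => norm_nonneg _
      calc S.N a a' (π y) = S.Ninf a (π y) * ∏ t, S.Np t (a' t) (π y) := rfl
        _ ≤ 1 * 1 := mul_le_mul h1 h3 h4 zero_le_one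
        _ = 1 := one_mul 1
    obtain ⟨W, hW, hyW⟩ := hmain Q a a' hQ ha ha' hw (π y) (fun k => hP (e k)) hN
    exact ⟨_, Finset.mem_image_of_mem _ hW, ⟨hyW, hy⟩⟩

end Pool.Agent.Helper11.Sub
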